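import Pool.Agent.K3h20.CR.KL4

/-!
# Project CR: the second level, at a point
-/

set_option autoImplicit false

open Set Filter Topology MeasureTheory Metric

namespace Pool.Agent.K3h20.CR

/-- The next orbit point is an almost affine function on a smaller ball. -/
theorem next_level (hld : St_ld) {r g : ℂ → ℂ} {y : ℂ} {ρ₀ ε d B c : ℝ}
    (hG : Good r g y ρ₀ ε d B c) {L : ℝ} {n : ℕ} (hn : 1 ≤ n) (hL : L / n ≤ ε) {k : ℕ} {x₁ : ℂ}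
    (hw : orb r n x₁ k ∈ lev r ρ₀ (L / n)) {G' : ℂ → ℂ} {E : ℂ} {R : ℝ} (hR : 0 < R)
    (hd : ∀ x ∈ closedBall x₁ R, HasDerivAt (fun t => orb r n t k) (G' x) x ∧
      ‖G' x - E‖ ≤ ‖E‖ / 10)
    (h1 : 2 * ‖E‖ * R ≤ d) (h2 : B * (2 * ‖E‖ * R) ≤ c * ‖orb r n x₁ k - y‖ / 100)
    (h3 : ρ₀ ≤ ‖x₁‖) (h4 : R ≤ ρ₀ / 2)
    (h5 : 400 / ρ₀ ≤ n * c * ‖orb r n x₁ k - y‖ * ‖E‖)
    (h6 : n * B * ‖orb r n x₁ k - y‖ * ‖E‖ * R ≤ 1 / 250) :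
    (∀ x ∈ closedBall x₁ R, ‖orb r n x k - orb r n x₁ k‖ ≤ 2 * ‖E‖ * ‖x - x₁‖) ∧
    ∃ H' : ℂ → ℂ, (∀ x ∈ closedBall x₁ R, HasDerivAt (fun t => orb r n t (k + 1)) (H' x) x ∧
      ‖H' x - H' x₁‖ ≤ ‖H' x₁‖ / 2) ∧
      ‖orb r n x₁ (k + 1)‖ * (n * c * ‖orb r n x₁ k - y‖ * ‖E‖) / 2 ≤ ‖H' x₁‖ := by
  have hn0 : (0 : ℝ) < n := by exact_mod_cast hn
  have hρ := hG.hρ
  have hc := hG.hc
  have hB0 : 0 < B := lt_of_lt_of_le one_pos hG.hB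
  have hinv : 1 < ρ₀⁻¹ := (one_lt_inv₀ hρ).2 hG.hρ1
  obtain ⟨hw1, hw2, hw3, hw4⟩ := hw
  obtain ⟨hgw, hlow⟩ := hG.low (orb r n x₁ k) (by linarith) (by rw [div_eq_mul_inv]; linarith)
    ((Real.exp_le_exp.2 (by linarith)).trans hw3) (hw4.trans (Real.exp_le_exp.2 hL))
  obtain ⟨w, hwdef⟩ : ∃ w, w = orb r n x₁ k := ⟨_, rfl⟩
  rw [← hwdef] at hgw hlow h2 h5 h6 ⊢
  have hx₁ : x₁ ∈ closedBall x₁ R := mem_closedBall_self hR.le
  have hnE : ∀ x ∈ closedBall x₁ R, ‖G' x‖ ≤ 11 / 10 * ‖E‖ := by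
    intro x hx
    calc ‖G' x‖ = ‖(G' x - E) + E‖ := by ring_nf
      _ ≤ ‖G' x - E‖ + ‖E‖ := norm_add_le _ _
      _ ≤ _ := by linarith [(hd x hx).2]
  have hnE1 : 9 / 10 * ‖E‖ ≤ ‖G' x₁‖ := by
    have : ‖E‖ ≤ ‖G' x₁‖ + ‖G' x₁ - E‖ := by
      calc ‖E‖ = ‖G' x₁ - (G' x₁ - E)‖ := by ring_nf
        _ ≤ _ := norm_sub_le _ _
    linarith [(hd x₁ hx₁).2]
  have hGG : ∀ x ∈ closedBall x₁ R, ‖orb r n x k - w‖ ≤ 2 * ‖E‖ * ‖x - x₁‖ := by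
    intro x hx
    rw [hwdef]
    exact (convex_closedBall x₁ R).norm_image_sub_le_of_norm_hasDerivWithin_le
      (f := fun t => orb r n t k) (fun z hz => (hd z hz).1.hasDerivWithinAt)
      (fun z hz => (hnE z hz).trans (by linarith [norm_nonneg E])) hx₁ hx
  have hnorm : ∀ x ∈ closedBall x₁ R, ‖x - x₁‖ ≤ R := by
    intro x hx
    rwa [mem_closedBall, dist_eq_norm] at hx
  have hGR : ∀ x ∈ closedBall x₁ R, ‖orb r n x k - w‖ ≤ 2 * ‖E‖ * R := by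
    intro x hx
    exact (hGG x hx).trans (mul_le_mul_of_nonneg_left (hnorm x hx) (by positivity))
  have hmem : ∀ x ∈ closedBall x₁ R, orb r n x k ∈ closedBall w d := by
    intro x hx
    rw [mem_closedBall, dist_eq_norm]
    exact (hGR x hx).trans h1
  have hgd : ∀ x ∈ closedBall x₁ R, ‖g (orb r n x k) - g w‖ ≤ ‖g w‖ / 100 := by
    intro x hx
    have k1 := (hlow _ (hmem x hx)).2.2.2 w (mem_closedBall_self hG.hd.le)
    calc ‖g (orb r n x k) - g w‖ ≤ B * (2 * ‖E‖ * R) :=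
          k1.trans (mul_le_mul_of_nonneg_left (hGR x hx) hB0.le)
      _ ≤ _ := h2
      _ ≤ _ := by linarith
  -- the main term
  obtain ⟨N, hN⟩ : ∃ N : ℂ, N = (n : ℂ) * g w * G' x₁ := ⟨_, rfl⟩
  have hNn : ‖N‖ = n * ‖g w‖ * ‖G' x₁‖ := by
    rw [hN, norm_mul, norm_mul, Complex.norm_natCast]
  have hE0 : 0 ≤ ‖E‖ := norm_nonneg _
  have hN1 : 9 / 10 * (n * c * ‖w - y‖ * ‖E‖) ≤ ‖N‖ := by
    rw [hNn]
    calc 9 / 10 * (n * c * ‖w - y‖ * ‖E‖) = n * (c * ‖w - y‖) * (9 / 10 * ‖E‖) := by ring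
      _ ≤ _ := by gcongr
  have hNlarge : 360 / ρ₀ ≤ ‖N‖ := by
    refine le_trans ?_ hN1
    calc 360 / ρ₀ = 9 / 10 * (400 / ρ₀) := by ring
      _ ≤ _ := by gcongr
  have hN0 : 0 < ‖N‖ := lt_of_lt_of_le (by positivity) hNlarge
  have hgwB : ‖g w‖ ≤ B * ‖w - y‖ := (hlow w (mem_closedBall_self hG.hd.le)).2.2.1
  have hN2 : ‖N‖ * R ≤ 11 / 10 * (1 / 250) := by
    rw [hNn]
    calc n * ‖g w‖ * ‖G' x₁‖ * R ≤ n * (B * ‖w - y‖) * (11 / 10 * ‖E‖) * R := by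
          have := hnE x₁ hx₁
          gcongr
      _ = 11 / 10 * (n * B * ‖w - y‖ * ‖E‖ * R) := by ring
      _ ≤ _ := by gcongr
  have hxn : ∀ x ∈ closedBall x₁ R, ρ₀ / 2 ≤ ‖x‖ := by
    intro x hx
    have : ‖x₁‖ ≤ ‖x‖ + ‖x - x₁‖ := by
      calc ‖x₁‖ = ‖x - (x - x₁)‖ := by ring_nf
        _ ≤ _ := norm_sub_le _ _
    linarith [hnorm x hx]
  have hinvx : ∀ x ∈ closedBall x₁ R, ‖1 / x‖ ≤ ‖N‖ / 180 := by
    intro x hx
    have k1 := hxn x hx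
    rw [norm_div, norm_one, div_le_iff₀ (by linarith)]
    calc (1 : ℝ) = 360 / ρ₀ / 180 * (ρ₀ / 2) := by field_simp; norm_num
      _ ≤ ‖N‖ / 180 * ‖x‖ := by gcongr
  obtain ⟨Λ, hΛdef⟩ : ∃ Λ : ℂ → ℂ, Λ = fun x => 1 / x + n * g (orb r n x k) * G' x := ⟨_, rfl⟩
  have hΛN : ∀ x ∈ closedBall x₁ R, ‖n * g (orb r n x k) * G' x - N‖ ≤ 235 / 1000 * ‖N‖ := by
    intro x hx
    have e1 : (n : ℂ) * g (orb r n x k) * G' x - N =
        n * ((g (orb r n x k) - g w) * G' x) + n * (g w * (G' x - G' x₁)) := by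
      rw [hN]; ring
    have k1 : ‖G' x - G' x₁‖ ≤ ‖E‖ / 5 := by
      calc ‖G' x - G' x₁‖ = ‖(G' x - E) - (G' x₁ - E)‖ := by ring_nf
        _ ≤ ‖G' x - E‖ + ‖G' x₁ - E‖ := norm_sub_le _ _
        _ ≤ _ := by linarith [(hd x hx).2, (hd x₁ hx₁).2]
    rw [e1]
    calc ‖(n : ℂ) * ((g (orb r n x k) - g w) * G' x) + n * (g w * (G' x - G' x₁))‖
        ≤ n * (‖g (orb r n x k) - g w‖ * ‖G' x‖) + n * (‖g w‖ * ‖G' x - G' x₁‖) := by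
          refine (norm_add_le _ _).trans (le_of_eq ?_)
          simp only [norm_mul, Complex.norm_natCast]
      _ ≤ n * (‖g w‖ / 100 * (11 / 10 * ‖E‖)) + n * (‖g w‖ * (‖E‖ / 5)) := by
          have := hgd x hx
          have := hnE x hx
          gcongr
      _ = (11 / 1000 + 1 / 5) * (n * ‖g w‖ * ‖E‖) := by ring
      _ ≤ 235 / 1000 * (n * ‖g w‖ * (9 / 10 * ‖E‖)) := by
          have : 0 ≤ n * ‖g w‖ * ‖E‖ := by positivity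
          nlinarith
      _ ≤ 235 / 1000 * (n * ‖g w‖ * ‖G' x₁‖) := by gcongr
      _ = _ := by rw [hNn]
  have hΛ1 : ∀ x ∈ closedBall x₁ R, ‖Λ x‖ ≤ 5 / 4 * ‖N‖ := by
    intro x hx
    have e1 : Λ x = 1 / x + ((n * g (orb r n x k) * G' x - N) + N) := by rw [hΛdef]; ring
    rw [e1]
    calc ‖1 / x + ((n * g (orb r n x k) * G' x - N) + N)‖
        ≤ ‖1 / x‖ + (‖n * g (orb r n x k) * G' x - N‖ + ‖N‖) :=
          (norm_add_le _ _).trans (by gcongr; exact norm_add_le _ _)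
      _ ≤ _ := by linarith [hinvx x hx, hΛN x hx]
  have hΛ2 : 99 / 100 * ‖N‖ ≤ ‖Λ x₁‖ := by
    have e1 : Λ x₁ = 1 / x₁ + N := by rw [hΛdef, hN, hwdef]
    have : ‖N‖ ≤ ‖Λ x₁‖ + ‖1 / x₁‖ := by
      calc ‖N‖ = ‖Λ x₁ - 1 / x₁‖ := by rw [e1]; ring_nf
        _ ≤ _ := norm_sub_le _ _
    linarith [hinvx x₁ hx₁]
  have hΛ3 : ∀ x ∈ closedBall x₁ R, ‖Λ x - Λ x₁‖ ≤ 1 / 4 * ‖N‖ := by
    intro x hx
    have e1 : Λ x - Λ x₁ = (1 / x - 1 / x₁) + (n * g (orb r n x k) * G' x - N) := by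
      rw [hΛdef, hN, hwdef]; ring
    rw [e1]
    calc ‖(1 / x - 1 / x₁) + (n * g (orb r n x k) * G' x - N)‖
        ≤ (‖1 / x‖ + ‖1 / x₁‖) + ‖n * g (orb r n x k) * G' x - N‖ :=
          (norm_add_le _ _).trans (by gcongr; exact norm_sub_le _ _)
      _ ≤ _ := by linarith [hinvx x hx, hinvx x₁ hx₁, hΛN x hx]
  have hder : ∀ x ∈ closedBall x₁ R, HasDerivAt (fun t => orb r n t (k + 1))
      (orb r n x (k + 1) * Λ x) x := by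
    intro x hx
    have k1 := hxn x hx
    have k2 := exit_deriv (g := g) hn (norm_pos_iff.1 (by linarith)) (hd x hx).1
      (hlow _ (hmem x hx)).2.1
    rw [hΛdef]
    exact k2
  have hld1 := fun x hx => hld (fun t => orb r n t (k + 1)) (fun x => orb r n x (k + 1) * Λ x) x₁ R
    (5 / 4 * ‖N‖) hR.le (by positivity) (by linarith) (fun z hz => ⟨hder z hz, by
      rw [norm_mul, mul_comm]
      exact mul_le_mul_of_nonneg_right (hΛ1 z hz) (norm_nonneg _)⟩) x hx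
  refine ⟨hGG, fun x => orb r n x (k + 1) * Λ x, ?_, ?_⟩
  · intro x hx
    refine ⟨hder x hx, ?_⟩
    obtain ⟨F, hF⟩ : ∃ F : ℂ → ℂ, F = fun t => orb r n t (k + 1) := ⟨_, rfl⟩
    have k1 : ‖F x - F x₁‖ ≤ 11 / 1000 * ‖F x₁‖ := by
      rw [hF]
      refine (hld1 x hx).trans ?_
      apply mul_le_mul_of_nonneg_right _ (norm_nonneg _)
      calc 2 * (5 / 4 * ‖N‖) * ‖x - x₁‖ ≤ 2 * (5 / 4 * ‖N‖) * R := by
            have := hnorm x hx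
            gcongr
        _ = 5 / 2 * (‖N‖ * R) := by ring
        _ ≤ _ := by linarith
    have e1 : ∀ z, orb r n z (k + 1) * Λ z = F z * Λ z := fun z => by rw [hF]
    simp only [e1]
    have e2 : F x * Λ x - F x₁ * Λ x₁ = (F x - F x₁) * Λ x + F x₁ * (Λ x - Λ x₁) := by ring
    rw [e2]
    calc ‖(F x - F x₁) * Λ x + F x₁ * (Λ x - Λ x₁)‖
        ≤ ‖F x - F x₁‖ * ‖Λ x‖ + ‖F x₁‖ * ‖Λ x - Λ x₁‖ := by
          rw [← norm_mul, ← norm_mul]; exact norm_add_le _ _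
      _ ≤ 11 / 1000 * ‖F x₁‖ * (5 / 4 * ‖N‖) + ‖F x₁‖ * (1 / 4 * ‖N‖) := by
          have := hΛ1 x hx
          have := hΛ3 x hx
          gcongr
      _ = ‖F x₁‖ * ‖N‖ * (11 / 800 + 1 / 4) := by ring
      _ ≤ ‖F x₁‖ * ‖N‖ * (99 / 200) := by
          apply mul_le_mul_of_nonneg_left _ (by positivity)
          norm_num
      _ = ‖F x₁‖ * (99 / 100 * ‖N‖) / 2 := by ring
      _ ≤ ‖F x₁‖ * ‖Λ x₁‖ / 2 := by gcongr
      _ = _ := by rw [norm_mul]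
  · simp only [norm_mul]
    calc ‖orb r n x₁ (k + 1)‖ * (n * c * ‖w - y‖ * ‖E‖) / 2
        = ‖orb r n x₁ (k + 1)‖ * ((n * c * ‖w - y‖ * ‖E‖) / 2) := by ring
      _ ≤ ‖orb r n x₁ (k + 1)‖ * ‖Λ x₁‖ := by
          apply mul_le_mul_of_nonneg_left _ (norm_nonneg _)
          have : 0 ≤ n * c * ‖w - y‖ * ‖E‖ := by positivity
          linarith

end Pool.Agent.K3h20.CR
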