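import Pool.Agent.K3h20.CR.AN1

/-!
# Project CR: the second level
-/

set_option autoImplicit false

open Set Filter Topology MeasureTheory Metric

namespace Pool.Agent.K3h20.CR

theorem vol_ball (x : ℂ) {s : ℝ} (hs : 0 ≤ s) :
    volume (closedBall x s) = ENNReal.ofReal (Real.pi * s ^ 2) := by
  rw [Complex.volume_closedBall, mul_comm Real.pi, ENNReal.ofReal_mul (by positivity),
    ENNReal.ofReal_pow hs]
  congr 1
  rw [← NNReal.coe_real_pi, ENNReal.ofReal_coe_nnreal]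

theorem lev_mono {r : ℂ → ℂ} {ρ₀ ρ₁ h h' : ℝ} (h0 : 0 < ρ₁) (h1 : ρ₁ ≤ ρ₀) (h2 : h ≤ h') :
    lev r ρ₀ h ⊆ lev r ρ₁ h' := by
  rintro w ⟨a1, a2, a3, a4⟩
  exact ⟨h1.trans a1, a2.trans (inv_anti₀ h0 h1),
    (Real.exp_le_exp.2 (by linarith)).trans a3, a4.trans (Real.exp_le_exp.2 h2)⟩

theorem second (hvit : St_vit) (hld : St_ld) (haff : St_aff) {r g : ℂ → ℂ} {y : ℂ}
    {ρ₀ ε d B c : ℝ} (hG : Good r g y ρ₀ ε d B c) {c₂ CA : ℝ} (hc₂ : 0 < c₂) (hCA : 0 ≤ CA) :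
    ∃ C : ℝ, 0 < C ∧ ∃ q₀ : ℝ, ∀ (n : ℕ) (q : ℝ), 1 ≤ n → q₀ ≤ q → 1 ≤ q → q ^ 8 = n →
      2 * Real.log ρ₀⁻¹ / n ≤ ε →
      volume (lev r (ρ₀ / 2) ((2 * Real.log ρ₀⁻¹ + 1) / n)) ≤ ENNReal.ofReal (CA / q ^ 7) →
      ∀ (x₀ : ℂ) (k : ℕ) (G' : ℂ → ℂ) (ρ : ℝ), 0 < ρ →
      (∀ x ∈ closedBall x₀ (10 * ρ), HasDerivAt (fun t => orb r n t k) (G' x) x ∧
        ‖G' x - G' x₀‖ ≤ ‖G' x₀‖ / 10) → c₂ ≤ ‖G' x₀‖ * ρ → c₂ * q ^ 4 ≤ ‖G' x₀‖ →
      volume (Und r n ρ₀ ∩ closedBall x₀ (5 * ρ)) ≤ ENNReal.ofReal (C / q ^ 10 * ρ ^ 2) := by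
  have hρ := hG.hρ
  have hρ1 := hG.hρ1
  have hd := hG.hd
  have hc := hG.hc
  have hB := hG.hB
  have hB0 : 0 < B := lt_of_lt_of_le one_pos hB
  obtain ⟨c₆, hc₆0, hc₆a, hc₆b, hc₆c, hc₆d, hc₆e, hc₆f⟩ : ∃ c₆ : ℝ, 0 < c₆ ∧ c₆ ≤ d / 10 ∧
      c₆ ≤ c / (1000 * B) ∧ c₆ ≤ c₂ * ρ₀ / 10 ∧ c₆ ≤ 1 / (1250 * B) ∧ c₆ ≤ c₂ ∧ c₆ ≤ ρ₀ / 4 :=
    ⟨min (d / 10) (min (c / (1000 * B)) (min (c₂ * ρ₀ / 10) (min (1 / (1250 * B))
      (min c₂ (ρ₀ / 4))))), by positivity, min_le_left _ _,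
      (min_le_right _ _).trans (min_le_left _ _),
      (min_le_right _ _).trans ((min_le_right _ _).trans (min_le_left _ _)),
      (min_le_right _ _).trans ((min_le_right _ _).trans ((min_le_right _ _).trans
        (min_le_left _ _))),
      (min_le_right _ _).trans ((min_le_right _ _).trans ((min_le_right _ _).trans
        ((min_le_right _ _).trans (min_le_left _ _)))),
      (min_le_right _ _).trans ((min_le_right _ _).trans ((min_le_right _ _).trans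
        ((min_le_right _ _).trans (min_le_right _ _))))⟩
  obtain ⟨Cb, hCb⟩ : ∃ Cb : ℝ, Cb = 16 * CA / (ρ₀ * c * c₆) ^ 2 := ⟨_, rfl⟩
  have hCb0 : 0 ≤ Cb := by rw [hCb]; positivity
  have hpi := Real.pi_gt_three
  refine ⟨4 * Real.pi / c₂ ^ 2 + 4 / c₂ ^ 2 * CA * Cb, by positivity, 400 / (ρ₀ * c * c₂), ?_⟩
  intro n q hn1 hq₀ hq1 hqn hLε hvol x₀ k G' ρ hρpos hd1 hκρ hκq
  have hn0 : (0 : ℝ) < n := by exact_mod_cast hn1
  have hq0 : 0 < q := by linarith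
  obtain ⟨κ, hκdef⟩ : ∃ κ : ℝ, κ = ‖G' x₀‖ := ⟨_, rfl⟩
  rw [← hκdef] at hκρ hκq
  have hκ0 : 0 < κ := lt_of_lt_of_le (by positivity) hκq
  have hκc₂ : c₂ ≤ κ := by
    refine le_trans ?_ hκq
    have : (1 : ℝ) ≤ q ^ 4 := one_le_pow₀ hq1
    nlinarith
  have hG'0 : G' x₀ ≠ 0 := by
    rw [← norm_pos_iff, ← hκdef]; exact hκ0
  have hκi : 4 / κ ^ 2 ≤ 4 / c₂ ^ 2 * ρ ^ 2 := by
    rw [div_mul_eq_mul_div, div_le_div_iff₀ (by positivity) (by positivity)]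
    have : c₂ ^ 2 ≤ (κ * ρ) ^ 2 := by gcongr
    nlinarith
  have hsub510 : closedBall x₀ (5 * ρ) ⊆ closedBall x₀ (10 * ρ) :=
    closedBall_subset_closedBall (by linarith)
  -- part a
  have hA := (haff (fun t => orb r n t k) G' x₀ (5 * ρ) (by positivity) hG'0 (fun x hx =>
    ⟨(hd1 x (hsub510 hx)).1, (hd1 x (hsub510 hx)).2.trans (by linarith [norm_nonneg (G' x₀)])⟩)).1
    (closedBall y (1 / q ^ 5))
  rw [← hκdef, vol_ball y (by positivity), ← ENNReal.ofReal_mul (by positivity)] at hA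
  have hA' : volume (closedBall x₀ (5 * ρ) ∩ (fun t => orb r n t k) ⁻¹' closedBall y (1 / q ^ 5)) ≤
      ENNReal.ofReal (4 * Real.pi / c₂ ^ 2 / q ^ 10 * ρ ^ 2) := by
    refine hA.trans (ENNReal.ofReal_le_ofReal ?_)
    calc 4 / κ ^ 2 * (Real.pi * (1 / q ^ 5) ^ 2) ≤
          4 / c₂ ^ 2 * ρ ^ 2 * (Real.pi * (1 / q ^ 5) ^ 2) := by gcongr
      _ = _ := by field_simp
  -- part b
  obtain ⟨X, hX⟩ : ∃ X : Set ℂ, X = {x | x ∈ Und r n ρ₀ ∧ x ∈ closedBall x₀ (5 * ρ) ∧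
      1 / q ^ 5 ≤ ‖orb r n x k - y‖} := ⟨_, rfl⟩
  obtain ⟨ρ₂, hρ₂⟩ : ∃ ρ₂ : ℂ → ℝ, ρ₂ = fun x => c₆ / (κ * (n * ‖orb r n x k - y‖ * q ^ 2)) :=
    ⟨_, rfl⟩
  have hlevsub : lev r ρ₀ (2 * Real.log ρ₀⁻¹ / n) ⊆
      lev r (ρ₀ / 2) ((2 * Real.log ρ₀⁻¹ + 1) / n) :=
    lev_mono (by positivity) (by linarith) (by
      apply div_le_div_of_nonneg_right _ hn0.le; linarith)
  -- facts about the points of X
  have hfacts : ∀ x ∈ X, ∃ δ : ℝ, δ = ‖orb r n x k - y‖ ∧ 0 < δ ∧ ρ₂ x * κ = c₆ / (n * δ * q ^ 2) ∧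
      1 / (n * δ * q ^ 2) ≤ δ ∧ 1 / (n * δ * q ^ 2) ≤ 1 ∧ q ^ 3 ≤ n * δ ∧ 0 < ρ₂ x := by
    intro x hx
    rw [hX] at hx
    obtain ⟨-, -, hx3⟩ := hx
    refine ⟨‖orb r n x k - y‖, rfl, ?_⟩
    obtain ⟨δ, hδ⟩ : ∃ δ : ℝ, δ = ‖orb r n x k - y‖ := ⟨_, rfl⟩
    have hρ₂x : ρ₂ x = c₆ / (κ * (n * δ * q ^ 2)) := by rw [hρ₂, hδ]
    rw [← hδ] at hx3 ⊢
    have hδ0 : 0 < δ := lt_of_lt_of_le (by positivity) hx3
    have h3 : q ^ 3 ≤ n * δ := by
      rw [← hqn]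
      calc q ^ 3 = q ^ 8 * (1 / q ^ 5) := by field_simp
        _ ≤ _ := by gcongr
    have hq3 : (1 : ℝ) ≤ q ^ 3 := one_le_pow₀ hq1
    have hq2 : (1 : ℝ) ≤ q ^ 2 := one_le_pow₀ hq1
    refine ⟨hδ0, ?_, ?_, ?_, h3, ?_⟩
    · rw [hρ₂x]; field_simp
    · rw [div_le_iff₀ (by positivity)]
      calc (1 : ℝ) = q ^ 8 * (1 / q ^ 5) * (1 / q ^ 5) * q ^ 2 := by field_simp
        _ ≤ q ^ 8 * δ * δ * q ^ 2 := by gcongr
        _ = δ * (n * δ * q ^ 2) := by rw [hqn]; ring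
    · rw [div_le_one (by positivity)]
      nlinarith
    · rw [hρ₂x]; positivity
  have hB' : volume (Und r n ρ₀ ∩ X) ≤
      (ENNReal.ofReal (Cb / q ^ 3) • (volume : Measure ℂ)) (⋃ x ∈ X, closedBall x (ρ₂ x)) := by
    refine hvit _ X (Und r n ρ₀) ρ₂ ρ ?_ ?_
    · intro x hx
      obtain ⟨δ, hδ, hδ0, f1, f2, f3, f4, f5⟩ := hfacts x hx
      refine ⟨f5, ?_⟩
      have : ρ₂ x * κ ≤ ρ * κ := by
        rw [f1, mul_comm ρ κ]
        refine le_trans ?_ (hc₆e.trans hκρ)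
        rw [div_eq_mul_one_div]
        calc c₆ * (1 / (n * δ * q ^ 2)) ≤ c₆ * 1 := by gcongr
          _ = c₆ := mul_one _
      exact le_of_mul_le_mul_right this hκ0
    · intro x hx
      obtain ⟨δ, hδ, hδ0, f1, f2, f3, f4, f5⟩ := hfacts x hx
      have hx' := hx
      rw [hX] at hx'
      obtain ⟨hxU, hxb, -⟩ := hx'
      obtain ⟨R, hR⟩ : ∃ R : ℝ, R = 5 * ρ₂ x := ⟨_, rfl⟩
      have hR0 : 0 < R := by rw [hR]; positivity
      have hκR : κ * R = 5 * (c₆ * (1 / (n * δ * q ^ 2))) := by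
        rw [hR, ← div_eq_mul_one_div, ← f1]; ring
      have hκR1 : κ * R ≤ 5 * c₆ := by
        rw [hκR]
        calc 5 * (c₆ * (1 / (n * δ * q ^ 2))) ≤ 5 * (c₆ * 1) := by gcongr
          _ = _ := by ring
      have hκR2 : κ * R ≤ 5 * c₆ * δ := by
        rw [hκR]
        calc 5 * (c₆ * (1 / (n * δ * q ^ 2))) ≤ 5 * (c₆ * δ) := by gcongr
          _ = _ := by ring
      have hRρ : R ≤ 5 * ρ := by
        have : κ * R ≤ κ * (5 * ρ) := by
          refine hκR1.trans ?_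
          linarith
        exact le_of_mul_le_mul_left this hκ0
      have hRsub : closedBall x R ⊆ closedBall x₀ (10 * ρ) := by
        refine closedBall_subset_closedBall' ?_
        rw [mem_closedBall] at hxb
        linarith
      have hnext := next_level hld hG hn1 hLε (k := k) (x₁ := x) (und_lev hρ hn1 hxU k)
        (G' := G') (E := G' x₀) (R := R) hR0 (fun z hz => hd1 z (hRsub hz))
        (by rw [← hκdef]; linarith)
        (by
          rw [← hκdef, ← hδ]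
          calc B * (2 * κ * R) = 2 * B * (κ * R) := by ring
            _ ≤ 2 * B * (5 * (c / (1000 * B)) * δ) := by
                refine mul_le_mul_of_nonneg_left (hκR2.trans ?_) (by positivity)
                gcongr
            _ = c * δ / 100 := by field_simp; norm_num
            )
        (hxU 0).1
        (by
          have h7 : c₂ * R ≤ κ * R := by gcongr
          have h8 : c₂ * R ≤ c₂ * (ρ₀ / 2) := by linarith
          exact le_of_mul_le_mul_left h8 hc₂)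
        (by
          rw [← hκdef, ← hδ]
          have hq7 : (400 / (ρ₀ * c * c₂)) ≤ q ^ 7 := hq₀.trans (le_self_pow₀ hq1 (by norm_num))
          calc 400 / ρ₀ = c * c₂ * (400 / (ρ₀ * c * c₂)) := by field_simp
            _ ≤ c * c₂ * q ^ 7 := by gcongr
            _ = c * (q ^ 3) * (c₂ * q ^ 4) := by ring
            _ ≤ c * (n * δ) * κ := by gcongr
            _ = n * c * δ * κ := by ring)
        (by
          rw [← hκdef, ← hδ]
          have hq2 : (1 : ℝ) ≤ q ^ 2 := one_le_pow₀ hq1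
          calc n * B * δ * κ * R = n * B * δ * (κ * R) := by ring
            _ = 5 * B * c₆ / q ^ 2 := by rw [hκR]; field_simp
            _ ≤ 5 * B * c₆ := div_le_self (by positivity) hq2
            _ ≤ 5 * B * (1 / (1250 * B)) := by gcongr
            _ = 1 / 250 := by field_simp; norm_num)
      obtain ⟨-, H', hH1, hH2⟩ := hnext
      rw [← hκdef, ← hδ] at hH2
      have hH'low : ρ₀ * (n * c * δ * κ) / 2 ≤ ‖H' x‖ := by
        refine le_trans ?_ hH2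
        have := (hxU (k + 1)).1
        gcongr
      have hH'pos : 0 < ‖H' x‖ := lt_of_lt_of_le (by positivity) hH'low
      have hvolH := (haff (fun t => orb r n t (k + 1)) H' x R hR0 (norm_pos_iff.1 hH'pos) hH1).1
        (lev r ρ₀ (2 * Real.log ρ₀⁻¹ / n))
      have hincl : Und r n ρ₀ ∩ closedBall x (5 * ρ₂ x) ⊆
          closedBall x R ∩ (fun t => orb r n t (k + 1)) ⁻¹' lev r ρ₀ (2 * Real.log ρ₀⁻¹ / n) := by
        rintro z ⟨hz1, hz2⟩
        rw [hR]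
        exact ⟨hz2, und_lev hρ hn1 hz1 (k + 1)⟩
      refine (measure_mono hincl).trans (hvolH.trans ?_)
      refine (mul_le_mul' le_rfl ((measure_mono hlevsub).trans hvol)).trans ?_
      rw [Measure.smul_apply, smul_eq_mul, vol_ball x f5.le, ← ENNReal.ofReal_mul (by positivity),
        ← ENNReal.ofReal_mul (by positivity)]
      apply ENNReal.ofReal_le_ofReal
      have e1 : ρ₀ * (n * c * δ * κ) / 2 = ρ₀ * c * c₆ / (2 * (ρ₂ x * q ^ 2)) := by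
        rw [eq_div_iff (by positivity)]
        have e2 : ρ₂ x = c₆ / (κ * (n * δ * q ^ 2)) := by rw [hρ₂, hδ]
        rw [e2]
        field_simp
      have e3 : 4 / ‖H' x‖ ^ 2 ≤ 4 / (ρ₀ * c * c₆ / (2 * (ρ₂ x * q ^ 2))) ^ 2 := by
        rw [← e1]; gcongr
      calc 4 / ‖H' x‖ ^ 2 * (CA / q ^ 7)
          ≤ 4 / (ρ₀ * c * c₆ / (2 * (ρ₂ x * q ^ 2))) ^ 2 * (CA / q ^ 7) := by gcongr
        _ = Cb / q ^ 3 * (ρ₂ x) ^ 2 := by rw [hCb]; field_simp; ring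
        _ ≤ Cb / q ^ 3 * (Real.pi * (ρ₂ x) ^ 2) := by
            gcongr
            nlinarith [sq_nonneg (ρ₂ x)]
  have hunion : (⋃ x ∈ X, closedBall x (ρ₂ x)) ⊆ closedBall x₀ (10 * ρ) ∩
      (fun t => orb r n t k) ⁻¹' lev r (ρ₀ / 2) ((2 * Real.log ρ₀⁻¹ + 1) / n) := by
    intro z hz
    rw [mem_iUnion₂] at hz
    obtain ⟨x, hx, hzx⟩ := hz
    obtain ⟨δ, hδ, hδ0, f1, f2, f3, f4, f5⟩ := hfacts x hx
    have hx' := hx
    rw [hX] at hx'
    obtain ⟨hxU, hxb, -⟩ := hx'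
    have hκρ₂1 : κ * ρ₂ x ≤ c₆ := by
      rw [mul_comm, f1, div_eq_mul_one_div]
      calc c₆ * (1 / (n * δ * q ^ 2)) ≤ c₆ * 1 := by gcongr
        _ = _ := mul_one _
    have hκρ₂2 : κ * ρ₂ x ≤ c₆ * δ := by
      rw [mul_comm, f1, div_eq_mul_one_div]
      gcongr
    have hρ₂ρ : ρ₂ x ≤ 5 * ρ := by
      have : κ * ρ₂ x ≤ κ * (5 * ρ) := by
        refine hκρ₂1.trans ?_
        nlinarith
      exact le_of_mul_le_mul_left this hκ0
    have hsub : closedBall x (ρ₂ x) ⊆ closedBall x₀ (10 * ρ) := by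
      refine closedBall_subset_closedBall' ?_
      rw [mem_closedBall] at hxb
      linarith
    refine ⟨hsub hzx, ?_⟩
    have hlip : ‖orb r n z k - orb r n x k‖ ≤ 2 * κ * ‖z - x‖ := by
      refine (convex_closedBall x (ρ₂ x)).norm_image_sub_le_of_norm_hasDerivWithin_le
        (f := fun t => orb r n t k) (f' := G')
        (fun w hw => (hd1 w (hsub hw)).1.hasDerivWithinAt) (fun w hw => ?_)
        (mem_closedBall_self f5.le) hzx
      calc ‖G' w‖ = ‖(G' w - G' x₀) + G' x₀‖ := by ring_nf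
        _ ≤ ‖G' w - G' x₀‖ + ‖G' x₀‖ := norm_add_le _ _
        _ ≤ ‖G' x₀‖ / 10 + ‖G' x₀‖ := by linarith [(hd1 w (hsub hw)).2]
        _ ≤ 2 * κ := by rw [hκdef]; linarith [norm_nonneg (G' x₀)]
    have hzn : ‖z - x‖ ≤ ρ₂ x := by rwa [mem_closedBall, dist_eq_norm] at hzx
    refine lev_ball hld hG hn1 hLε (und_lev hρ hn1 hxU k) (ρ := 2 * (κ * ρ₂ x)) (by positivity)
      (by linarith) (by linarith) ?_ ?_ ?_
    · rw [← hδ]
      have : 2 * c₆ ≤ 1 := by linarith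
      calc 2 * (κ * ρ₂ x) ≤ 2 * (c₆ * δ) := by gcongr
        _ = 2 * c₆ * δ := by ring
        _ ≤ 1 * δ := by gcongr
        _ = δ := one_mul _
    · rw [← hδ, mul_comm κ, f1]
      have hq2 : (1 : ℝ) ≤ q ^ 2 := one_le_pow₀ hq1
      calc 2 * B * δ * (2 * (c₆ / (n * δ * q ^ 2))) = 4 * B * c₆ / (n * q ^ 2) := by
            field_simp; norm_num
        _ ≤ 4 * B * c₆ / (n * 1) := by gcongr
        _ ≤ 4 * B * (1 / (1250 * B)) / (n * 1) := by gcongr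
        _ ≤ 1 / (4 * n) := by
            rw [div_le_div_iff₀ (by positivity) (by positivity)]
            field_simp
            norm_num
    · rw [mem_closedBall, dist_eq_norm]
      refine hlip.trans ?_
      calc 2 * κ * ‖z - x‖ ≤ 2 * κ * ρ₂ x := by gcongr
        _ = _ := by ring
  have hC := (haff (fun t => orb r n t k) G' x₀ (10 * ρ) (by positivity) hG'0 (fun x hx =>
    ⟨(hd1 x hx).1, (hd1 x hx).2.trans (by linarith [norm_nonneg (G' x₀)])⟩)).1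
    (lev r (ρ₀ / 2) ((2 * Real.log ρ₀⁻¹ + 1) / n))
  rw [← hκdef] at hC
  have hB'' : volume (Und r n ρ₀ ∩ X) ≤
      ENNReal.ofReal (4 / c₂ ^ 2 * CA * Cb / q ^ 10 * ρ ^ 2) := by
    refine hB'.trans ?_
    rw [Measure.smul_apply, smul_eq_mul]
    refine (mul_le_mul' le_rfl ((measure_mono hunion).trans (hC.trans
      (mul_le_mul' le_rfl hvol)))).trans ?_
    rw [← ENNReal.ofReal_mul (by positivity), ← ENNReal.ofReal_mul (by positivity)]
    apply ENNReal.ofReal_le_ofReal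
    calc Cb / q ^ 3 * (4 / κ ^ 2 * (CA / q ^ 7)) ≤
          Cb / q ^ 3 * (4 / c₂ ^ 2 * ρ ^ 2 * (CA / q ^ 7)) := by gcongr
      _ = _ := by field_simp
  have hcover : Und r n ρ₀ ∩ closedBall x₀ (5 * ρ) ⊆
      (closedBall x₀ (5 * ρ) ∩ (fun t => orb r n t k) ⁻¹' closedBall y (1 / q ^ 5)) ∪
      (Und r n ρ₀ ∩ X) := by
    rintro x ⟨hx1, hx2⟩
    by_cases hx : 1 / q ^ 5 ≤ ‖orb r n x k - y‖
    · right
      refine ⟨hx1, ?_⟩
      rw [hX]
      exact ⟨hx1, hx2, hx⟩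
    · left
      refine ⟨hx2, ?_⟩
      rw [mem_preimage, mem_closedBall, dist_eq_norm]
      exact (not_le.1 hx).le
  refine (measure_mono hcover).trans ((measure_union_le _ _).trans ?_)
  refine (add_le_add hA' hB'').trans ?_
  rw [← ENNReal.ofReal_add (by positivity) (by positivity)]
  apply ENNReal.ofReal_le_ofReal
  apply le_of_eq
  ring

end Pool.Agent.K3h20.CR
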