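import Pool.Agent.K3h20.CR.AN2

/-!
# Project CR: area of the undecided parameters, distance to the decided ones
-/

set_option autoImplicit false

open Set Filter Topology MeasureTheory Metric

namespace Pool.Agent.K3h20.CR

theorem exists_q {n : ℕ} (hn : 1 ≤ n) : ∃ q : ℝ, 1 ≤ q ∧ q ^ 8 = n ∧ Real.log n ≤ 8 * q := by
  have hn0 : (0 : ℝ) < n := by exact_mod_cast hn
  have hn1 : (1 : ℝ) ≤ n := by exact_mod_cast hn
  refine ⟨(n : ℝ) ^ (1 / 8 : ℝ), Real.one_le_rpow hn1 (by norm_num), ?_, ?_⟩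
  · rw [← Real.rpow_natCast, ← Real.rpow_mul hn0.le]
    norm_num
  · have h1 : Real.log ((n : ℝ) ^ (1 / 8 : ℝ)) = 1 / 8 * Real.log n := Real.log_rpow hn0 _
    have h2 := Real.log_le_sub_one_of_pos (Real.rpow_pos_of_pos hn0 (1 / 8 : ℝ))
    rw [h1] at h2
    linarith

theorem t_an (hvit : St_vit) (hld : St_ld) (haff : St_aff) (hlev : St_lev) (hnz : St_nz) :
    St_an := by
  intro r g y a ρ₀ ε d B c hN hG
  have hρ := hG.hρ
  have hρ1 := hG.hρ1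
  have hε := hG.hε
  have hinv : 1 < ρ₀⁻¹ := (one_lt_inv₀ hρ).2 hρ1
  have hlog : 0 < Real.log ρ₀⁻¹ := Real.log_pos hinv
  obtain ⟨C₁, c₂, hC₁, hc₂, n₁, hkl⟩ := t_kl hld hnz r g y a ρ₀ ε d B c hN hG
  obtain ⟨CL, hCL, n₂, hlev⟩ := hlev r g y ρ₀ ε d B c hG (2 * Real.log ρ₀⁻¹ + 1) (by positivity)
  obtain ⟨C, hC, q₀, hsec⟩ := second hvit hld haff hG (CA := 8 * CL) hc₂ (by positivity)
  obtain ⟨n₃, hn₃⟩ := exists_nat_ge (2 * Real.log ρ₀⁻¹ / ε)
  obtain ⟨n₄, hn₄⟩ := exists_nat_ge ((max q₀ 1) ^ 8)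
  have hpi := Real.pi_gt_three
  refine ⟨C * (8 * CL) + Real.pi * C₁ ^ 2, by positivity,
    max (max (max n₁ n₂) (max n₃ n₄)) 1, ?_⟩
  intro n hn
  have hn1 : 1 ≤ n := (le_max_right _ _).trans hn
  have hn' := (le_max_left _ _).trans hn
  have hnn₁ : n₁ ≤ n := (le_max_left _ _).trans ((le_max_left _ _).trans hn')
  have hnn₂ : n₂ ≤ n := (le_max_right _ _).trans ((le_max_left _ _).trans hn')
  have hnn₃ : n₃ ≤ n := (le_max_left _ _).trans ((le_max_right _ _).trans hn')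
  have hnn₄ : n₄ ≤ n := (le_max_right _ _).trans ((le_max_right _ _).trans hn')
  have hn0 : (0 : ℝ) < n := by exact_mod_cast hn1
  obtain ⟨q, hq1, hqn, hqlog⟩ := exists_q hn1
  have hq0 : 0 < q := by linarith
  have hqq₀ : q₀ ≤ q := by
    refine (le_max_left q₀ 1).trans ?_
    have h1 : (max q₀ 1) ^ 8 ≤ q ^ 8 := by
      rw [hqn]; exact hn₄.trans (by exact_mod_cast hnn₄)
    exact le_of_pow_le_pow_left₀ (by norm_num) hq0.le h1
  have hLε : 2 * Real.log ρ₀⁻¹ / n ≤ ε := by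
    rw [div_le_iff₀ hn0]
    have h1 : 2 * Real.log ρ₀⁻¹ / ε ≤ n := hn₃.trans (by exact_mod_cast hnn₃)
    rw [div_le_iff₀ hε] at h1
    linarith
  have hvol : volume (lev r (ρ₀ / 2) ((2 * Real.log ρ₀⁻¹ + 1) / n)) ≤
      ENNReal.ofReal (8 * CL / q ^ 7) := by
    refine (hlev n hnn₂).trans (ENNReal.ofReal_le_ofReal ?_)
    calc CL * (Real.log n / n) ≤ CL * (8 * q / q ^ 8) := by rw [hqn]; gcongr
      _ = 8 * CL / q ^ 7 := by field_simp
  have hsqrt : Real.sqrt n = q ^ 4 := by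
    rw [← hqn, show q ^ 8 = (q ^ 4) ^ 2 by ring]
    exact Real.sqrt_sq (by positivity)
  obtain ⟨X, hX⟩ : ∃ X : Set ℂ, X = {x | x ∈ Und r n ρ₀ ∧ C₁ / n ≤ ‖x - y‖} := ⟨_, rfl⟩
  have hpt : ∀ x ∈ X, ∃ ρ : ℝ, 0 < ρ ∧ ρ ≤ 1 ∧
      closedBall x ρ ⊆ lev r (ρ₀ / 2) ((2 * Real.log ρ₀⁻¹ + 1) / n) ∧
      volume (Und r n ρ₀ ∩ closedBall x (5 * ρ)) ≤ ENNReal.ofReal (C / q ^ 10 * ρ ^ 2) := by
    intro x hx
    rw [hX] at hx
    obtain ⟨k, G', ρ, h1, h2, h3, h4, h5, h6⟩ := hkl n hnn₁ x hx.1 hx.2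
    rw [hsqrt] at h6
    exact ⟨ρ, h1, h2, h3, hsec n q hn1 hqq₀ hq1 hqn hLε hvol x k G' ρ h1 h4 h5 h6⟩
  choose! ρ hρ1 hρ2 hρ3 hρ4 using hpt
  have hV := hvit (ENNReal.ofReal (C / q ^ 10) • (volume : Measure ℂ)) X (Und r n ρ₀) ρ 1
    (fun x hx => ⟨hρ1 x hx, hρ2 x hx⟩) (fun x hx => by
      refine (hρ4 x hx).trans ?_
      rw [Measure.smul_apply, smul_eq_mul, vol_ball x (hρ1 x hx).le,
        ← ENNReal.ofReal_mul (by positivity)]
      apply ENNReal.ofReal_le_ofReal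
      apply mul_le_mul_of_nonneg_left _ (by positivity)
      nlinarith [sq_nonneg (ρ x)])
  have hunion : (⋃ x ∈ X, closedBall x (ρ x)) ⊆
      lev r (ρ₀ / 2) ((2 * Real.log ρ₀⁻¹ + 1) / n) := iUnion₂_subset hρ3
  have h1 : volume (Und r n ρ₀ ∩ X) ≤ ENNReal.ofReal (C * (8 * CL) / n ^ 2) := by
    refine hV.trans ?_
    rw [Measure.smul_apply, smul_eq_mul]
    refine (mul_le_mul' le_rfl ((measure_mono hunion).trans hvol)).trans ?_
    rw [← ENNReal.ofReal_mul (by positivity)]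
    apply ENNReal.ofReal_le_ofReal
    rw [← hqn]
    calc C / q ^ 10 * (8 * CL / q ^ 7) = C * (8 * CL) / q ^ 17 := by field_simp
      _ ≤ C * (8 * CL) / q ^ 16 := by
          gcongr
          norm_num
      _ = C * (8 * CL) / (q ^ 8) ^ 2 := by rw [← pow_mul]
  have hcover : Und r n ρ₀ ⊆ (Und r n ρ₀ ∩ X) ∪ closedBall y (C₁ / n) := by
    intro x hx
    by_cases h : C₁ / n ≤ ‖x - y‖
    · left
      refine ⟨hx, ?_⟩
      rw [hX]
      exact ⟨hx, h⟩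
    · right
      rw [mem_closedBall, dist_eq_norm]
      exact (not_le.1 h).le
  refine (measure_mono hcover).trans ((measure_union_le _ _).trans ?_)
  rw [vol_ball y (by positivity)]
  refine (add_le_add h1 le_rfl).trans ?_
  rw [← ENNReal.ofReal_add (by positivity) (by positivity)]
  apply ENNReal.ofReal_le_ofReal
  apply le_of_eq
  field_simp

theorem t_di (hld : St_ld) (haff : St_aff) (hout : St_out) (hnz : St_nz) : St_di := by
  intro r g y a ρ₀ ε d B c hN hG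
  have hρ := hG.hρ
  have hρ1 := hG.hρ1
  have hinv : 1 < ρ₀⁻¹ := (one_lt_inv₀ hρ).2 hρ1
  have hlog : 0 < Real.log ρ₀⁻¹ := Real.log_pos hinv
  obtain ⟨C₁, c₂, hC₁, hc₂, n₁, hkl⟩ := t_kl hld hnz r g y a ρ₀ ε d B c hN hG
  obtain ⟨Co, hCo, n₂, hout⟩ := hout r g y ρ₀ ε d B c hG (2 * Real.log ρ₀⁻¹) (by positivity)
  obtain ⟨n₃, hn₃⟩ := exists_nat_ge ((Co / (5 * c₂)) ^ 2)
  refine ⟨2 * C₁ + 2 * Co / c₂, by positivity, max (max n₁ n₂) (max n₃ 1), ?_⟩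
  intro n hn x
  have hnn₁ : n₁ ≤ n := (le_max_left _ _).trans ((le_max_left _ _).trans hn)
  have hnn₂ : n₂ ≤ n := (le_max_right _ _).trans ((le_max_left _ _).trans hn)
  have hnn₃ : n₃ ≤ n := (le_max_left _ _).trans ((le_max_right _ _).trans hn)
  have hn1 : 1 ≤ n := (le_max_right _ _).trans ((le_max_right _ _).trans hn)
  have hn0 : (0 : ℝ) < n := by exact_mod_cast hn1
  have hsq : 0 < Real.sqrt n := Real.sqrt_pos.2 hn0
  have hsq2 : Real.sqrt n * Real.sqrt n = n := Real.mul_self_sqrt hn0.le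
  have hsqn : Co / (5 * c₂) ≤ Real.sqrt n := by
    apply Real.le_sqrt_of_sq_le
    exact hn₃.trans (by exact_mod_cast hnn₃)
  -- far from `y`
  have hfar : ∀ z : ℂ, C₁ / n ≤ ‖z - y‖ → ∃ z' : ℂ, ‖z' - z‖ ≤ 2 * Co / c₂ / n ∧
      z' ∉ Und r n ρ₀ := by
    intro z hz
    by_cases hzU : z ∈ Und r n ρ₀
    · obtain ⟨k, G', ρ, h1, h2, h3, h4, h5, h6⟩ := hkl n hnn₁ z hzU hz
      have hκ0 : 0 < ‖G' z‖ := lt_of_lt_of_le (by positivity) h6
      obtain ⟨R, hR⟩ : ∃ R : ℝ, R = min (10 * ρ) (2 * Co / c₂ / n) := ⟨_, rfl⟩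
      have hR0 : 0 < R := by rw [hR]; positivity
      have hsub : closedBall z R ⊆ closedBall z (10 * ρ) :=
        closedBall_subset_closedBall (by rw [hR]; exact min_le_left _ _)
      have himg := (haff (fun t => orb r n t k) G' z R hR0 (norm_pos_iff.1 hκ0) (fun x hx =>
        ⟨(h4 x (hsub hx)).1, (h4 x (hsub hx)).2.trans (by linarith)⟩)).2.2
      obtain ⟨ζ, hζ1, hζ2⟩ := hout n hnn₂ (orb r n z k)
      have hζ : ζ ∈ closedBall (orb r n z k) (‖G' z‖ * R / 2) := by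
        rw [mem_closedBall, dist_eq_norm]
        refine hζ1.trans ?_
        rcases min_choice (10 * ρ) (2 * Co / c₂ / n) with h | h
        · rw [hR, h, div_le_iff₀ hsq]
          have h7 : Co ≤ 5 * c₂ * Real.sqrt n := by
            rw [div_le_iff₀ (by positivity)] at hsqn
            linarith
          calc Co ≤ 5 * c₂ * Real.sqrt n := h7
            _ ≤ 5 * (‖G' z‖ * ρ) * Real.sqrt n := by gcongr
            _ = ‖G' z‖ * (10 * ρ) / 2 * Real.sqrt n := by ring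
        · rw [hR, h]
          calc Co / Real.sqrt n = c₂ * Real.sqrt n *
                (2 * Co / c₂ / (Real.sqrt n * Real.sqrt n)) / 2 := by field_simp
            _ = c₂ * Real.sqrt n * (2 * Co / c₂ / n) / 2 := by rw [hsq2]
            _ ≤ ‖G' z‖ * (2 * Co / c₂ / n) / 2 := by gcongr
      obtain ⟨z', hz'1, hz'2⟩ := himg hζ
      refine ⟨z', ?_, fun hU => hζ2 ?_⟩
      · rw [mem_closedBall, dist_eq_norm] at hz'1
        exact hz'1.trans (by rw [hR]; exact min_le_right _ _)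
      · rw [← hz'2]
        exact und_lev hρ hn1 hU k
    · exact ⟨z, by rw [sub_self, norm_zero]; positivity, hzU⟩
  by_cases hx : C₁ / n ≤ ‖x - y‖
  · obtain ⟨x', h1, h2⟩ := hfar x hx
    refine ⟨x', h1.trans ?_, h2⟩
    rw [add_div]
    have : 0 ≤ 2 * C₁ / n := by positivity
    linarith
  · have hC₁n : 0 < C₁ / n := by positivity
    have e1 : ‖(y + ((C₁ / n : ℝ) : ℂ)) - y‖ = C₁ / n := by
      rw [add_sub_cancel_left, Complex.norm_real, Real.norm_eq_abs, abs_of_pos hC₁n]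
    obtain ⟨x', h1, h2⟩ := hfar (y + ((C₁ / n : ℝ) : ℂ)) e1.ge
    refine ⟨x', ?_, h2⟩
    have h3 : ‖x' - x‖ ≤ ‖x' - (y + ((C₁ / n : ℝ) : ℂ))‖ +
        (‖(y + ((C₁ / n : ℝ) : ℂ)) - y‖ + ‖x - y‖) := by
      calc ‖x' - x‖ = ‖(x' - (y + ((C₁ / n : ℝ) : ℂ))) +
            (((y + ((C₁ / n : ℝ) : ℂ)) - y) - (x - y))‖ := by ring_nf
        _ ≤ _ := (norm_add_le _ _).trans (by gcongr; exact norm_sub_le _ _)
    rw [e1] at h3
    rw [add_div, mul_div_assoc]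
    linarith [(not_le.1 hx).le]

end Pool.Agent.K3h20.CR
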