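import Pool.Agent.K3h20.CR.AN3

/-!
# Project CR2: area of the undecided parameters away from the critical point
-/

set_option autoImplicit false

open Set Filter Topology MeasureTheory Metric

namespace Pool.Agent.K3h20.CR

theorem an_far (hvit : St_vit) (hld : St_ld) (haff : St_aff) (hlev : St_lev) (hnz : St_nz)
    {r g : ℂ → ℂ} {y a : ℂ} {ρ₀ ε d B c : ℝ} (hN : Near r g y a d B)
    (hG : Good r g y ρ₀ ε d B c) :
    ∃ C₁ C : ℝ, 0 < C₁ ∧ 0 < C ∧ ∃ n₀ : ℕ, ∀ (n : ℕ) (q : ℝ), n₀ ≤ n → 1 ≤ q → q ^ 8 = n →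
      Real.log n ≤ 8 * q →
      volume (Und r n ρ₀ ∩ {x | C₁ / n ≤ ‖x - y‖}) ≤ ENNReal.ofReal (C / (n ^ 2 * q)) := by
  have hρ := hG.hρ
  have hρ1 := hG.hρ1
  have hε := hG.hε
  have hinv : 1 < ρ₀⁻¹ := (one_lt_inv₀ hρ).2 hρ1
  have hlog : 0 < Real.log ρ₀⁻¹ := Real.log_pos hinv
  obtain ⟨C₁, c₂, hC₁, hc₂, n₁, hkl⟩ := t_kl hld hnz r g y a ρ₀ ε d B c hN hG
  obtain ⟨CL, hCL, n₂, hlev⟩ := hlev r g y ρ₀ ε d B c hG (2 * Real.log ρ₀⁻¹ + 1) (by positivity)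
  obtain ⟨C, hC, q₀, hsec⟩ := second hvit hld haff hG (CA := 8 * CL) hc₂ (by positivity)
  obtain ⟨n₃, hn₃⟩ := exists_nat_ge (2 * Real.log ρ₀⁻¹ / ε)
  obtain ⟨n₄, hn₄⟩ := exists_nat_ge ((max q₀ 1) ^ 8)
  have hpi := Real.pi_gt_three
  refine ⟨C₁, C * (8 * CL), hC₁, by positivity, max (max (max n₁ n₂) (max n₃ n₄)) 1, ?_⟩
  intro n q hn hq1 hqn hqlog
  have hn1 : 1 ≤ n := (le_max_right _ _).trans hn
  have hn' := (le_max_left _ _).trans hn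
  have hnn₁ : n₁ ≤ n := (le_max_left _ _).trans ((le_max_left _ _).trans hn')
  have hnn₂ : n₂ ≤ n := (le_max_right _ _).trans ((le_max_left _ _).trans hn')
  have hnn₃ : n₃ ≤ n := (le_max_left _ _).trans ((le_max_right _ _).trans hn')
  have hnn₄ : n₄ ≤ n := (le_max_right _ _).trans ((le_max_right _ _).trans hn')
  have hn0 : (0 : ℝ) < n := by exact_mod_cast hn1
  have hq0 : 0 < q := by linarith
  have hqq₀ : q₀ ≤ q := by
    refine (le_max_left q₀ 1).trans ?_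
    have h1 : (max q₀ 1) ^ 8 ≤ q ^ 8 := by
      rw [hqn]; exact hn₄.trans (by exact_mod_cast hnn₄)
    exact le_of_pow_le_pow_left₀ (by norm_num) hq0.le h1
  have hLε : 2 * Real.log ρ₀⁻¹ / n ≤ ε := by
    rw [div_le_iff₀ hn0]
    have h1 : 2 * Real.log ρ₀⁻¹ / ε ≤ n := hn₃.trans (by exact_mod_cast hnn₃)
    rw [div_le_iff₀ hε] at h1
    linarith
  have hvol : volume (lev r (ρ₀ / 2) ((2 * Real.log ρ₀⁻¹ + 1) / n)) ≤
      ENNReal.ofReal (8 * CL / q ^ 7) := by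
    refine (hlev n hnn₂).trans (ENNReal.ofReal_le_ofReal ?_)
    calc CL * (Real.log n / n) ≤ CL * (8 * q / q ^ 8) := by rw [hqn]; gcongr
      _ = 8 * CL / q ^ 7 := by field_simp
  have hsqrt : Real.sqrt n = q ^ 4 := by
    rw [← hqn, show q ^ 8 = (q ^ 4) ^ 2 by ring]
    exact Real.sqrt_sq (by positivity)
  obtain ⟨X, hX⟩ : ∃ X : Set ℂ, X = {x | x ∈ Und r n ρ₀ ∧ C₁ / n ≤ ‖x - y‖} := ⟨_, rfl⟩
  have hpt : ∀ x ∈ X, ∃ ρ : ℝ, 0 < ρ ∧ ρ ≤ 1 ∧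
      closedBall x ρ ⊆ lev r (ρ₀ / 2) ((2 * Real.log ρ₀⁻¹ + 1) / n) ∧
      volume (Und r n ρ₀ ∩ closedBall x (5 * ρ)) ≤ ENNReal.ofReal (C / q ^ 10 * ρ ^ 2) := by
    intro x hx
    rw [hX] at hx
    obtain ⟨k, G', ρ, h1, h2, h3, h4, h5, h6⟩ := hkl n hnn₁ x hx.1 hx.2
    rw [hsqrt] at h6
    exact ⟨ρ, h1, h2, h3, hsec n q hn1 hqq₀ hq1 hqn hLε hvol x k G' ρ h1 h4 h5 h6⟩
  choose! ρ hρ1 hρ2 hρ3 hρ4 using hpt
  have hV := hvit (ENNReal.ofReal (C / q ^ 10) • (volume : Measure ℂ)) X (Und r n ρ₀) ρ 1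
    (fun x hx => ⟨hρ1 x hx, hρ2 x hx⟩) (fun x hx => by
      refine (hρ4 x hx).trans ?_
      rw [Measure.smul_apply, smul_eq_mul, vol_ball x (hρ1 x hx).le,
        ← ENNReal.ofReal_mul (by positivity)]
      apply ENNReal.ofReal_le_ofReal
      apply mul_le_mul_of_nonneg_left _ (by positivity)
      nlinarith [sq_nonneg (ρ x)])
  have hunion : (⋃ x ∈ X, closedBall x (ρ x)) ⊆
      lev r (ρ₀ / 2) ((2 * Real.log ρ₀⁻¹ + 1) / n) := iUnion₂_subset hρ3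
  have hsub : Und r n ρ₀ ∩ {x | C₁ / n ≤ ‖x - y‖} ⊆ Und r n ρ₀ ∩ X := by
    rintro x ⟨hx1, hx2⟩
    refine ⟨hx1, ?_⟩
    rw [hX]
    exact ⟨hx1, hx2⟩
  refine (measure_mono hsub).trans (hV.trans ?_)
  rw [Measure.smul_apply, smul_eq_mul]
  refine (mul_le_mul' le_rfl ((measure_mono hunion).trans hvol)).trans ?_
  rw [← ENNReal.ofReal_mul (by positivity)]
  apply ENNReal.ofReal_le_ofReal
  apply le_of_eq
  rw [← hqn]
  field_simp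

end Pool.Agent.K3h20.CR
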