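import Pool.Agent.K3h20.CR.Stm

/-!
# Project CR2 (MP_8f2e1c_an, owner helper20): the area of the non-hyperbolic scalings of
`s R(z ^ n)` is asymptotically at most a constant times the area of the non-hyperbolic parameters
of the quadratic family, divided by `n ^ 3`.
-/

set_option autoImplicit false

open Set Filter Topology MeasureTheory Metric

namespace Pool.Agent.K3h20.CR

/-- the orbit of the critical value of `z ^ 2 + c` -/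
def qo (c : ℂ) : ℕ → ℂ
  | 0 => c
  | j + 1 => qo c j ^ 2 + c

/-- the critical point of `z ^ 2 + c` escapes -/
def QEsc (c : ℂ) : Prop := Tendsto (fun k : ℕ => ‖(fun z : ℂ => z ^ 2 + c)^[k] 0‖) atTop atTop

/-- the critical point of `z ^ 2 + c` is attracted by a finite attracting cycle -/
def QAtt (c : ℂ) : Prop := ∃ (z : ℂ) (p : ℕ), 0 < p ∧ (fun z : ℂ => z ^ 2 + c)^[p] z = z ∧
  ‖deriv (fun z : ℂ => z ^ 2 + c)^[p] z‖ < 1 ∧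
  Tendsto (fun k : ℕ => (fun z : ℂ => z ^ 2 + c)^[p * k] 0) atTop (𝓝 z)

/-- The orbit of `x` under `w ↦ x * r w ^ n` meets no zero of `r` before it enters a disc which is
contracted into itself by an iterate (and on which the iterates before meet no zero of `r`). -/
def Att (r : ℂ → ℂ) (n : ℕ) (x : ℂ) : Prop :=
  ∃ (m p : ℕ) (w₀ : ℂ) (δ q : ℝ), 0 < p ∧ 0 < δ ∧ 0 ≤ q ∧ q < 1 ∧
    (∀ j < m, r (orb r n x j) ≠ 0) ∧ orb r n x m ∈ closedBall w₀ δ ∧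
    (∀ w ∈ closedBall w₀ δ, ∀ i < p, r ((fun w : ℂ => x * r w ^ n)^[i] w) ≠ 0) ∧
    (∀ w ∈ closedBall w₀ δ, (fun w : ℂ => x * r w ^ n)^[p] w ∈ ball w₀ δ) ∧
    (∀ w ∈ closedBall w₀ δ, ∀ w' ∈ closedBall w₀ δ,
      ‖(fun w : ℂ => x * r w ^ n)^[p] w - (fun w : ℂ => x * r w ^ n)^[p] w'‖ ≤ q * ‖w - w'‖)

/-- STEP: one step in the rescaled coordinates `w = y + U / (n a y)`, `x = y + c / (n a y)`. -/
def St_step : Prop := ∀ (r g : ℂ → ℂ) (y a : ℂ) (d B : ℝ), Near r g y a d B →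
  ∀ K η : ℝ, 0 < η → ∃ n₀ : ℕ, ∀ n : ℕ, n₀ ≤ n → ∀ c U : ℂ, ‖c‖ ≤ K → ‖U‖ ≤ K →
  ‖U / (n * (a * y))‖ ≤ d ∧ r (y + U / (n * (a * y))) ≠ 0 ∧
  ‖n * (a * y) * ((y + c / (n * (a * y))) * r (y + U / (n * (a * y))) ^ n - y) -
    (U ^ 2 + c)‖ ≤ η ∧
  ‖(y + c / (n * (a * y))) * (n * r (y + U / (n * (a * y))) ^ n * g (y + U / (n * (a * y)))) -
    2 * U‖ ≤ η ∧
  ‖r (y + U / (n * (a * y))) ^ n - 1‖ ≤ η

/-- CONV: the rescaled orbits converge to the critical orbits of the quadratic family. -/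
def St_conv : Prop := ∀ (r g : ℂ → ℂ) (y a : ℂ) (d B : ℝ), Near r g y a d B →
  ∀ (K : ℝ) (j : ℕ) (η : ℝ), 0 < η → ∃ n₀ : ℕ, ∀ n : ℕ, n₀ ≤ n → ∀ c : ℂ, ‖c‖ ≤ K →
  ‖n * (a * y) * (orb r n (y + c / (n * (a * y))) j - y) - qo c j‖ ≤ η ∧
  ∃ D : ℂ, HasDerivAt (fun t => orb r n t j) D (y + c / (n * (a * y))) ∧
    ‖D - deriv (fun t => qo t j) c‖ ≤ η

/-- ATT: attracting cycles of the quadratic polynomial persist. -/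
def St_att : Prop := ∀ (r g : ℂ → ℂ) (y a : ℂ) (d B : ℝ), Near r g y a d B →
  ∀ c₀ : ℂ, QAtt c₀ → ∃ δ : ℝ, 0 < δ ∧ ∃ n₀ : ℕ, ∀ n : ℕ, n₀ ≤ n →
  ∀ x ∈ closedBall (y + c₀ / (n * (a * y))) (δ / n), Att r n x

/-- QUAD: outside the Mandelbrot set the critical orbit moves fast with the parameter (almost
everywhere). -/
def St_quad : Prop := ∀ᵐ c : ℂ, QEsc c → ∀ C : ℝ, ∃ J : ℕ, C ≤ ‖qo c J‖ ∧
  C ≤ ‖deriv (fun t => qo t J) c‖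

/-- NZ2: the orbit near the critical point, from the index `J` on. -/
def St_nz2 : Prop := ∀ (r g : ℂ → ℂ) (y a : ℂ) (d B : ℝ), Near r g y a d B →
  ∀ K₀ μ : ℝ, 0 < K₀ → 0 < μ → ∃ C₂ c₁ : ℝ, 0 < C₂ ∧ 0 < c₁ ∧ ∃ n₀ : ℕ, ∀ n : ℕ, n₀ ≤ n →
  ∀ (x : ℂ) (J : ℕ) (D₀ : ℂ), ‖x - y‖ ≤ K₀ / n → C₂ / n ≤ ‖orb r n x J - y‖ →
  HasDerivAt (fun t => orb r n t J) D₀ x → C₂ ≤ ‖D₀‖ →
  ∀ k : ℕ, (∀ j < k, ‖orb r n x (J + j) - y‖ ≤ c₁ / Real.sqrt n) →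
    (∀ j < k, 2 * ‖orb r n x (J + j) - y‖ ≤ ‖orb r n x (J + j + 1) - y‖ ∧
      ‖orb r n x (J + j + 1) - y‖ ≤ μ) ∧
    ∃ D : ℂ, HasDerivAt (fun t => orb r n t (J + k)) D x ∧
      ‖(orb r n x J - y) * D - 2 ^ k * D₀ * (orb r n x (J + k) - y)‖ ≤
        μ * 2 ^ k * ‖D₀‖ * ‖orb r n x (J + k) - y‖

/-- ESC: near a parameter outside the Mandelbrot set the undecided set has small area. -/
def St_esc : Prop := ∀ (r g : ℂ → ℂ) (y a : ℂ) (ρ₀ ε d B c : ℝ), Near r g y a d B →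
  Good r g y ρ₀ ε d B c → ∀ c₀ : ℂ,
  (∀ C : ℝ, ∃ J : ℕ, C ≤ ‖qo c₀ J‖ ∧ C ≤ ‖deriv (fun t => qo t J) c₀‖) →
  ∃ δ K : ℝ, 0 < δ ∧ 0 < K ∧ ∃ n₀ : ℕ, ∀ n : ℕ, n₀ ≤ n →
  volume (Und r n ρ₀ ∩ closedBall (y + c₀ / (n * (a * y))) (δ / n)) ≤
    ENNReal.ofReal (K * (Real.log n / n) / n ^ 2)

/-- TR2: the transfer from the coordinate `x = (s v) ^ n` to `s`, with the sharp constant. -/
def St_tr2 : Prop := ∀ v y : ℂ, v ≠ 0 → y ≠ 0 → ∀ C η : ℝ, 0 < C → 0 < η → ∃ n₀ : ℕ, ∀ n : ℕ,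
  n₀ ≤ n → ∀ S : Set ℂ, S ⊆ closedBall y (C / n) →
  volume {s : ℂ | (s * v) ^ n ∈ S} ≤
    ENNReal.ofReal ((1 + η) / (n * ‖v‖ ^ 2 * ‖y‖ ^ 2)) * volume S

/-- MEAS: local smallness outside `N` bounds the total area. -/
def St_meas : Prop := ∀ (N : Set ℂ) (E : ℕ → Set ℂ) (R : ℝ), (∀ n, E n ⊆ closedBall 0 R) →
  (∀ᵐ c : ℂ, c ∉ N → ∃ δ : ℝ, 0 < δ ∧
    Tendsto (fun n => volume (E n ∩ closedBall c δ)) atTop (𝓝 0)) →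
  ∀ η : ℝ, 0 < η → ∃ n₀ : ℕ, ∀ n : ℕ, n₀ ≤ n → volume (E n) ≤ volume N + ENNReal.ofReal η

end Pool.Agent.K3h20.CR
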