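import Pool.Agent.K3h20.CR.AN3
import Pool.Agent.K3h20.CR.Stm2

/-!
# Project CR2: brick ESC, part 1
-/

set_option autoImplicit false

open Set Filter Topology MeasureTheory Metric

namespace Pool.Agent.K3h20.CR

/-- Distortion of the orbit points from the index `J` on, on the ball of radius
`c₃ |T₀| / 2 ^ k`. -/
theorem ball_orb' (hld : St_ld) {r : ℂ → ℂ} {y : ℂ} {n J : ℕ} {c₁' μ c₃ : ℝ}
    (hμ1 : μ ≤ 1) (hc₃ : 0 < c₃) (hc₃8 : c₃ ≤ 1 / 8) {x₀ T₀ : ℂ} (hT₀ : 0 < ‖T₀‖)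
    (hnz : ∀ x ∈ closedBall x₀ (c₃ * ‖T₀‖), ∀ k : ℕ,
      (∀ j < k, ‖orb r n x (J + j) - y‖ ≤ c₁') →
      ∃ D : ℂ, HasDerivAt (fun t => orb r n t (J + k)) D x ∧
        ‖T₀ * D - 2 ^ k * (orb r n x (J + k) - y)‖ ≤ μ * 2 ^ k * ‖orb r n x (J + k) - y‖)
    {k : ℕ} (hk : ∀ j < k, ‖orb r n x₀ (J + j) - y‖ ≤ c₁' / 2) :
    ∀ i ≤ k, ∀ x ∈ closedBall x₀ (c₃ * ‖T₀‖ / 2 ^ k),
      ‖orb r n x (J + i) - orb r n x₀ (J + i)‖ ≤ 8 * c₃ * ‖orb r n x₀ (J + i) - y‖ ∧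
      ∃ D : ℂ, HasDerivAt (fun t => orb r n t (J + i)) D x ∧
        ‖T₀ * D - 2 ^ i * (orb r n x (J + i) - y)‖ ≤ μ * 2 ^ i * ‖orb r n x (J + i) - y‖ := by
  set R : ℝ := c₃ * ‖T₀‖ / 2 ^ k with hR
  have h2k : (1 : ℝ) ≤ 2 ^ k := one_le_pow₀ (by norm_num)
  have hR0 : 0 < R := by positivity
  have hRle : R ≤ c₃ * ‖T₀‖ := div_le_self (by positivity) h2k
  have hsub : closedBall x₀ R ⊆ closedBall x₀ (c₃ * ‖T₀‖) := closedBall_subset_closedBall hRle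
  intro i
  induction i using Nat.strong_induction_on with
  | _ i ih =>
    intro hik
    -- the derivative exists on the whole ball
    have hD : ∀ x ∈ closedBall x₀ R, ∃ D : ℂ, HasDerivAt (fun t => orb r n t (J + i)) D x ∧
        ‖T₀ * D - 2 ^ i * (orb r n x (J + i) - y)‖ ≤ μ * 2 ^ i * ‖orb r n x (J + i) - y‖ := by
      intro x hx
      refine hnz x (hsub hx) i ?_
      intro j hj
      have h1 := (ih j hj (by omega) x hx).1
      have h2 := hk j (by omega)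
      have h3 : ‖orb r n x (J + j) - y‖ ≤ ‖orb r n x (J + j) - orb r n x₀ (J + j)‖ +
          ‖orb r n x₀ (J + j) - y‖ := by
        calc ‖orb r n x (J + j) - y‖ = ‖(orb r n x (J + j) - orb r n x₀ (J + j)) +
              (orb r n x₀ (J + j) - y)‖ := by ring_nf
          _ ≤ _ := norm_add_le _ _
      have h4 : 8 * c₃ * ‖orb r n x₀ (J + j) - y‖ ≤ 1 * ‖orb r n x₀ (J + j) - y‖ :=
        mul_le_mul_of_nonneg_right (by linarith) (norm_nonneg _)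
      linarith
    choose! D hD1 hD2 using hD
    have hM : 4 * 2 ^ i / ‖T₀‖ * R ≤ 1 / 2 := by
      have h1 : (2 : ℝ) ^ i ≤ 2 ^ k := pow_le_pow_right₀ (by norm_num) hik
      rw [hR]
      have h2k' : (0 : ℝ) < 2 ^ k := by positivity
      have e1 : 4 * 2 ^ i / ‖T₀‖ * (c₃ * ‖T₀‖ / 2 ^ k) = 4 * c₃ * (2 ^ i / 2 ^ k) := by
        field_simp
      rw [e1]
      have : (2 : ℝ) ^ i / 2 ^ k ≤ 1 := by rw [div_le_one h2k']; exact h1
      nlinarith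
    intro x hx
    refine ⟨?_, D x, hD1 x hx, hD2 x hx⟩
    have hder : ∀ z ∈ closedBall x₀ R, HasDerivAt (fun t => orb r n t (J + i) - y) (D z) z ∧
        ‖D z‖ ≤ 4 * 2 ^ i / ‖T₀‖ * ‖orb r n z (J + i) - y‖ := by
      intro z hz
      refine ⟨(hD1 z hz).sub_const y, ?_⟩
      have h1 := hD2 z hz
      have h2i : (0 : ℝ) < 2 ^ i := by positivity
      have h3 : ‖T₀ * D z‖ ≤ 2 * 2 ^ i * ‖orb r n z (J + i) - y‖ := by
        calc ‖T₀ * D z‖ = ‖(T₀ * D z - 2 ^ i * (orb r n z (J + i) - y)) +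
              2 ^ i * (orb r n z (J + i) - y)‖ := by ring_nf
          _ ≤ ‖T₀ * D z - 2 ^ i * (orb r n z (J + i) - y)‖ +
              ‖2 ^ i * (orb r n z (J + i) - y)‖ := norm_add_le _ _
          _ ≤ μ * 2 ^ i * ‖orb r n z (J + i) - y‖ + 2 ^ i * ‖orb r n z (J + i) - y‖ := by
              apply add_le_add h1
              rw [norm_mul, norm_pow, Complex.norm_ofNat]
          _ = (μ + 1) * (2 ^ i * ‖orb r n z (J + i) - y‖) := by ring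
          _ ≤ 2 * (2 ^ i * ‖orb r n z (J + i) - y‖) := by
              apply mul_le_mul_of_nonneg_right _ (by positivity)
              linarith
          _ = _ := by ring
      rw [norm_mul] at h3
      rw [div_mul_eq_mul_div, le_div_iff₀ hT₀]
      have h4 : 0 ≤ 2 ^ i * ‖orb r n z (J + i) - y‖ := by positivity
      nlinarith
    have hmain := hld (fun t => orb r n t (J + i) - y) D x₀ R (4 * 2 ^ i / ‖T₀‖) hR0.le
      (by positivity) hM hder x hx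
    have hxd : ‖x - x₀‖ ≤ R := by rwa [mem_closedBall, dist_eq_norm] at hx
    simp only [sub_sub_sub_cancel_right] at hmain
    refine hmain.trans ?_
    apply mul_le_mul_of_nonneg_right _ (norm_nonneg _)
    have h1 : (2 : ℝ) ^ i ≤ 2 ^ k := pow_le_pow_right₀ (by norm_num) hik
    have h2k' : (0 : ℝ) < 2 ^ k := by positivity
    calc 2 * (4 * 2 ^ i / ‖T₀‖) * ‖x - x₀‖ ≤ 2 * (4 * 2 ^ i / ‖T₀‖) * R := by gcongr
      _ = 8 * c₃ * (2 ^ i / 2 ^ k) := by rw [hR]; field_simp; ring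
      _ ≤ 8 * c₃ * 1 := by
          apply mul_le_mul_of_nonneg_left _ (by positivity)
          rw [div_le_one h2k']; exact h1
      _ = 8 * c₃ := by ring

theorem D_T' {T₀ D u u₀ T : ℂ} {p : ℝ} (hp : 0 < p) (hT0 : 0 < ‖T₀‖)
    (hT : T₀ * T = p * u₀)
    (h1 : ‖T₀ * D - p * u‖ ≤ 2 / 1000 * p * ‖u‖)
    (h2 : ‖u - u₀‖ ≤ 1 / 1000 * ‖u₀‖) :
    ‖D - T‖ ≤ ‖T‖ / 100 := by
  have e1 : T₀ * (D - T) = (T₀ * D - p * u) + p * (u - u₀) := by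
    rw [mul_sub, hT]; ring
  have hTn : ‖T₀‖ * ‖T‖ = p * ‖u₀‖ := by
    rw [← norm_mul, hT, norm_mul, Complex.norm_real, Real.norm_eq_abs, abs_of_pos hp]
  have hu : ‖u‖ ≤ (1 + 1 / 1000) * ‖u₀‖ := by
    calc ‖u‖ = ‖(u - u₀) + u₀‖ := by ring_nf
      _ ≤ ‖u - u₀‖ + ‖u₀‖ := norm_add_le _ _
      _ ≤ _ := by linarith
  have h4 : ‖T₀‖ * ‖D - T‖ ≤ ‖T₀‖ * (‖T‖ / 100) := by
    rw [← norm_mul, e1]
    calc ‖(T₀ * D - p * u) + p * (u - u₀)‖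
        ≤ ‖T₀ * D - p * u‖ + ‖(p : ℂ) * (u - u₀)‖ := norm_add_le _ _
      _ ≤ 2 / 1000 * p * ‖u‖ + p * (1 / 1000 * ‖u₀‖) := by
          apply add_le_add h1
          rw [norm_mul, Complex.norm_real, Real.norm_eq_abs, abs_of_pos hp]
          exact mul_le_mul_of_nonneg_left h2 hp.le
      _ ≤ 2 / 1000 * p * ((1 + 1 / 1000) * ‖u₀‖) + p * (1 / 1000 * ‖u₀‖) := by gcongr
      _ = (2 / 1000 * (1 + 1 / 1000) + 1 / 1000) * (‖T₀‖ * ‖T‖) := by rw [hTn]; ring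
      _ ≤ 1 / 100 * (‖T₀‖ * ‖T‖) := by
          apply mul_le_mul_of_nonneg_right _ (by positivity)
          norm_num
      _ = _ := by ring
  exact le_of_mul_le_mul_left h4 hT0

/-- A ratio close to a fixed one. -/
theorem ratio_close {V E v e D u : ℂ} {p : ℝ} (hE : 0 < ‖E‖)
    (hV0 : 0 < ‖V‖) (hv : ‖v - V‖ ≤ ‖V‖ / 10000) (he : ‖e - E‖ ≤ ‖E‖ / 10000)
    (h : ‖v * D - p * e * u‖ ≤ 1 / 1000 * p * ‖e‖ * ‖u‖) (hp : 0 < p) :
    ‖V * D - p * E * u‖ ≤ 2 / 1000 * p * ‖E‖ * ‖u‖ := by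
  have hen : ‖e‖ ≤ (1 + 1 / 10000) * ‖E‖ := by
    calc ‖e‖ = ‖(e - E) + E‖ := by ring_nf
      _ ≤ ‖e - E‖ + ‖E‖ := norm_add_le _ _
      _ ≤ _ := by linarith
  have hvn : (1 - 1 / 10000) * ‖V‖ ≤ ‖v‖ := by
    have : ‖V‖ ≤ ‖v‖ + ‖v - V‖ := by
      calc ‖V‖ = ‖v - (v - V)‖ := by ring_nf
        _ ≤ _ := norm_sub_le _ _
    linarith
  -- bound for `V D`
  have h1 : ‖v * D‖ ≤ (1 + 1 / 1000) * (p * ‖e‖ * ‖u‖) := by
    calc ‖v * D‖ = ‖(v * D - p * e * u) + p * e * u‖ := by ring_nf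
      _ ≤ ‖v * D - p * e * u‖ + ‖(p : ℂ) * e * u‖ := norm_add_le _ _
      _ ≤ 1 / 1000 * p * ‖e‖ * ‖u‖ + p * ‖e‖ * ‖u‖ := by
          apply add_le_add h
          rw [norm_mul, norm_mul, Complex.norm_real, Real.norm_eq_abs, abs_of_pos hp]
      _ = _ := by ring
  have h2 : ‖V‖ * ‖D‖ ≤ 1002 / 1000 * (p * ‖e‖ * ‖u‖) := by
    rw [norm_mul] at h1
    have h3 : (1 - 1 / 10000) * ‖V‖ * ‖D‖ ≤ ‖v‖ * ‖D‖ :=
      mul_le_mul_of_nonneg_right hvn (norm_nonneg _)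
    have h4 : 0 ≤ p * ‖e‖ * ‖u‖ := by positivity
    nlinarith
  have e1 : V * D - p * E * u = (v * D - p * e * u) + ((V - v) * D + p * (e - E) * u) := by ring
  rw [e1]
  calc ‖(v * D - p * e * u) + ((V - v) * D + p * (e - E) * u)‖
      ≤ ‖v * D - p * e * u‖ + (‖(V - v) * D‖ + ‖(p : ℂ) * (e - E) * u‖) :=
        (norm_add_le _ _).trans (by gcongr; exact norm_add_le _ _)
    _ ≤ 1 / 1000 * p * ‖e‖ * ‖u‖ + (‖V‖ / 10000 * ‖D‖ + p * (‖E‖ / 10000) * ‖u‖) := by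
        gcongr
        · rw [norm_mul, norm_sub_rev]; gcongr
        · rw [norm_mul, norm_mul, Complex.norm_real, Real.norm_eq_abs, abs_of_pos hp]; gcongr
    _ ≤ 1 / 1000 * p * ‖e‖ * ‖u‖ + (1002 / 1000 * (p * ‖e‖ * ‖u‖) / 10000 +
        p * (‖E‖ / 10000) * ‖u‖) := by
        have : ‖V‖ / 10000 * ‖D‖ = ‖V‖ * ‖D‖ / 10000 := by ring
        rw [this]
        gcongr
    _ = (1 / 1000 + 1002 / 10000000) * (p * ‖e‖ * ‖u‖) + 1 / 10000 * (p * ‖E‖ * ‖u‖) := by ring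
    _ ≤ (1 / 1000 + 1002 / 10000000) * (p * ((1 + 1 / 10000) * ‖E‖) * ‖u‖) +
        1 / 10000 * (p * ‖E‖ * ‖u‖) := by gcongr
    _ = ((1 / 1000 + 1002 / 10000000) * (1 + 1 / 10000) + 1 / 10000) * (p * ‖E‖ * ‖u‖) := by ring
    _ ≤ 2 / 1000 * (p * ‖E‖ * ‖u‖) := by
        apply mul_le_mul_of_nonneg_right _ (by positivity)
        norm_num
    _ = _ := by ring

end Pool.Agent.K3h20.CR
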