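import Pool.Agent.K3h20.CR.ESC1

/-!
# Project CR2: brick ESC, part 2
-/

set_option autoImplicit false

open Set Filter Topology MeasureTheory Metric

namespace Pool.Agent.K3h20.CR

theorem contDiff_qo (j : ℕ) : ContDiff ℂ 2 (fun c => qo c j) := by
  induction j with
  | zero => exact contDiff_id
  | succ j ih => exact (ih.pow 2).add contDiff_id

theorem continuous_qo (j : ℕ) : Continuous (fun c => qo c j) := (contDiff_qo j).continuous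

theorem continuous_deriv_qo (j : ℕ) : Continuous (deriv (fun c => qo c j)) :=
  (contDiff_qo j).continuous_deriv (by norm_num)

/-- The point estimate behind ESC. -/
theorem esc_point (hld : St_ld) {r g : ℂ → ℂ} {y : ℂ} {ρ₀ ε d B c : ℝ} (hG : Good r g y ρ₀ ε d B c)
    {n J : ℕ} (hn1 : 1 ≤ n) {c₁ c₃ c₅ KT K : ℝ} (hc₁ : 0 < c₁) (hc₃0 : 0 < c₃)
    (hc₃a : c₃ ≤ 1 / 8000) (hK0 : 0 < K) (hK : K = ρ₀⁻¹ + ‖y‖) (hc₃b : c₃ ≤ d / (8 * K))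
    (hc₃d : c₃ ≤ c / (8000 * B)) (hc₃e : c₃ * KT ≤ ρ₀ / 2)
    (hc₅0 : 0 < c₅) (hc₅a : c₅ ≤ 1 / 256) (hc₅b : c₅ ≤ c₃ * c * c₁ ^ 2 / 4)
    (hLε : 2 * Real.log ρ₀⁻¹ / n ≤ ε) {x₀ T₀ : ℂ} (hT₀ : 0 < ‖T₀‖) (hT₀n : ‖T₀‖ ≤ KT / n)
    (hx₀ : x₀ ∈ Und r n ρ₀) (hu0 : 0 < ‖orb r n x₀ J - y‖)
    (hMn : 3200 * KT / (ρ₀ * c * c₁ ^ 2) ≤ n)
    (hnz : ∀ x ∈ closedBall x₀ (c₃ * ‖T₀‖), ∀ k : ℕ,
      (∀ j < k, ‖orb r n x (J + j) - y‖ ≤ c₁ / Real.sqrt n) →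
      (∀ j < k, 2 * ‖orb r n x (J + j) - y‖ ≤ ‖orb r n x (J + j + 1) - y‖) ∧
      ∃ D : ℂ, HasDerivAt (fun t => orb r n t (J + k)) D x ∧
        ‖T₀ * D - 2 ^ k * (orb r n x (J + k) - y)‖ ≤
          2 / 1000 * 2 ^ k * ‖orb r n x (J + k) - y‖) :
    ∃ (k : ℕ) (G' : ℂ → ℂ) (ρ : ℝ), 0 < ρ ∧ 10 * ρ ≤ c₃ * ‖T₀‖ ∧ ρ ≤ 1 ∧
      (∀ x ∈ closedBall x₀ (10 * ρ), HasDerivAt (fun t => orb r n t k) (G' x) x ∧
        ‖G' x - G' x₀‖ ≤ ‖G' x₀‖ / 10) ∧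
      ρ₀ * (63 / 64) * c₅ / 10 ≤ ‖G' x₀‖ * ρ := by
  have hρ := hG.hρ
  have hρ1 := hG.hρ1
  have hd := hG.hd
  have hB := hG.hB
  have hc := hG.hc
  have hε := hG.hε
  have hB0 : 0 < B := lt_of_lt_of_le one_pos hB
  have hinv : 1 < ρ₀⁻¹ := (one_lt_inv₀ hρ).2 hρ1
  have hn0 : (0 : ℝ) < n := by exact_mod_cast hn1
  have hn1' : (1 : ℝ) ≤ n := by exact_mod_cast hn1
  have hsq : 0 < Real.sqrt n := Real.sqrt_pos.2 hn0
  have hsq2 : Real.sqrt n * Real.sqrt n = n := Real.mul_self_sqrt hn0.le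
  have hKT : 0 < KT := by
    have h1 := lt_of_lt_of_le hT₀ hT₀n
    exact (div_pos_iff_of_pos_right hn0).1 h1
  have horbK : ∀ j, ‖orb r n x₀ j - y‖ ≤ K := by
    intro j
    rw [hK]
    exact (norm_sub_le _ _).trans (by linarith [(hx₀ j).2])
  -- the exit index
  have hx₀mem : x₀ ∈ closedBall x₀ (c₃ * ‖T₀‖) := mem_closedBall_self (by positivity)
  obtain ⟨k, hk1, hk2⟩ := exists_exit (u := fun j => ‖orb r n x₀ (J + j) - y‖)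
    (t := c₁ / Real.sqrt n) hu0 (fun k hk j hj => (hnz x₀ hx₀mem k hk).1 j hj)
  obtain ⟨uk, huk⟩ : ∃ uk : ℝ, uk = ‖orb r n x₀ (J + k) - y‖ := ⟨_, rfl⟩
  rw [← huk] at hk1
  have huk0 : 0 < uk := lt_of_lt_of_le (by positivity) hk1
  have hukK : uk ≤ K := by rw [huk]; exact horbK (J + k)
  -- distortion on the ball
  obtain ⟨R₁, hR₁⟩ : ∃ R₁ : ℝ, R₁ = c₃ * ‖T₀‖ / 2 ^ k := ⟨_, rfl⟩
  have h2k : (0 : ℝ) < 2 ^ k := by positivity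
  have h2k1 : (1 : ℝ) ≤ 2 ^ k := one_le_pow₀ (by norm_num)
  have hR₁0 : 0 < R₁ := by rw [hR₁]; positivity
  have hR₁le : R₁ ≤ c₃ * ‖T₀‖ := by
    rw [hR₁]
    exact div_le_self (by positivity) h2k1
  have hR₁ρ : R₁ ≤ ρ₀ / 2 := by
    refine hR₁le.trans (le_trans ?_ hc₃e)
    apply mul_le_mul_of_nonneg_left _ hc₃0.le
    exact hT₀n.trans (div_le_self hKT.le hn1')
  have hball := ball_orb' hld (r := r) (y := y) (n := n) (J := J) (c₁' := c₁ / Real.sqrt n)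
    (μ := 2 / 1000) (c₃ := c₃) (by norm_num) hc₃0 (by linarith) hT₀
    (fun x hx k hk => (hnz x hx k hk).2) (k := k) (fun j hj => (hk2 j hj).le) k le_rfl
  rw [← hR₁] at hball
  have hball1 := fun x hx => (hball x hx).1
  choose! D hD1 hD2 using fun x hx => (hball x hx).2
  -- `T`
  have hT₀0 : T₀ ≠ 0 := norm_pos_iff.1 hT₀
  obtain ⟨T, hT⟩ : ∃ T : ℂ, T = 2 ^ k * (orb r n x₀ (J + k) - y) / T₀ := ⟨_, rfl⟩
  have hTeq : T₀ * T = ((2 ^ k : ℝ) : ℂ) * (orb r n x₀ (J + k) - y) := by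
    rw [hT]; push_cast; field_simp
  have hTn : ‖T‖ = 2 ^ k * uk / ‖T₀‖ := by
    rw [hT, norm_div, norm_mul, norm_pow, Complex.norm_ofNat, huk]
  have hDT : ∀ x ∈ closedBall x₀ R₁, ‖D x - T‖ ≤ ‖T‖ / 100 := by
    intro x hx
    refine D_T' (p := 2 ^ k) (u := orb r n x (J + k) - y) h2k hT₀ hTeq ?_ ?_
    · have := hD2 x hx
      push_cast
      exact this
    · rw [sub_sub_sub_cancel_right]
      refine (hball1 x hx).trans ?_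
      apply mul_le_mul_of_nonneg_right _ (norm_nonneg _)
      linarith
  -- the level curve
  obtain ⟨hw1, hw2, hw3, hw4⟩ := und_lev hρ hn1 hx₀ (J + k)
  obtain ⟨hgw, hlow⟩ := hG.low (orb r n x₀ (J + k)) (by linarith)
    (by rw [div_eq_mul_inv]; linarith)
    ((Real.exp_le_exp.2 (by linarith)).trans hw3) (hw4.trans (Real.exp_le_exp.2 hLε))
  rw [← huk] at hgw
  have hmem : ∀ x ∈ closedBall x₀ R₁, orb r n x (J + k) ∈ closedBall (orb r n x₀ (J + k)) d := by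
    intro x hx
    rw [mem_closedBall, dist_eq_norm]
    refine (hball1 x hx).trans ?_
    rw [← huk]
    calc 8 * c₃ * uk ≤ 8 * (d / (8 * K)) * K := by gcongr
      _ = d := by field_simp
  have hgd : ∀ x ∈ closedBall x₀ R₁, ‖g (orb r n x (J + k)) - g (orb r n x₀ (J + k))‖ ≤
      ‖g (orb r n x₀ (J + k))‖ / 1000 := by
    intro x hx
    have h1 := (hlow _ (hmem x hx)).2.2.2 (orb r n x₀ (J + k)) (mem_closedBall_self hd.le)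
    have h2 := hball1 x hx
    rw [← huk] at h2
    calc ‖g (orb r n x (J + k)) - g (orb r n x₀ (J + k))‖ ≤ B * (8 * c₃ * uk) :=
          h1.trans (mul_le_mul_of_nonneg_left h2 hB0.le)
      _ ≤ B * (8 * (c / (8000 * B)) * uk) := by gcongr
      _ = c * uk / 1000 := by field_simp; norm_num
      _ ≤ _ := by apply div_le_div_of_nonneg_right hgw (by norm_num)
  obtain ⟨M, hM⟩ : ∃ M : ℝ, M = n * ‖g (orb r n x₀ (J + k))‖ * ‖T‖ := ⟨_, rfl⟩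
  have hMlow : n * c * uk ^ 2 * 2 ^ k / ‖T₀‖ ≤ M := by
    rw [hM, hTn]
    calc n * c * uk ^ 2 * 2 ^ k / ‖T₀‖ = n * (c * uk) * (2 ^ k * uk / ‖T₀‖) := by ring
      _ ≤ _ := by gcongr
  have hM3 : c * c₁ ^ 2 / 4 * 2 ^ k / ‖T₀‖ ≤ M := by
    refine le_trans ?_ hMlow
    apply div_le_div_of_nonneg_right _ hT₀.le
    apply mul_le_mul_of_nonneg_right _ h2k.le
    have h1 : (c₁ / Real.sqrt n / 2) ^ 2 ≤ uk ^ 2 := by gcongr
    have h2 : (c₁ / Real.sqrt n / 2) ^ 2 = c₁ ^ 2 / 4 / n := by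
      rw [div_pow, div_pow, sq (Real.sqrt n), hsq2]; ring
    rw [h2] at h1
    calc c * c₁ ^ 2 / 4 = n * c * (c₁ ^ 2 / 4 / n) := by field_simp
      _ ≤ _ := by gcongr
  have hM4 : 800 / ρ₀ ≤ M := by
    refine le_trans ?_ hM3
    rw [div_le_div_iff₀ hρ hT₀]
    have h1 : 3200 * KT ≤ n * (ρ₀ * c * c₁ ^ 2) := by
      rwa [div_le_iff₀ (by positivity)] at hMn
    have h2 : ‖T₀‖ * n ≤ KT := by rwa [le_div_iff₀ hn0] at hT₀n
    have h3 : 3200 * ‖T₀‖ ≤ ρ₀ * c * c₁ ^ 2 := by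
      have h4 : 3200 * ‖T₀‖ * n ≤ ρ₀ * c * c₁ ^ 2 * n := by nlinarith
      exact le_of_mul_le_mul_right h4 hn0
    calc 800 * ‖T₀‖ ≤ ρ₀ * c * c₁ ^ 2 / 4 * 1 := by linarith
      _ ≤ ρ₀ * c * c₁ ^ 2 / 4 * 2 ^ k := by gcongr
      _ = c * c₁ ^ 2 / 4 * 2 ^ k * ρ₀ := by ring
  have hM0 : 0 < M := lt_of_lt_of_le (by positivity) hM4
  -- `N₀`
  obtain ⟨N₀, hN₀⟩ : ∃ N₀ : ℂ, N₀ = (n : ℂ) * g (orb r n x₀ (J + k)) * T := ⟨_, rfl⟩
  have hN₀n : ‖N₀‖ = M := by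
    rw [hN₀, hM, norm_mul, norm_mul, Complex.norm_natCast]
  have hΛ : ∀ x ∈ closedBall x₀ R₁,
      HasDerivAt (fun t => orb r n t (J + k + 1))
        (orb r n x (J + k + 1) * (1 / x + n * g (orb r n x (J + k)) * D x)) x ∧
      ‖(1 / x + n * g (orb r n x (J + k)) * D x) - N₀‖ ≤ ‖N₀‖ / 64 := by
    intro x hx
    have hxd : ‖x - x₀‖ ≤ R₁ := by rwa [mem_closedBall, dist_eq_norm] at hx
    have hx0n : ρ₀ ≤ ‖x₀‖ := (hx₀ 0).1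
    have hxn : ρ₀ / 2 ≤ ‖x‖ := by
      have : ‖x₀‖ ≤ ‖x‖ + ‖x - x₀‖ := by
        calc ‖x₀‖ = ‖x - (x - x₀)‖ := by ring_nf
          _ ≤ _ := norm_sub_le _ _
      linarith
    have hx0 : x ≠ 0 := norm_pos_iff.1 (by linarith)
    refine ⟨exit_deriv hn1 hx0 (hD1 x hx) (hlow _ (hmem x hx)).2.1, ?_⟩
    have h5 := lam_est (n := (n : ℝ)) hn0.le (X := 1 / x) (hDT x hx) (hgd x hx) (by
      rw [← hM, norm_div, norm_one, div_le_iff₀ (by linarith)]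
      calc (1 : ℝ) = 800 / ρ₀ / 400 * (ρ₀ / 2) := by field_simp; norm_num
        _ ≤ M / 400 * ‖x‖ := by gcongr)
    rw [← hM] at h5
    rw [hN₀n, hN₀]
    exact h5
  -- the radius
  obtain ⟨ρ, hρdef⟩ : ∃ ρ : ℝ, ρ = c₅ / M / 10 := ⟨_, rfl⟩
  have hρ0 : 0 < ρ := by rw [hρdef]; positivity
  have h10 : 10 * ρ = c₅ / M := by rw [hρdef]; ring
  have hRR : 10 * ρ ≤ R₁ := by
    rw [h10, hR₁, div_le_iff₀ hM0]
    calc c₅ ≤ c₃ * c * c₁ ^ 2 / 4 := hc₅b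
      _ = c₃ * ‖T₀‖ / 2 ^ k * (c * c₁ ^ 2 / 4 * 2 ^ k / ‖T₀‖) := by field_simp
      _ ≤ _ := by gcongr
  have hρR : ρ ≤ R₁ := by linarith
  have hsub : closedBall x₀ (10 * ρ) ⊆ closedBall x₀ R₁ := closedBall_subset_closedBall hRR
  have hfin := G_est hld (G := fun t => orb r n t (J + k + 1))
    (Λ := fun x => 1 / x + n * g (orb r n x (J + k)) * D x) (x₀ := x₀) (N₀ := N₀) (R := 10 * ρ)
    (by positivity) (by rw [hN₀n]; exact hM0)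
    (by rw [hN₀n, h10, mul_div_cancel₀ _ hM0.ne']; exact hc₅a)
    (fun x hx => hΛ x (hsub hx))
  obtain ⟨hfin1, hfin2⟩ := hfin
  have hκ : ρ₀ * (63 / 64) * M ≤
      ‖orb r n x₀ (J + k + 1) * (1 / x₀ + n * g (orb r n x₀ (J + k)) * D x₀)‖ := by
    refine le_trans ?_ hfin2
    rw [hN₀n]
    have := (hx₀ (J + k + 1)).1
    calc ρ₀ * (63 / 64) * M = ρ₀ * (63 / 64 * M) := by ring
      _ ≤ _ := by gcongr
  refine ⟨J + k + 1, fun x => orb r n x (J + k + 1) *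
    (1 / x + n * g (orb r n x (J + k)) * D x), ρ, hρ0, hRR.trans hR₁le, by linarith, ?_, ?_⟩
  · intro x hx
    exact ⟨(hΛ x (hsub hx)).1, hfin1 x hx⟩
  · calc ρ₀ * (63 / 64) * c₅ / 10 = ρ₀ * (63 / 64) * M * ρ := by
          rw [hρdef]; field_simp
      _ ≤ _ := by gcongr

end Pool.Agent.K3h20.CR
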