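import Pool.Agent.K3h20.CR.ESC2

/-!
# Project CR2: brick ESC, part 3
-/

set_option autoImplicit false

open Set Filter Topology MeasureTheory Metric

namespace Pool.Agent.K3h20.CR

theorem t_esc (hvit : St_vit) (hld : St_ld) (haff : St_aff) (hlev : St_lev) (hconv : St_conv)
    (hnz2 : St_nz2) : St_esc := by
  intro r g y a ρ₀ ε d B c hN hG c₀ hbig
  have hρ := hG.hρ
  have hρ1 := hG.hρ1
  have hd := hG.hd
  have hB := hG.hB
  have hc := hG.hc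
  have hε := hG.hε
  have hB0 : 0 < B := lt_of_lt_of_le one_pos hB
  have hinv : 1 < ρ₀⁻¹ := (one_lt_inv₀ hρ).2 hρ1
  have hlog : 0 < Real.log ρ₀⁻¹ := Real.log_pos hinv
  obtain ⟨α, hα⟩ : ∃ α : ℂ, α = a * y := ⟨_, rfl⟩
  have hα0 : α ≠ 0 := by rw [hα]; exact mul_ne_zero hN.ha hN.hy
  have hαn : 0 < ‖α‖ := norm_pos_iff.2 hα0
  have hK₀0 : 0 < ‖c₀‖ / ‖α‖ + 1 := by positivity
  obtain ⟨C₂, c₁, hC₂, hc₁, n₁, hnz2⟩ := hnz2 r g y a d B hN (‖c₀‖ / ‖α‖ + 1) (1 / 1000) hK₀0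
    (by norm_num)
  obtain ⟨J, hJ1, hJ2⟩ := hbig (2 * (C₂ * (‖α‖ + 1)))
  obtain ⟨V, hV⟩ : ∃ V : ℂ, V = qo c₀ J := ⟨_, rfl⟩
  obtain ⟨E, hE⟩ : ∃ E : ℂ, E = deriv (fun t => qo t J) c₀ := ⟨_, rfl⟩
  rw [← hV] at hJ1
  rw [← hE] at hJ2
  have hVn : 0 < ‖V‖ := lt_of_lt_of_le (by positivity) hJ1
  have hEn : 0 < ‖E‖ := lt_of_lt_of_le (by positivity) hJ2
  have hE0 : E ≠ 0 := norm_pos_iff.1 hEn
  obtain ⟨η, hη0, hη1, hη2⟩ : ∃ η : ℝ, 0 < η ∧ η ≤ ‖V‖ / 20000 ∧ η ≤ ‖E‖ / 20000 :=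
    ⟨min (‖V‖ / 20000) (‖E‖ / 20000), by positivity, min_le_left _ _, min_le_right _ _⟩
  obtain ⟨δ₁, hδ₁0, hδ₁⟩ : ∃ δ₁ : ℝ, 0 < δ₁ ∧ ∀ t : ℂ, ‖t - c₀‖ < δ₁ →
      ‖qo t J - V‖ ≤ η ∧ ‖deriv (fun t => qo t J) t - E‖ ≤ η := by
    obtain ⟨δ', hδ', h1⟩ := Metric.continuousAt_iff.1
      ((continuous_qo J).continuousAt (x := c₀)) η hη0
    obtain ⟨δ'', hδ'', h2⟩ := Metric.continuousAt_iff.1
      ((continuous_deriv_qo J).continuousAt (x := c₀)) η hη0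
    refine ⟨min δ' δ'', lt_min hδ' hδ'', fun t ht => ?_⟩
    rw [hV, hE]
    have h3 := h1 (x := t) (by rw [dist_eq_norm]; exact lt_of_lt_of_le ht (min_le_left _ _))
    have h4 := h2 (x := t) (by rw [dist_eq_norm]; exact lt_of_lt_of_le ht (min_le_right _ _))
    rw [dist_eq_norm] at h3 h4
    exact ⟨h3.le, h4.le⟩
  obtain ⟨n₂, hconv⟩ := hconv r g y a d B hN (‖c₀‖ + 1) J η hη0
  rw [← hα] at hconv
  obtain ⟨δ, hδ0, hδa, hδb, hδc⟩ : ∃ δ : ℝ, 0 < δ ∧ δ ≤ 1 / 2 ∧ 2 * δ * ‖α‖ < δ₁ ∧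
      2 * δ * ‖α‖ ≤ 1 := by
    refine ⟨min (1 / 2) (min (δ₁ / (4 * ‖α‖)) (1 / (4 * ‖α‖))), by positivity, min_le_left _ _,
      ?_, ?_⟩
    · have h1 : min (1 / 2) (min (δ₁ / (4 * ‖α‖)) (1 / (4 * ‖α‖))) ≤ δ₁ / (4 * ‖α‖) :=
        (min_le_right _ _).trans (min_le_left _ _)
      calc 2 * min (1 / 2) (min (δ₁ / (4 * ‖α‖)) (1 / (4 * ‖α‖))) * ‖α‖ ≤
            2 * (δ₁ / (4 * ‖α‖)) * ‖α‖ := by gcongr
        _ = δ₁ / 2 := by field_simp; norm_num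
        _ < δ₁ := by linarith
    · have h1 : min (1 / 2) (min (δ₁ / (4 * ‖α‖)) (1 / (4 * ‖α‖))) ≤ 1 / (4 * ‖α‖) :=
        (min_le_right _ _).trans (min_le_right _ _)
      calc 2 * min (1 / 2) (min (δ₁ / (4 * ‖α‖)) (1 / (4 * ‖α‖))) * ‖α‖ ≤
            2 * (1 / (4 * ‖α‖)) * ‖α‖ := by gcongr
        _ ≤ 1 := by field_simp; norm_num
  obtain ⟨KT, hKT⟩ : ∃ KT : ℝ, KT = ‖V‖ / (‖α‖ * ‖E‖) := ⟨_, rfl⟩
  have hKT0 : 0 < KT := by rw [hKT]; positivity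
  obtain ⟨K, hK⟩ : ∃ K : ℝ, K = ρ₀⁻¹ + ‖y‖ := ⟨_, rfl⟩
  have hK0 : 0 < K := by rw [hK]; positivity
  obtain ⟨c₃, hc₃0, hc₃a, hc₃b, hc₃d, hc₃e, hc₃f⟩ : ∃ c₃ : ℝ, 0 < c₃ ∧ c₃ ≤ 1 / 8000 ∧
      c₃ ≤ d / (8 * K) ∧ c₃ ≤ c / (8000 * B) ∧ c₃ * KT ≤ ρ₀ / 2 ∧ c₃ * KT ≤ δ := by
    refine ⟨min (1 / 8000) (min (d / (8 * K)) (min (c / (8000 * B)) (min (ρ₀ / (2 * KT))
      (δ / KT)))), by positivity, min_le_left _ _, (min_le_right _ _).trans (min_le_left _ _),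
      (min_le_right _ _).trans ((min_le_right _ _).trans (min_le_left _ _)), ?_, ?_⟩
    · have h1 : min (1 / 8000) (min (d / (8 * K)) (min (c / (8000 * B)) (min (ρ₀ / (2 * KT))
          (δ / KT)))) ≤ ρ₀ / (2 * KT) :=
        (min_le_right _ _).trans ((min_le_right _ _).trans ((min_le_right _ _).trans
          (min_le_left _ _)))
      calc _ ≤ ρ₀ / (2 * KT) * KT := mul_le_mul_of_nonneg_right h1 hKT0.le
        _ = ρ₀ / 2 := by field_simp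
    · have h1 : min (1 / 8000) (min (d / (8 * K)) (min (c / (8000 * B)) (min (ρ₀ / (2 * KT))
          (δ / KT)))) ≤ δ / KT :=
        (min_le_right _ _).trans ((min_le_right _ _).trans ((min_le_right _ _).trans
          (min_le_right _ _)))
      calc _ ≤ δ / KT * KT := mul_le_mul_of_nonneg_right h1 hKT0.le
        _ = δ := by field_simp
  obtain ⟨c₅, hc₅0, hc₅a, hc₅b⟩ : ∃ c₅ : ℝ, 0 < c₅ ∧ c₅ ≤ 1 / 256 ∧
      c₅ ≤ c₃ * c * c₁ ^ 2 / 4 :=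
    ⟨min (1 / 256) (c₃ * c * c₁ ^ 2 / 4), by positivity, min_le_left _ _, min_le_right _ _⟩
  obtain ⟨c₂, hc₂⟩ : ∃ c₂ : ℝ, c₂ = ρ₀ * (63 / 64) * c₅ / 10 := ⟨_, rfl⟩
  have hc₂0 : 0 < c₂ := by rw [hc₂]; positivity
  obtain ⟨CL, hCL, n₃, hlev⟩ := hlev r g y ρ₀ ε d B c hG (2 * Real.log ρ₀⁻¹) (by positivity)
  obtain ⟨n₄, hn₄⟩ := exists_nat_ge (2 * Real.log ρ₀⁻¹ / ε)
  obtain ⟨n₅, hn₅⟩ := exists_nat_ge (3200 * KT / (ρ₀ * c * c₁ ^ 2))
  have hpi := Real.pi_gt_three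
  refine ⟨δ, 4 / c₂ ^ 2 * CL * (Real.pi * (2 * δ) ^ 2), hδ0, by positivity,
    max (max (max n₁ n₂) (max n₃ n₄)) (max n₅ 1), ?_⟩
  intro n hn
  have hnn₁ : n₁ ≤ n := by omega
  have hnn₂ : n₂ ≤ n := by omega
  have hnn₃ : n₃ ≤ n := by omega
  have hnn₄ : n₄ ≤ n := by omega
  have hnn₅ : n₅ ≤ n := by omega
  have hn1 : 1 ≤ n := by omega
  have hn0 : (0 : ℝ) < n := by exact_mod_cast hn1
  have hn1' : (1 : ℝ) ≤ n := by exact_mod_cast hn1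
  have hlogn : 0 ≤ Real.log n := Real.log_nonneg hn1'
  have hnc : (n : ℂ) ≠ 0 := by exact_mod_cast hn0.ne'
  have hLε : 2 * Real.log ρ₀⁻¹ / n ≤ ε := by
    rw [div_le_iff₀ hn0]
    have h1 : 2 * Real.log ρ₀⁻¹ / ε ≤ n := hn₄.trans (by exact_mod_cast hnn₄)
    rw [div_le_iff₀ hε] at h1
    linarith
  have hMn : 3200 * KT / (ρ₀ * c * c₁ ^ 2) ≤ n := hn₅.trans (by exact_mod_cast hnn₅)
  rw [← hα]
  obtain ⟨p, hp⟩ : ∃ p : ℂ, p = y + c₀ / (n * α) := ⟨_, rfl⟩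
  rw [← hp]
  obtain ⟨T₀, hT₀⟩ : ∃ T₀ : ℂ, T₀ = V / (n * α * E) := ⟨_, rfl⟩
  have hT₀n : ‖T₀‖ = KT / n := by
    rw [hT₀, hKT, norm_div, norm_mul, norm_mul, Complex.norm_natCast]
    field_simp
  have hT₀0 : 0 < ‖T₀‖ := by rw [hT₀n]; positivity
  -- the points of the region
  have hreg : ∀ x ∈ closedBall p (2 * δ / n), ‖x - y‖ ≤ (‖c₀‖ / ‖α‖ + 1) / n ∧
      C₂ / n ≤ ‖orb r n x J - y‖ ∧ ∃ D₀ : ℂ, HasDerivAt (fun t => orb r n t J) D₀ x ∧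
      C₂ ≤ ‖D₀‖ ∧ ‖D₀ - E‖ ≤ ‖E‖ / 10000 ∧ ‖n * α * (orb r n x J - y) - V‖ ≤ ‖V‖ / 10000 := by
    intro x hx
    have hxp : ‖x - p‖ ≤ 2 * δ / n := by rwa [mem_closedBall, dist_eq_norm] at hx
    obtain ⟨t, ht⟩ : ∃ t : ℂ, t = n * α * (x - y) := ⟨_, rfl⟩
    have hxt : x = y + t / (n * α) := by rw [ht]; field_simp; ring
    have htc : ‖t - c₀‖ ≤ 2 * δ * ‖α‖ := by
      have e1 : t - c₀ = n * α * (x - p) := by rw [ht, hp]; field_simp; ring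
      rw [e1, norm_mul, norm_mul, Complex.norm_natCast]
      calc n * ‖α‖ * ‖x - p‖ ≤ n * ‖α‖ * (2 * δ / n) := by gcongr
        _ = 2 * δ * ‖α‖ := by field_simp
    have htK : ‖t‖ ≤ ‖c₀‖ + 1 := by
      calc ‖t‖ = ‖c₀ + (t - c₀)‖ := by ring_nf
        _ ≤ ‖c₀‖ + ‖t - c₀‖ := norm_add_le _ _
        _ ≤ _ := by linarith
    obtain ⟨h1, D₀, h2, h3⟩ := hconv n hnn₂ t htK
    rw [← hxt] at h1 h2
    obtain ⟨h4, h5⟩ := hδ₁ t (lt_of_le_of_lt htc hδb)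
    have h6 : ‖n * α * (orb r n x J - y) - V‖ ≤ ‖V‖ / 10000 := by
      calc ‖n * α * (orb r n x J - y) - V‖ =
            ‖(n * α * (orb r n x J - y) - qo t J) + (qo t J - V)‖ := by ring_nf
        _ ≤ _ := norm_add_le _ _
        _ ≤ η + η := add_le_add h1 h4
        _ ≤ _ := by linarith
    have h7 : ‖D₀ - E‖ ≤ ‖E‖ / 10000 := by
      calc ‖D₀ - E‖ = ‖(D₀ - deriv (fun t => qo t J) t) + (deriv (fun t => qo t J) t - E)‖ := by
            ring_nf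
        _ ≤ _ := norm_add_le _ _
        _ ≤ η + η := add_le_add h3 h5
        _ ≤ _ := by linarith
    refine ⟨?_, ?_, D₀, h2, ?_, h7, h6⟩
    · have e1 : x - y = c₀ / (n * α) + (x - p) := by rw [hp]; ring
      rw [e1]
      calc ‖c₀ / (n * α) + (x - p)‖ ≤ ‖c₀ / (n * α)‖ + ‖x - p‖ := norm_add_le _ _
        _ ≤ ‖c₀‖ / (n * ‖α‖) + 2 * δ / n := by
            rw [norm_div, norm_mul, Complex.norm_natCast]
            gcongr
        _ ≤ ‖c₀‖ / (n * ‖α‖) + 1 / n := by gcongr; linarith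
        _ = _ := by field_simp
    · have h8 : ‖V‖ ≤ ‖n * α * (orb r n x J - y)‖ + ‖n * α * (orb r n x J - y) - V‖ := by
        calc ‖V‖ = ‖n * α * (orb r n x J - y) - (n * α * (orb r n x J - y) - V)‖ := by ring_nf
          _ ≤ _ := norm_sub_le _ _
      rw [norm_mul, norm_mul, Complex.norm_natCast] at h8
      rw [div_le_iff₀ hn0]
      have h9 : C₂ * ‖α‖ ≤ n * ‖α‖ * ‖orb r n x J - y‖ := by
        have : C₂ * ‖α‖ ≤ C₂ * (‖α‖ + 1) := by gcongr; linarith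
        nlinarith
      have h10 : C₂ * ‖α‖ ≤ ‖orb r n x J - y‖ * n * ‖α‖ := by linarith
      exact le_of_mul_le_mul_right h10 hαn
    · have h8 : ‖E‖ ≤ ‖D₀‖ + ‖D₀ - E‖ := by
        calc ‖E‖ = ‖D₀ - (D₀ - E)‖ := by ring_nf
          _ ≤ _ := norm_sub_le _ _
      have : C₂ ≤ C₂ * (‖α‖ + 1) := by nlinarith
      nlinarith
  have hc₃T : c₃ * ‖T₀‖ ≤ δ / n := by
    rw [hT₀n, mul_div_assoc']
    gcongr
  -- the estimate at the points
  have hpt : ∀ x ∈ Und r n ρ₀ ∩ closedBall p (δ / n), ∃ ρ : ℝ, 0 < ρ ∧ ρ ≤ 1 ∧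
      closedBall x ρ ⊆ closedBall p (2 * δ / n) ∧
      volume (Und r n ρ₀ ∩ closedBall x (5 * ρ)) ≤
        ENNReal.ofReal (4 / c₂ ^ 2 * CL * (Real.log n / n) * ρ ^ 2) := by
    rintro x ⟨hxU, hxp⟩
    have hballsub : closedBall x (c₃ * ‖T₀‖) ⊆ closedBall p (2 * δ / n) := by
      refine closedBall_subset_closedBall' ?_
      rw [mem_closedBall] at hxp
      calc c₃ * ‖T₀‖ + dist x p ≤ δ / n + δ / n := add_le_add hc₃T hxp
        _ = 2 * δ / n := by ring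
    have hxmem : x ∈ closedBall p (2 * δ / n) := hballsub (mem_closedBall_self (by positivity))
    have hu0 : 0 < ‖orb r n x J - y‖ := lt_of_lt_of_le (by positivity) (hreg x hxmem).2.1
    obtain ⟨k, G', ρ, h1, h2, h3, h4, h5⟩ := esc_point hld hG hn1 (J := J) hc₁ hc₃0 hc₃a hK0 hK
      hc₃b hc₃d hc₃e hc₅0 hc₅a hc₅b hLε hT₀0 hT₀n.le hxU hu0 hMn (fun z hz k hk => by
        obtain ⟨g1, g2, D₀, g3, g4, g5, g6⟩ := hreg z (hballsub hz)
        obtain ⟨q1, D, q2, q3⟩ := hnz2 n hnn₁ z J D₀ g1 g2 g3 g4 k hk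
        refine ⟨fun j hj => (q1 j hj).1, D, q2, ?_⟩
        have q4 := ratio_close (V := V) (E := E) (v := n * α * (orb r n z J - y)) (e := D₀)
          (D := D) (u := n * α * (orb r n z (J + k) - y)) (p := 2 ^ k) hEn hVn g6 g5 (by
            have e1 : n * α * (orb r n z J - y) * D - ((2 ^ k : ℝ) : ℂ) * D₀ *
                (n * α * (orb r n z (J + k) - y)) =
                n * α * ((orb r n z J - y) * D - 2 ^ k * D₀ * (orb r n z (J + k) - y)) := by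
              push_cast; ring
            rw [e1, norm_mul, norm_mul (n * α) (orb r n z (J + k) - y)]
            calc ‖(n : ℂ) * α‖ * ‖(orb r n z J - y) * D - 2 ^ k * D₀ *
                  (orb r n z (J + k) - y)‖
                ≤ ‖(n : ℂ) * α‖ * (1 / 1000 * 2 ^ k * ‖D₀‖ * ‖orb r n z (J + k) - y‖) := by
                  gcongr
              _ = _ := by ring) (by positivity)
        have e2 : T₀ * D - 2 ^ k * (orb r n z (J + k) - y) =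
            (V * D - ((2 ^ k : ℝ) : ℂ) * E * (n * α * (orb r n z (J + k) - y))) /
              (n * α * E) := by
          rw [hT₀]; push_cast; field_simp
        rw [e2, norm_div, div_le_iff₀ (by
          rw [norm_mul, norm_mul, Complex.norm_natCast]; positivity)]
        refine q4.trans (le_of_eq ?_)
        rw [norm_mul (n * α) (orb r n z (J + k) - y), norm_mul (n * α) E]
        ring)
    have hκ0 : 0 < ‖G' x‖ := by
      have h6 : 0 < ‖G' x‖ * ρ := lt_of_lt_of_le hc₂0 (by rw [hc₂]; exact h5)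
      exact (pos_iff_pos_of_mul_pos h6).2 h1
    refine ⟨ρ, h1, h3, ?_, ?_⟩
    · refine (closedBall_subset_closedBall ?_).trans hballsub
      linarith
    · have hsub510 : closedBall x (5 * ρ) ⊆ closedBall x (10 * ρ) :=
        closedBall_subset_closedBall (by linarith)
      have hA := (haff (fun t => orb r n t k) G' x (5 * ρ) (by positivity)
        (norm_pos_iff.1 hκ0) (fun z hz =>
        ⟨(h4 z (hsub510 hz)).1, (h4 z (hsub510 hz)).2.trans (by linarith)⟩)).1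
        (lev r ρ₀ (2 * Real.log ρ₀⁻¹ / n))
      have hincl : Und r n ρ₀ ∩ closedBall x (5 * ρ) ⊆
          closedBall x (5 * ρ) ∩ (fun t => orb r n t k) ⁻¹' lev r ρ₀ (2 * Real.log ρ₀⁻¹ / n) := by
        rintro z ⟨hz1, hz2⟩
        exact ⟨hz2, und_lev hρ hn1 hz1 k⟩
      have hlev' : volume (lev r ρ₀ (2 * Real.log ρ₀⁻¹ / n)) ≤
          ENNReal.ofReal (CL * (Real.log n / n)) :=
        (measure_mono (lev_mono (by positivity) (by linarith) le_rfl)).trans (hlev n hnn₃)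
      refine (measure_mono hincl).trans (hA.trans ((mul_le_mul' le_rfl hlev').trans ?_))
      rw [← ENNReal.ofReal_mul (by positivity)]
      apply ENNReal.ofReal_le_ofReal
      have hκi : 4 / ‖G' x‖ ^ 2 ≤ 4 / c₂ ^ 2 * ρ ^ 2 := by
        rw [div_mul_eq_mul_div, div_le_div_iff₀ (by positivity) (by positivity)]
        have h7 : c₂ ≤ ‖G' x‖ * ρ := by rw [hc₂]; exact h5
        have : c₂ ^ 2 ≤ (‖G' x‖ * ρ) ^ 2 := by gcongr
        nlinarith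
      calc 4 / ‖G' x‖ ^ 2 * (CL * (Real.log n / n)) ≤
            4 / c₂ ^ 2 * ρ ^ 2 * (CL * (Real.log n / n)) := by gcongr
        _ = _ := by ring
  choose! ρ hρ1 hρ2 hρ3 hρ4 using hpt
  have hVit := hvit (ENNReal.ofReal (4 / c₂ ^ 2 * CL * (Real.log n / n)) • (volume : Measure ℂ))
    (Und r n ρ₀ ∩ closedBall p (δ / n)) (Und r n ρ₀) ρ 1
    (fun x hx => ⟨hρ1 x hx, hρ2 x hx⟩) (fun x hx => by
      refine (hρ4 x hx).trans ?_
      rw [Measure.smul_apply, smul_eq_mul, vol_ball x (hρ1 x hx).le,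
        ← ENNReal.ofReal_mul (by positivity)]
      apply ENNReal.ofReal_le_ofReal
      apply mul_le_mul_of_nonneg_left _ (by positivity)
      nlinarith [sq_nonneg (ρ x)])
  have hunion : (⋃ x ∈ Und r n ρ₀ ∩ closedBall p (δ / n), closedBall x (ρ x)) ⊆
      closedBall p (2 * δ / n) := iUnion₂_subset hρ3
  have e1 : Und r n ρ₀ ∩ (Und r n ρ₀ ∩ closedBall p (δ / n)) =
      Und r n ρ₀ ∩ closedBall p (δ / n) := by
    rw [← inter_assoc, inter_self]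
  rw [e1] at hVit
  refine hVit.trans ?_
  rw [Measure.smul_apply, smul_eq_mul]
  refine (mul_le_mul' le_rfl (measure_mono hunion)).trans ?_
  rw [vol_ball p (by positivity), ← ENNReal.ofReal_mul (by positivity)]
  apply ENNReal.ofReal_le_ofReal
  apply le_of_eq
  field_simp

end Pool.Agent.K3h20.CR
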