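import Pool.Agent.K3h20.CR.StmD
import Pool.Agent.K3h20.CR.AN3

/-!
# Project CR: assembly, part 1
-/

set_option autoImplicit false

open Set Filter Topology MeasureTheory Metric

namespace Pool.Agent.K3h20.CR

open Pool.Agent.H762R2.Rt

/-- A finite set has no points just outside an interval. -/
theorem gap_of_finite {F : Set ℝ} (hF : F.Finite) (a b : ℝ) :
    ∃ δ : ℝ, 0 < δ ∧ ∀ t ∈ F, a - δ ≤ t → t ≤ b + δ → a ≤ t ∧ t ≤ b := by
  induction F, hF using Set.Finite.induction_on with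
  | empty => exact ⟨1, one_pos, fun t ht => absurd ht (Set.notMem_empty t)⟩
  | @insert t₀ F _ _ ih =>
    obtain ⟨δ, hδ, h⟩ := ih
    obtain ⟨δ', hδ', h'⟩ : ∃ δ' : ℝ, 0 < δ' ∧ (a - δ' ≤ t₀ → t₀ ≤ b + δ' → a ≤ t₀ ∧ t₀ ≤ b) := by
      by_cases h1 : a ≤ t₀
      · by_cases h2 : t₀ ≤ b
        · exact ⟨1, one_pos, fun _ _ => ⟨h1, h2⟩⟩
        · push Not at h2
          exact ⟨(t₀ - b) / 2, by linarith, fun _ h3 => by linarith⟩
      · push Not at h1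
        exact ⟨(a - t₀) / 2, by linarith, fun h3 _ => by linarith⟩
    refine ⟨min δ δ', lt_min hδ hδ', ?_⟩
    intro t ht h1 h2
    have m1 := min_le_left δ δ'
    have m2 := min_le_right δ δ'
    rcases Set.mem_insert_iff.1 ht with rfl | ht
    · exact h' (by linarith) (by linarith)
    · exact h t ht (by linarith) (by linarith)

/-- Powers of a ratio different from one leave a compact annulus. -/
theorem pow_leaves {q : ℝ} (hq0 : 0 < q) (hq1 : q ≠ 1) {ρ : ℝ} (hρ : 0 < ρ) :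
    ∃ n₀ : ℕ, ∀ n : ℕ, n₀ ≤ n → q ^ n < ρ ∨ ρ⁻¹ < q ^ n := by
  rcases lt_or_gt_of_ne hq1 with h | h
  · obtain ⟨n₀, hn₀⟩ := eventually_atTop.1
      ((tendsto_pow_atTop_nhds_zero_of_lt_one hq0.le h).eventually_lt_const hρ)
    exact ⟨n₀, fun n hn => Or.inl (hn₀ n hn)⟩
  · obtain ⟨n₀, hn₀⟩ := eventually_atTop.1
      ((tendsto_pow_atTop_atTop_of_one_lt h).eventually_gt_atTop ρ⁻¹)
    exact ⟨n₀, fun n hn => Or.inr (hn₀ n hn)⟩

/-- A critical value of modulus off the annulus is decided at once. -/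
theorem not_live {a b : ℝ} (ha : 0 < a) {m : ℝ} (hm : 0 < m) (h : b * m < 1 ∨ 1 < a * m)
    {ρ : ℝ} (hρ : 0 < ρ) : ∃ n₀ : ℕ, ∀ n : ℕ, n₀ ≤ n → ∀ t : ℝ, a ≤ t → t ≤ b →
      (t * m) ^ n < ρ ∨ ρ⁻¹ < (t * m) ^ n := by
  rcases h with h | h
  · rcases lt_or_ge b a with hba | hba
    · exact ⟨0, fun n _ t h1 h2 => by linarith⟩
    have hb : 0 < b := lt_of_lt_of_le ha hba
    obtain ⟨n₀, hn₀⟩ := eventually_atTop.1
      ((tendsto_pow_atTop_nhds_zero_of_lt_one (by positivity) h).eventually_lt_const hρ)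
    refine ⟨n₀, fun n hn t h1 h2 => Or.inl ?_⟩
    refine lt_of_le_of_lt ?_ (hn₀ n hn)
    have : 0 < t := by linarith
    gcongr
  · obtain ⟨n₀, hn₀⟩ := eventually_atTop.1
      ((tendsto_pow_atTop_atTop_of_one_lt h).eventually_gt_atTop ρ⁻¹)
    refine ⟨n₀, fun n hn t h1 _ => Or.inr (lt_of_lt_of_le (hn₀ n hn) ?_)⟩
    gcongr

/-- Moving `s` so that `(s v) ^ n` takes a given value. -/
theorem move {ρ₀ C : ℝ} (hρ : 0 < ρ₀) (hC : 0 < C) : ∃ n₀ : ℕ, ∀ n : ℕ, n₀ ≤ n → ∀ s v x' : ℂ,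
    ρ₀ ≤ ‖(s * v) ^ n‖ → ‖x' - (s * v) ^ n‖ ≤ C / n →
    ∃ s' : ℂ, (s' * v) ^ n = x' ∧ ‖s' - s‖ ≤ ‖s‖ * (4 * C / ρ₀) / n ^ 2 := by
  obtain ⟨n₁, hn₁⟩ := exists_nat_ge (4 * C / ρ₀)
  refine ⟨max n₁ 1, ?_⟩
  intro n hn s v x' h1 h2
  have hn1 : 1 ≤ n := (le_max_right _ _).trans hn
  have hn0 : (0 : ℝ) < n := by exact_mod_cast hn1
  have hn1' : (1 : ℝ) ≤ n := by exact_mod_cast hn1
  have hnn₁ : 4 * C / ρ₀ ≤ n := hn₁.trans (by exact_mod_cast (le_max_left _ _).trans hn)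
  obtain ⟨x, hx⟩ : ∃ x, x = (s * v) ^ n := ⟨_, rfl⟩
  rw [← hx] at h1 h2
  have hxn : 0 < ‖x‖ := by linarith
  have hx0 : x ≠ 0 := norm_pos_iff.1 hxn
  obtain ⟨η, hη⟩ : ∃ η : ℂ, η = x' / x - 1 := ⟨_, rfl⟩
  have hηn : ‖η‖ ≤ C / (ρ₀ * n) := by
    have e1 : η = (x' - x) / x := by rw [hη]; field_simp
    rw [e1, norm_div, div_le_iff₀ hxn]
    refine h2.trans ?_
    calc C / n = C / (ρ₀ * n) * ρ₀ := by field_simp
      _ ≤ _ := by gcongr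
  have hη4 : C / (ρ₀ * n) ≤ 1 / 4 := by
    rw [div_le_iff₀ (by positivity)]
    rw [div_le_iff₀ hρ] at hnn₁
    linarith
  have hη1 : ‖η‖ ≤ 1 / 2 := by linarith
  have hη1' : 1 + η ≠ 0 := by
    intro h
    have : ‖η‖ = 1 := by
      rw [show η = -1 by linear_combination h, norm_neg, norm_one]
    linarith
  obtain ⟨ζ, hζ⟩ : ∃ ζ : ℂ, ζ = Complex.log (1 + η) / n := ⟨_, rfl⟩
  have hlog : ‖Complex.log (1 + η)‖ ≤ 3 / 2 * ‖η‖ :=
    Complex.norm_log_one_add_half_le_self hη1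
  have hζn : ‖ζ‖ ≤ 3 / 2 * (C / (ρ₀ * n)) / n := by
    rw [hζ, norm_div, Complex.norm_natCast]
    gcongr
    exact hlog.trans (by gcongr)
  have hζ1 : ‖ζ‖ ≤ 1 := by
    refine hζn.trans ?_
    rw [div_le_iff₀ hn0]
    linarith
  refine ⟨s * Complex.exp ζ, ?_, ?_⟩
  · have e1 : (s * Complex.exp ζ * v) ^ n = (s * v) ^ n * Complex.exp ζ ^ n := by
      rw [← mul_pow]; ring
    have hnc : (n : ℂ) ≠ 0 := by exact_mod_cast hn0.ne'
    rw [e1, ← Complex.exp_nat_mul, hζ, mul_div_cancel₀ _ hnc, Complex.exp_log hη1', ← hx, hη]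
    field_simp
    ring
  · have e1 : s * Complex.exp ζ - s = s * (Complex.exp ζ - 1) := by ring
    rw [e1, norm_mul]
    have h5 : ‖Complex.exp ζ - 1‖ ≤ 2 * ‖ζ‖ := Complex.norm_exp_sub_one_le hζ1
    calc ‖s‖ * ‖Complex.exp ζ - 1‖ ≤ ‖s‖ * (2 * (3 / 2 * (C / (ρ₀ * n)) / n)) := by
          gcongr
          exact h5.trans (by gcongr)
      _ = ‖s‖ * (3 * C / ρ₀) / n ^ 2 := by field_simp
      _ ≤ ‖s‖ * (4 * C / ρ₀) / n ^ 2 := by gcongr; norm_num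

end Pool.Agent.K3h20.CR
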