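import Pool.Agent.K3h20.CR.Stm
import Pool.Agent.H762R2.RtD

/-!
# Project CR (MP_8f2e1c_an, owner helper20): the bricks on rational maps
-/

set_option autoImplicit false

open Set Filter Topology MeasureTheory Metric

namespace Pool.Agent.K3h20.CR

open Pool.Agent.H762R2.Rt

/-- `R / R(y)`, `R = P / Q` -/
noncomputable def rr (P Q : Polynomial ℂ) (y w : ℂ) : ℂ :=
  (P.eval w / Q.eval w) / (P.eval y / Q.eval y)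

/-- the logarithmic derivative of `P / Q` -/
noncomputable def gg (P Q : Polynomial ℂ) (w : ℂ) : ℂ :=
  (wro P Q).eval w / (P.eval w * Q.eval w)

/-- DAT: the rational map gives the data of the analytic part. -/
def St_dat : Prop := ∀ P Q : Polynomial ℂ, IsCoprime P Q → ∀ y : ℂ, y ≠ 0 →
  P.eval y ≠ 0 → Q.eval y ≠ 0 → (wro P Q).eval y = 0 →
  (Polynomial.derivative (wro P Q)).eval y ≠ 0 →
  (∀ y' : ℂ, (wro P Q).eval y' = 0 →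
    ‖P.eval y'‖ * ‖Q.eval y‖ = ‖P.eval y‖ * ‖Q.eval y'‖ → y' = y) →
  ∀ ρ₀ : ℝ, 0 < ρ₀ → ρ₀ < 1 → ∃ (a : ℂ) (ε d B c : ℝ),
    Near (rr P Q y) (gg P Q) y a d B ∧ Good (rr P Q y) (gg P Q) y ρ₀ ε d B c

/-- DYN: hyperbolicity of `s P(z ^ n) / Q(z ^ n)`, if the orbit of every critical point is
decided. -/
def St_dyn : Prop := ∀ P Q : Polynomial ℂ, IsCoprime P Q → ∀ D : ℕ,
  D = max P.natDegree Q.natDegree → 1 ≤ D → ∀ a b : ℝ, 0 < a → a ≤ b →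
  (∀ t : ℝ, a ≤ t → t ≤ b → t * ‖P.coeff 0‖ ≠ ‖Q.coeff 0‖ ∧ t * ‖P.coeff D‖ ≠ ‖Q.coeff D‖) →
  ∃ ρ₀ : ℝ, 0 < ρ₀ ∧ ρ₀ < 1 ∧ ∃ n₀ : ℕ, ∀ n : ℕ, n₀ ≤ n → ∀ s : ℂ, a ≤ ‖s‖ → ‖s‖ ≤ b →
  (∀ y : ℂ, (wro P Q).eval y = 0 → P.eval y ≠ 0 → Q.eval y ≠ 0 →
    (s * (P.eval y / Q.eval y)) ^ n ∉ Und (rr P Q y) n ρ₀) →
  Hyp (Polynomial.C s * Polynomial.expand ℂ n P) (Polynomial.expand ℂ n Q)

end Pool.Agent.K3h20.CR
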