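import Pool.Agent.K3h20.CR.Fin1
import Pool.Agent.K3h37.CR.Vit
import Pool.Agent.K3h21.CR.LdAff
import Pool.Agent.K3h21.CR.Lev
import Pool.Agent.K3h65.CR.Out
import Pool.Agent.K3h76.CR.NzMain
import Pool.Agent.K3h34.CR.TR
import Pool.Agent.K3h74.CR.Dat
import Pool.Agent.K3h23.CR.Dyn

/-!
# Project CR: assembly, part 2
-/

set_option autoImplicit false

open Set Filter Topology MeasureTheory Metric

namespace Pool.Agent.K3h20.CR

open Pool.Agent.H762R2.Rt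

theorem an_holds : St_an :=
  t_an Pool.Agent.K3h37.CR.t_vit Pool.Agent.K3h21.CR.t_ld Pool.Agent.K3h21.CR.t_aff
    Pool.Agent.K3h21.CR.t_lev Pool.Agent.K3h76.CR.t_nz

theorem di_holds : St_di :=
  t_di Pool.Agent.K3h21.CR.t_ld Pool.Agent.K3h21.CR.t_aff
    (Pool.Agent.K3h65.CR.t_out Pool.Agent.K3h21.CR.t_ld) Pool.Agent.K3h76.CR.t_nz

/-- An eventual statement over a finite set. -/
theorem eventually_finite {ι : Type*} {Y : Set ι} (hY : Y.Finite) {p : ι → ℕ → Prop}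
    (h : ∀ y ∈ Y, ∃ n₀ : ℕ, ∀ n : ℕ, n₀ ≤ n → p y n) :
    ∃ n₀ : ℕ, ∀ n : ℕ, n₀ ≤ n → ∀ y ∈ Y, p y n := by
  choose! f hf using h
  obtain ⟨N, hN⟩ := (hY.image f).bddAbove
  exact ⟨N, fun n hn y hy => hf y hy n ((hN (mem_image_of_mem f hy)).trans hn)⟩

theorem sum_bound {ι : Type*} {Y : Set ι} (hY : Y.Finite) (K : ι → ℝ) :
    ∃ C : ℝ, 0 < C ∧ ∀ y ∈ Y, K y ≤ C := by
  obtain ⟨N, hN⟩ := (hY.image K).bddAbove
  exact ⟨max N 1, by positivity, fun y hy => (hN (mem_image_of_mem K hy)).trans (le_max_left _ _)⟩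

/-- The critical points of `P / Q` whose critical values have the modulus `1 / t`, `t ∈ [a, b]`. -/
def live (P Q : Polynomial ℂ) (a b : ℝ) : Set ℂ :=
  {y | (wro P Q).eval y = 0 ∧ a * ‖P.eval y‖ ≤ ‖Q.eval y‖ ∧ ‖Q.eval y‖ ≤ b * ‖P.eval y‖}

theorem both_ne {P Q : Polynomial ℂ} (hc : IsCoprime P Q) (y : ℂ) :
    P.eval y ≠ 0 ∨ Q.eval y ≠ 0 := by
  obtain ⟨u, v, huv⟩ := hc
  by_contra hcon
  push Not at hcon
  have := congrArg (Polynomial.eval y) huv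
  rw [Polynomial.eval_add, Polynomial.eval_mul, Polynomial.eval_mul, hcon.1, hcon.2] at this
  simp at this

theorem live_ne {P Q : Polynomial ℂ} (hc : IsCoprime P Q) {a b : ℝ} (ha : 0 < a) {y : ℂ}
    (hy : y ∈ live P Q a b) : P.eval y ≠ 0 ∧ Q.eval y ≠ 0 := by
  obtain ⟨-, h1, h2⟩ := hy
  have hP : P.eval y ≠ 0 := by
    intro h
    rw [h, norm_zero, mul_zero] at h2
    exact (both_ne hc y).elim (fun h' => h' h) (fun h' => h' (norm_le_zero_iff.1 h2))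
  refine ⟨hP, fun h => ?_⟩
  rw [h, norm_zero] at h1
  have := norm_pos_iff.2 hP
  nlinarith [mul_pos ha this]

theorem main {P Q : Polynomial ℂ} (hc : IsCoprime P Q) {D : ℕ}
    (hD : D = max P.natDegree Q.natDegree) (hD1 : 1 ≤ D) {a b : ℝ} (ha : 0 < a) (hab : a ≤ b)
    (h0 : ∀ t : ℝ, a ≤ t → t ≤ b → t * ‖P.coeff 0‖ ≠ ‖Q.coeff 0‖ ∧ t * ‖P.coeff D‖ ≠ ‖Q.coeff D‖)
    (hsimple : ∀ y ∈ live P Q a b, (Polynomial.derivative (wro P Q)).eval y ≠ 0)
    (hdist : ∀ y ∈ live P Q a b, ∀ y' : ℂ, (wro P Q).eval y' = 0 →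
      ‖P.eval y'‖ * ‖Q.eval y‖ = ‖P.eval y‖ * ‖Q.eval y'‖ → y' = y) :
    ∃ C : ℝ, 0 < C ∧ ∃ n₀ : ℕ, ∀ n : ℕ, n₀ ≤ n →
      volume {s : ℂ | a ≤ ‖s‖ ∧ ‖s‖ ≤ b ∧
        ¬ Hyp (Polynomial.C s * Polynomial.expand ℂ n P) (Polynomial.expand ℂ n Q)} ≤
        ENNReal.ofReal (C / n ^ 3) ∧
      ∀ s : ℂ, a ≤ ‖s‖ → ‖s‖ ≤ b → ∃ s' : ℂ, ‖s' - s‖ ≤ C / n ^ 2 ∧
        Hyp (Polynomial.C s' * Polynomial.expand ℂ n P) (Polynomial.expand ℂ n Q) := by
  have hb : 0 < b := lt_of_lt_of_le ha hab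
  have hwro : wro P Q ≠ 0 := wro_ne_zero hc (by rw [← hD]; exact hD1)
  -- the critical points
  obtain ⟨Z, hZ⟩ : ∃ Z : Set ℂ, Z = {y | (wro P Q).eval y = 0} := ⟨_, rfl⟩
  have hZfin : Z.Finite := by
    rw [hZ]
    refine (wro P Q).roots.toFinset.finite_toSet.subset fun y hy => ?_
    simpa [Polynomial.mem_roots hwro] using hy
  obtain ⟨F, hF⟩ : ∃ F : Set ℝ, F = insert (‖Q.coeff 0‖ / ‖P.coeff 0‖)
      (insert (‖Q.coeff D‖ / ‖P.coeff D‖) ((fun y => ‖Q.eval y‖ / ‖P.eval y‖) '' Z)) := ⟨_, rfl⟩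
  have hFfin : F.Finite := by
    rw [hF]
    exact ((hZfin.image _).insert _).insert _
  obtain ⟨δ, hδ, hgap⟩ := gap_of_finite hFfin a b
  obtain ⟨a', ha'⟩ : ∃ a' : ℝ, a' = a - min δ (a / 2) := ⟨_, rfl⟩
  have ham : 0 < min δ (a / 2) := lt_min hδ (by linarith)
  have ha'0 : 0 < a' := by rw [ha']; linarith [min_le_right δ (a / 2)]
  have ha'a : a' < a := by rw [ha']; linarith
  have ha'δ : a - δ ≤ a' := by rw [ha']; linarith [min_le_left δ (a / 2)]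
  obtain ⟨b', hb'⟩ : ∃ b' : ℝ, b' = b + δ := ⟨_, rfl⟩
  have hbb' : b < b' := by rw [hb']; linarith
  have hcc : ∀ p q : ℂ, (p ≠ 0 ∨ q ≠ 0) → ‖q‖ / ‖p‖ ∈ F →
      (∀ t, a ≤ t → t ≤ b → t * ‖p‖ ≠ ‖q‖) → ∀ t, a' ≤ t → t ≤ b' → t * ‖p‖ ≠ ‖q‖ := by
    intro p q hpq hmem h t ht1 ht2 heq
    by_cases hp : p = 0
    · rw [hp, norm_zero, mul_zero] at heq
      exact hpq.elim (fun h' => h' hp) (fun h' => h' (norm_eq_zero.1 heq.symm))
    · have hp' : 0 < ‖p‖ := norm_pos_iff.2 hp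
      have e1 : ‖q‖ / ‖p‖ = t := by rw [← heq]; field_simp
      rw [e1] at hmem
      obtain ⟨h1, h2⟩ := hgap t hmem (by linarith) (by linarith)
      exact h t h1 h2 heq
  have hcoef0 : P.coeff 0 ≠ 0 ∨ Q.coeff 0 ≠ 0 := by
    rw [Polynomial.coeff_zero_eq_eval_zero, Polynomial.coeff_zero_eq_eval_zero]
    exact both_ne hc 0
  have hcoefD : P.coeff D ≠ 0 ∨ Q.coeff D ≠ 0 := by
    rcases max_choice P.natDegree Q.natDegree with h | h
    · left
      rw [hD, h]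
      have hP0 : P ≠ 0 := by
        rintro rfl
        rw [Polynomial.natDegree_zero] at h
        rw [hD, Polynomial.natDegree_zero, h] at hD1
        omega
      exact Polynomial.leadingCoeff_ne_zero.2 hP0
    · right
      rw [hD, h]
      have hQ0 : Q ≠ 0 := by
        rintro rfl
        rw [Polynomial.natDegree_zero] at h
        rw [hD, Polynomial.natDegree_zero, h] at hD1
        omega
      exact Polynomial.leadingCoeff_ne_zero.2 hQ0
  have h0' : ∀ t : ℝ, a' ≤ t → t ≤ b' →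
      t * ‖P.coeff 0‖ ≠ ‖Q.coeff 0‖ ∧ t * ‖P.coeff D‖ ≠ ‖Q.coeff D‖ := by
    intro t ht1 ht2
    exact ⟨hcc _ _ hcoef0 (by rw [hF]; exact mem_insert _ _) (fun t h1 h2 => (h0 t h1 h2).1) t
      ht1 ht2, hcc _ _ hcoefD (by rw [hF]; exact mem_insert_of_mem _ (mem_insert _ _))
      (fun t h1 h2 => (h0 t h1 h2).2) t ht1 ht2⟩
  obtain ⟨ρ₀, hρ, hρ1, n₁, hdyn⟩ :=
    Pool.Agent.K3h23.CR.t_dyn P Q hc D hD hD1 a' b' ha'0 (by linarith) h0'
  have hinv : 1 < ρ₀⁻¹ := (one_lt_inv₀ hρ).2 hρ1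
  -- the critical values off the annulus
  have hdead : ∀ y ∈ Z, y ∉ live P Q a b → P.eval y ≠ 0 → Q.eval y ≠ 0 → ∃ n₀ : ℕ, ∀ n : ℕ,
      n₀ ≤ n → ∀ s : ℂ, a' ≤ ‖s‖ → ‖s‖ ≤ b' →
      (s * (P.eval y / Q.eval y)) ^ n ∉ Und (rr P Q y) n ρ₀ := by
    intro y hy hyl hP hQ
    have hP' : 0 < ‖P.eval y‖ := norm_pos_iff.2 hP
    have hQ' : 0 < ‖Q.eval y‖ := norm_pos_iff.2 hQ
    have hv : 0 < ‖P.eval y / Q.eval y‖ := by rw [norm_div]; positivity
    have hdich : b' * ‖P.eval y / Q.eval y‖ < 1 ∨ 1 < a' * ‖P.eval y / Q.eval y‖ := by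
      by_contra hcon
      push Not at hcon
      obtain ⟨h1, h2⟩ := hcon
      rw [norm_div] at h1 h2
      have h3 : ‖Q.eval y‖ / ‖P.eval y‖ ≤ b + δ := by
        rw [div_le_iff₀ hP', ← hb']
        rw [mul_div_assoc', le_div_iff₀ hQ'] at h1
        linarith
      have h4 : a - δ ≤ ‖Q.eval y‖ / ‖P.eval y‖ := by
        rw [le_div_iff₀ hP']
        rw [mul_div_assoc', div_le_iff₀ hQ'] at h2
        nlinarith
      obtain ⟨h5, h6⟩ := hgap _ (by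
        rw [hF]
        exact mem_insert_of_mem _ (mem_insert_of_mem _ (mem_image_of_mem _ hy))) h4 h3
      apply hyl
      rw [le_div_iff₀ hP'] at h5
      rw [div_le_iff₀ hP'] at h6
      rw [hZ] at hy
      exact ⟨hy, h5, h6⟩
    obtain ⟨n₀, hn₀⟩ := not_live ha'0 hv hdich hρ
    refine ⟨n₀, fun n hn s hs1 hs2 hU => ?_⟩
    obtain ⟨h1, h2⟩ := hU 0
    have e0 : orb (rr P Q y) n ((s * (P.eval y / Q.eval y)) ^ n) 0 =
      (s * (P.eval y / Q.eval y)) ^ n := rfl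
    rw [e0, norm_pow, norm_mul] at h1 h2
    rcases hn₀ n hn ‖s‖ hs1 hs2 with h3 | h3 <;> linarith
  -- uniformly
  obtain ⟨n₂, hdead'⟩ := eventually_finite hZfin
    (p := fun y n => y ∉ live P Q a b → P.eval y ≠ 0 → Q.eval y ≠ 0 → ∀ s : ℂ, a' ≤ ‖s‖ →
      ‖s‖ ≤ b' → (s * (P.eval y / Q.eval y)) ^ n ∉ Und (rr P Q y) n ρ₀) (by
      intro y hy
      by_cases h : y ∉ live P Q a b ∧ P.eval y ≠ 0 ∧ Q.eval y ≠ 0
      · obtain ⟨n₀, hn₀⟩ := hdead y hy h.1 h.2.1 h.2.2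
        exact ⟨n₀, fun n hn _ _ _ => hn₀ n hn⟩
      · exact ⟨0, fun n _ h1 h2 h3 => absurd ⟨h1, h2, h3⟩ h⟩)
  -- the live critical points
  have hliveZ : live P Q a b ⊆ Z := by
    intro y hy
    rw [hZ]
    exact hy.1
  have hLfin : (live P Q a b).Finite := hZfin.subset hliveZ
  have hlive0 : ∀ y ∈ live P Q a b, y ≠ 0 := by
    rintro y hy rfl
    obtain ⟨hP, hQ⟩ := live_ne hc ha hy
    obtain ⟨-, h1, h2⟩ := hy
    have hP' : 0 < ‖P.eval 0‖ := norm_pos_iff.2 hP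
    have h3 := (h0 (‖Q.eval 0‖ / ‖P.eval 0‖) (by rw [le_div_iff₀ hP']; exact h1)
      (by rw [div_le_iff₀ hP']; exact h2)).1
    rw [Polynomial.coeff_zero_eq_eval_zero, Polynomial.coeff_zero_eq_eval_zero] at h3
    exact h3 (by field_simp)
  have hdata : ∀ y ∈ live P Q a b, ∃ (A : ℂ) (ε d B c : ℝ),
      Near (rr P Q y) (gg P Q) y A d B ∧ Good (rr P Q y) (gg P Q) y ρ₀ ε d B c := by
    intro y hy
    obtain ⟨hP, hQ⟩ := live_ne hc ha hy
    exact Pool.Agent.K3h74.CR.t_dat P Q hc y (hlive0 y hy) hP hQ hy.1 (hsimple y hy)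
      (hdist y hy) ρ₀ hρ hρ1
  have harea : ∀ y ∈ live P Q a b, ∃ K : ℝ, 0 < K ∧ ∃ n₀ : ℕ, ∀ n : ℕ, n₀ ≤ n →
      volume {s : ℂ | (s * (P.eval y / Q.eval y)) ^ n ∈ Und (rr P Q y) n ρ₀} ≤
        ENNReal.ofReal (K / n ^ 3) := by
    intro y hy
    obtain ⟨hP, hQ⟩ := live_ne hc ha hy
    obtain ⟨A, ε, d, B, c, hN, hG⟩ := hdata y hy
    obtain ⟨C₁, hC₁, m₁, hm₁⟩ := an_holds _ _ _ _ _ _ _ _ _ hN hG
    obtain ⟨C₂, hC₂, m₂, hm₂⟩ := Pool.Agent.K3h34.CR.t_tr (P.eval y / Q.eval y) ρ₀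
      (div_ne_zero hP hQ) hρ hρ1
    refine ⟨C₂ * C₁, by positivity, max (max m₁ m₂) 1, ?_⟩
    intro n hn
    have hn1 : 1 ≤ n := (le_max_right _ _).trans hn
    have hn0 : (0 : ℝ) < n := by exact_mod_cast hn1
    have k1 := hm₁ n ((le_max_left _ _).trans ((le_max_left _ _).trans hn))
    have k2 := hm₂ n ((le_max_right _ _).trans ((le_max_left _ _).trans hn))
      (Und (rr P Q y) n ρ₀) (fun x hx => hx 0)
    refine k2.trans ((mul_le_mul' le_rfl k1).trans ?_)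
    rw [← ENNReal.ofReal_mul (by positivity)]
    apply ENNReal.ofReal_le_ofReal
    apply le_of_eq
    field_simp
  choose! K hK0 hK using harea
  obtain ⟨n₃, harea'⟩ := eventually_finite hLfin hK
  obtain ⟨C₁, hC₁, hC₁K⟩ := sum_bound hLfin K
  have hdi : ∀ y ∈ live P Q a b, ∃ K : ℝ, 0 < K ∧ ∃ n₀ : ℕ, ∀ n : ℕ, n₀ ≤ n →
      ∀ x : ℂ, ∃ x' : ℂ, ‖x' - x‖ ≤ K / n ∧ x' ∉ Und (rr P Q y) n ρ₀ := by
    intro y hy
    obtain ⟨A, ε, d, B, c, hN, hG⟩ := hdata y hy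
    exact di_holds _ _ _ _ _ _ _ _ _ hN hG
  choose! K' hK'0 hK' using hdi
  obtain ⟨n₄, hdi'⟩ := eventually_finite hLfin hK'
  obtain ⟨C₂, hC₂, hC₂K⟩ := sum_bound hLfin K'
  obtain ⟨n₅, hmove⟩ := move hρ hC₂
  -- two critical points are not live together
  obtain ⟨n₆, hpair⟩ := eventually_finite (hLfin.prod hLfin)
    (p := fun yy n => yy.1 ≠ yy.2 →
      (‖P.eval yy.2 / Q.eval yy.2‖ / ‖P.eval yy.1 / Q.eval yy.1‖) ^ n < ρ₀ ^ 2 / 2 ∨
      (ρ₀ ^ 2 / 2)⁻¹ < (‖P.eval yy.2 / Q.eval yy.2‖ / ‖P.eval yy.1 / Q.eval yy.1‖) ^ n) (by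
      rintro ⟨y, y'⟩ ⟨hy, hy'⟩
      simp only at hy hy' ⊢
      obtain ⟨hP, hQ⟩ := live_ne hc ha hy
      obtain ⟨hP', hQ'⟩ := live_ne hc ha hy'
      by_cases hyy : y = y'
      · exact ⟨0, fun n _ h => absurd hyy h⟩
      · have p1 := norm_pos_iff.2 hP
        have p2 := norm_pos_iff.2 hQ
        have p3 := norm_pos_iff.2 hP'
        have p4 := norm_pos_iff.2 hQ'
        obtain ⟨n₀, hn₀⟩ := pow_leaves
          (q := ‖P.eval y' / Q.eval y'‖ / ‖P.eval y / Q.eval y‖) (by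
            rw [norm_div, norm_div]; positivity) (by
            intro h
            apply hyy
            rw [norm_div, norm_div] at h
            refine (hdist y hy y' hy'.1 ?_).symm
            field_simp at h
            linarith) (ρ := ρ₀ ^ 2 / 2) (by positivity)
        exact ⟨n₀, fun n hn _ => hn₀ n hn⟩)
  obtain ⟨n₇, hn₇⟩ := exists_nat_ge (b * (4 * C₂ / ρ₀) / min (a - a') (b' - b))
  obtain ⟨n₈, hn₈⟩ := exists_nat_ge (2 * C₂ / ρ₀)
  have hcard : (0 : ℝ) ≤ hLfin.toFinset.card := Nat.cast_nonneg _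
  refine ⟨hLfin.toFinset.card * C₁ + b * (4 * C₂ / ρ₀), by positivity,
    max (max (max n₁ n₂) (max n₃ n₄)) (max (max n₅ n₆) (max (max n₇ n₈) 1)), ?_⟩
  intro n hn
  have hnn₁ : n₁ ≤ n := by omega
  have hnn₂ : n₂ ≤ n := by omega
  have hnn₃ : n₃ ≤ n := by omega
  have hnn₄ : n₄ ≤ n := by omega
  have hnn₅ : n₅ ≤ n := by omega
  have hnn₆ : n₆ ≤ n := by omega
  have hnn₇ : n₇ ≤ n := by omega
  have hnn₈ : n₈ ≤ n := by omega
  have hn1 : 1 ≤ n := by omega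
  have hn0 : (0 : ℝ) < n := by exact_mod_cast hn1
  have hn1' : (1 : ℝ) ≤ n := by exact_mod_cast hn1
  -- hyperbolicity from the live critical points
  have hhyp : ∀ s : ℂ, a' ≤ ‖s‖ → ‖s‖ ≤ b' →
      (∀ y ∈ live P Q a b, (s * (P.eval y / Q.eval y)) ^ n ∉ Und (rr P Q y) n ρ₀) →
      Hyp (Polynomial.C s * Polynomial.expand ℂ n P) (Polynomial.expand ℂ n Q) := by
    intro s hs1 hs2 hl
    refine hdyn n hnn₁ s hs1 hs2 fun y hy hP hQ => ?_
    by_cases hyl : y ∈ live P Q a b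
    · exact hl y hyl
    · exact hdead' n hnn₂ y (by rw [hZ]; exact hy) hyl hP hQ s hs1 hs2
  refine ⟨?_, ?_⟩
  · -- area
    have hsub : {s : ℂ | a ≤ ‖s‖ ∧ ‖s‖ ≤ b ∧
        ¬ Hyp (Polynomial.C s * Polynomial.expand ℂ n P) (Polynomial.expand ℂ n Q)} ⊆
        ⋃ y ∈ hLfin.toFinset, {s : ℂ | (s * (P.eval y / Q.eval y)) ^ n ∈ Und (rr P Q y) n ρ₀} := by
      rintro s ⟨hs1, hs2, hs3⟩
      by_contra hcon
      apply hs3
      refine hhyp s (by linarith) (by linarith) fun y hy hU => hcon ?_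
      rw [mem_iUnion₂]
      exact ⟨y, by simpa using hy, hU⟩
    refine (measure_mono hsub).trans ((measure_biUnion_finset_le _ _).trans ?_)
    calc ∑ y ∈ hLfin.toFinset,
          volume {s : ℂ | (s * (P.eval y / Q.eval y)) ^ n ∈ Und (rr P Q y) n ρ₀}
        ≤ ∑ y ∈ hLfin.toFinset, ENNReal.ofReal (C₁ / n ^ 3) := by
          refine Finset.sum_le_sum fun y hy => ?_
          have hy' : y ∈ live P Q a b := by simpa using hy
          refine (harea' n hnn₃ y hy').trans (ENNReal.ofReal_le_ofReal ?_)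
          have := hC₁K y hy'
          gcongr
      _ = ENNReal.ofReal (hLfin.toFinset.card * C₁ / n ^ 3) := by
          rw [Finset.sum_const, nsmul_eq_mul, ← ENNReal.ofReal_natCast,
            ← ENNReal.ofReal_mul (Nat.cast_nonneg _), mul_div_assoc]
      _ ≤ _ := by
          apply ENNReal.ofReal_le_ofReal
          gcongr
          have : 0 ≤ b * (4 * C₂ / ρ₀) := by positivity
          linarith
  · -- distance
    intro s hs1 hs2
    by_cases hl : ∀ y ∈ live P Q a b, (s * (P.eval y / Q.eval y)) ^ n ∉ Und (rr P Q y) n ρ₀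
    · exact ⟨s, by rw [sub_self, norm_zero]; positivity, hhyp s (by linarith) (by linarith) hl⟩
    push Not at hl
    obtain ⟨y, hy, hU⟩ := hl
    obtain ⟨hP, hQ⟩ := live_ne hc ha hy
    obtain ⟨x', hx'1, hx'2⟩ := hdi' n hnn₄ y hy ((s * (P.eval y / Q.eval y)) ^ n)
    have hx'1' : ‖x' - (s * (P.eval y / Q.eval y)) ^ n‖ ≤ C₂ / n := by
      refine hx'1.trans ?_
      have := hC₂K y hy
      gcongr
    obtain ⟨s', hs'1, hs'2⟩ := hmove n hnn₅ s (P.eval y / Q.eval y) x' (hU 0).1 hx'1'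
    have hs'3 : ‖s' - s‖ ≤ b * (4 * C₂ / ρ₀) / n ^ 2 := by
      refine hs'2.trans ?_
      gcongr
    have hmin : 0 < min (a - a') (b' - b) := lt_min (by linarith) (by linarith)
    have hs'4 : ‖s' - s‖ ≤ min (a - a') (b' - b) := by
      refine hs'3.trans ?_
      have k1 : b * (4 * C₂ / ρ₀) / min (a - a') (b' - b) ≤ n :=
        hn₇.trans (by exact_mod_cast hnn₇)
      rw [div_le_iff₀ hmin] at k1
      rw [div_le_iff₀ (by positivity)]
      have k2 : (n : ℝ) ≤ n ^ 2 := by nlinarith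
      calc b * (4 * C₂ / ρ₀) ≤ n * min (a - a') (b' - b) := k1
        _ ≤ n ^ 2 * min (a - a') (b' - b) := by gcongr
        _ = _ := by ring
    have hs'5 : a' ≤ ‖s'‖ := by
      have : ‖s‖ ≤ ‖s'‖ + ‖s' - s‖ := by
        calc ‖s‖ = ‖s' - (s' - s)‖ := by ring_nf
          _ ≤ _ := norm_sub_le _ _
      linarith [min_le_left (a - a') (b' - b)]
    have hs'6 : ‖s'‖ ≤ b' := by
      have : ‖s'‖ ≤ ‖s‖ + ‖s' - s‖ := by
        calc ‖s'‖ = ‖s + (s' - s)‖ := by ring_nf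
          _ ≤ _ := norm_add_le _ _
      linarith [min_le_right (a - a') (b' - b)]
    refine ⟨s', ?_, hhyp s' hs'5 hs'6 ?_⟩
    · refine hs'3.trans ?_
      gcongr
      have : 0 ≤ hLfin.toFinset.card * C₁ := by positivity
      linarith
    · intro y' hy'
      by_cases hyy : y = y'
      · rw [← hyy, hs'1]
        exact hx'2
      · intro hU'
        obtain ⟨hP', hQ'⟩ := live_ne hc ha hy'
        have hv : 0 < ‖P.eval y / Q.eval y‖ := norm_pos_iff.2 (div_ne_zero hP hQ)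
        -- the modulus of `x'`
        obtain ⟨g1, g2⟩ := hU 0
        have e0 : orb (rr P Q y) n ((s * (P.eval y / Q.eval y)) ^ n) 0 =
          (s * (P.eval y / Q.eval y)) ^ n := rfl
        rw [e0] at g1 g2
        have hC₂n : C₂ / n ≤ ρ₀ / 2 := by
          have k1 : 2 * C₂ / ρ₀ ≤ n := hn₈.trans (by exact_mod_cast hnn₈)
          rw [div_le_iff₀ hρ] at k1
          rw [div_le_iff₀ hn0]
          linarith
        have g3 : ρ₀ / 2 ≤ ‖x'‖ := by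
          have : ‖(s * (P.eval y / Q.eval y)) ^ n‖ ≤
              ‖x'‖ + ‖x' - (s * (P.eval y / Q.eval y)) ^ n‖ := by
            calc ‖(s * (P.eval y / Q.eval y)) ^ n‖ =
                ‖x' - (x' - (s * (P.eval y / Q.eval y)) ^ n)‖ := by ring_nf
              _ ≤ _ := norm_sub_le _ _
          linarith
        have g4 : ‖x'‖ ≤ 2 * ρ₀⁻¹ := by
          have : ‖x'‖ ≤ ‖(s * (P.eval y / Q.eval y)) ^ n‖ +
              ‖x' - (s * (P.eval y / Q.eval y)) ^ n‖ := by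
            calc ‖x'‖ = ‖(s * (P.eval y / Q.eval y)) ^ n +
                (x' - (s * (P.eval y / Q.eval y)) ^ n)‖ := by ring_nf
              _ ≤ _ := norm_add_le _ _
          linarith
        obtain ⟨g5, g6⟩ := hU' 0
        have e1 : orb (rr P Q y') n ((s' * (P.eval y' / Q.eval y')) ^ n) 0 =
          (s' * (P.eval y' / Q.eval y')) ^ n := rfl
        rw [e1] at g5 g6
        have e2 : ‖(s' * (P.eval y' / Q.eval y')) ^ n‖ = ‖x'‖ *
            (‖P.eval y' / Q.eval y'‖ / ‖P.eval y / Q.eval y‖) ^ n := by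
          rw [← hs'1, norm_pow, norm_pow, norm_mul, norm_mul, ← mul_pow]
          congr 1
          field_simp
        rw [e2] at g5 g6
        have hx'0 : 0 < ‖x'‖ := by linarith
        rcases hpair n hnn₆ (y, y') ⟨hy, hy'⟩ hyy with h | h
        · simp only at h
          have : ‖x'‖ * (‖P.eval y' / Q.eval y'‖ / ‖P.eval y / Q.eval y‖) ^ n < ρ₀ := by
            calc ‖x'‖ * (‖P.eval y' / Q.eval y'‖ / ‖P.eval y / Q.eval y‖) ^ n
                < ‖x'‖ * (ρ₀ ^ 2 / 2) := by gcongr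
              _ ≤ 2 * ρ₀⁻¹ * (ρ₀ ^ 2 / 2) := by gcongr
              _ = ρ₀ := by field_simp
          linarith
        · simp only at h
          have : ρ₀⁻¹ < ‖x'‖ * (‖P.eval y' / Q.eval y'‖ / ‖P.eval y / Q.eval y‖) ^ n := by
            calc ρ₀⁻¹ = ρ₀ / 2 * (ρ₀ ^ 2 / 2)⁻¹ := by field_simp
              _ ≤ ‖x'‖ * (ρ₀ ^ 2 / 2)⁻¹ := by gcongr
              _ < _ := by gcongr
          linarith

end Pool.Agent.K3h20.CR
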