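import Pool.Agent.K3h20.CR.AN4
import Pool.Agent.K3h20.CR.ESC3
import Pool.Agent.K3h20.CR.Fin2

/-!
# Project CR2: the limit of the area, one critical point
-/

set_option autoImplicit false

open Set Filter Topology MeasureTheory Metric

namespace Pool.Agent.K3h20.CR

open Pool.Agent.H762R2.Rt

/-- The quadratic parameters that are not hyperbolic. -/
def QN : Set ℂ := {c | ¬ (QEsc c ∨ QAtt c)}

theorem esc_of_large {c : ℂ} (hc : 2 < ‖c‖) : QEsc c := by
  obtain ⟨q, hq⟩ : ∃ q : ℝ, q = ‖c‖ - 1 := ⟨_, rfl⟩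
  have hq1 : 1 < q := by rw [hq]; linarith
  have h1 : ∀ k : ℕ, ‖c‖ ≤ ‖(fun z : ℂ => z ^ 2 + c)^[k + 1] 0‖ ∧
      q ^ k ≤ ‖(fun z : ℂ => z ^ 2 + c)^[k + 1] 0‖ := by
    intro k
    induction k with
    | zero => simp; linarith
    | succ k ih =>
      rw [Function.iterate_succ_apply']
      obtain ⟨h2, h3⟩ := ih
      obtain ⟨z, hz⟩ : ∃ z : ℂ, z = (fun z : ℂ => z ^ 2 + c)^[k + 1] 0 := ⟨_, rfl⟩
      rw [← hz] at h2 h3 ⊢
      have h4 : ‖z‖ ^ 2 ≤ ‖z ^ 2 + c‖ + ‖c‖ := by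
        calc ‖z‖ ^ 2 = ‖(z ^ 2 + c) - c‖ := by rw [add_sub_cancel_right, norm_pow]
          _ ≤ _ := norm_sub_le _ _
      have h5 : q * ‖z‖ ≤ ‖z ^ 2 + c‖ := by
        have : q * ‖z‖ ≤ ‖z‖ ^ 2 - ‖c‖ := by
          rw [hq]
          nlinarith [norm_nonneg z]
        linarith
      refine ⟨?_, ?_⟩
      · nlinarith [norm_nonneg z]
      · calc q ^ (k + 1) = q * q ^ k := by ring
          _ ≤ q * ‖z‖ := by gcongr
          _ ≤ _ := h5
  unfold QEsc
  rw [← tendsto_add_atTop_iff_nat 1]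
  exact tendsto_atTop_mono (fun k => (h1 k).2) (tendsto_pow_atTop_atTop_of_one_lt hq1)

theorem QN_sub : QN ⊆ closedBall 0 2 := by
  intro c hc
  rw [mem_closedBall_zero_iff]
  by_contra h
  exact hc (Or.inl (esc_of_large (not_le.1 h)))

theorem QN_ne_top : volume QN ≠ ⊤ :=
  ne_top_of_le_ne_top (isCompact_closedBall (0 : ℂ) 2).measure_lt_top.ne (measure_mono QN_sub)

/-- Area of the image under an affine map. -/
theorem vol_affine (β y : ℂ) (S : Set ℂ) :
    volume ((fun c : ℂ => y + β * c) '' S) = ENNReal.ofReal (‖β‖ ^ 2) * volume S := by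
  have hdet : LinearMap.det (LinearMap.mulLeft ℝ β) = ‖β‖ ^ 2 := by
    have h1 : Algebra.norm ℝ β = LinearMap.det (LinearMap.mulLeft ℝ β) := Algebra.norm_apply ℝ β
    rw [← h1, Algebra.norm_complex_apply, Complex.normSq_eq_norm_sq]
  have e1 : (fun c : ℂ => y + β * c) '' S =
      (fun w => y + w) '' ((LinearMap.mulLeft ℝ β) '' S) := by
    rw [image_image]
    rfl
  rw [e1, image_add_left, measure_preimage_add, Measure.addHaar_image_linearMap, hdet,
    abs_of_nonneg (by positivity)]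

theorem one_point (hatt : St_att) (hquad : St_quad) (hesc : St_esc) (htr : St_tr)
    (htr2 : St_tr2) (hmeas : St_meas) (hvit : St_vit) (hld : St_ld) (haff : St_aff)
    (hlev : St_lev) (hnz : St_nz)
    {r g : ℂ → ℂ} {y a : ℂ} {ρ₀ ε d B c : ℝ} (hN : Near r g y a d B)
    (hG : Good r g y ρ₀ ε d B c) {v : ℂ} (hv : v ≠ 0) {η : ℝ} (hη : 0 < η) :
    ∃ n₀ : ℕ, ∀ n : ℕ, n₀ ≤ n →
      volume {s : ℂ | (s * v) ^ n ∈ {x | x ∈ Und r n ρ₀ ∧ ¬ Att r n x}} ≤
        ENNReal.ofReal ((1 / (‖v‖ ^ 2 * ‖y‖ ^ 2 * ‖a * y‖ ^ 2) * (volume QN).toReal + η) /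
          n ^ 3) := by
  have hρ := hG.hρ
  have hρ1 := hG.hρ1
  obtain ⟨α, hα⟩ : ∃ α : ℂ, α = a * y := ⟨_, rfl⟩
  have hα0 : α ≠ 0 := by rw [hα]; exact mul_ne_zero hN.ha hN.hy
  have hαn : 0 < ‖α‖ := norm_pos_iff.2 hα0
  have hvn : 0 < ‖v‖ := norm_pos_iff.2 hv
  have hyn : 0 < ‖y‖ := norm_pos_iff.2 hN.hy
  obtain ⟨C₁, C, hC₁, hC, n₁, hfar⟩ := an_far hvit hld haff hlev hnz hN hG
  obtain ⟨C₂, hC₂, n₂, htr⟩ := htr v ρ₀ hv hρ hρ1
  rw [← hα]
  obtain ⟨κ, hκ⟩ : ∃ κ : ℝ, κ = 1 / (‖v‖ ^ 2 * ‖y‖ ^ 2 * ‖α‖ ^ 2) := ⟨_, rfl⟩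
  have hκ0 : 0 < κ := by rw [hκ]; positivity
  rw [← hκ]
  obtain ⟨A, hA⟩ : ∃ A : ℝ, A = (volume QN).toReal := ⟨_, rfl⟩
  have hA0 : 0 ≤ A := by rw [hA]; exact ENNReal.toReal_nonneg
  have hAv : volume QN = ENNReal.ofReal A := by
    rw [hA, ENNReal.ofReal_toReal QN_ne_top]
  -- small parameters
  obtain ⟨η₁, hη₁0, hη₁a, hη₁b⟩ : ∃ η₁ : ℝ, 0 < η₁ ∧ η₁ ≤ 1 ∧ κ * (A + 2) * η₁ ≤ η / 2 := by
    refine ⟨min 1 (η / (2 * (κ * (A + 2)))), by positivity, min_le_left _ _, ?_⟩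
    calc κ * (A + 2) * min 1 (η / (2 * (κ * (A + 2)))) ≤
          κ * (A + 2) * (η / (2 * (κ * (A + 2)))) := by gcongr; exact min_le_right _ _
      _ = η / 2 := by field_simp
  obtain ⟨n₃, htr2⟩ := htr2 v y hv hN.hy C₁ η₁ hC₁ hη₁0
  -- the sets in the `c`-plane
  obtain ⟨E, hE⟩ : ∃ E : ℕ → Set ℂ, E = fun n => {t | t ∈ closedBall (0 : ℂ) (C₁ * ‖α‖) ∧
      y + t / (n * α) ∈ Und r n ρ₀ ∧ ¬ Att r n (y + t / (n * α))} := ⟨_, rfl⟩
  have hloc : ∀ᵐ t : ℂ, t ∉ QN → ∃ δ : ℝ, 0 < δ ∧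
      Tendsto (fun n => volume (E n ∩ closedBall t δ)) atTop (𝓝 0) := by
    filter_upwards [hquad] with t ht htN
    have hor : QEsc t ∨ QAtt t := by
      by_contra h
      exact htN h
    by_cases hAtt : QAtt t
    · obtain ⟨δ, hδ, m, hm⟩ := hatt r g y a d B hN t hAtt
      refine ⟨δ * ‖α‖, by positivity, ?_⟩
      refine tendsto_const_nhds.congr' ?_
      filter_upwards [eventually_ge_atTop (max m 1)] with n hn
      have hn1 : 1 ≤ n := (le_max_right _ _).trans hn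
      have hn0 : (0 : ℝ) < n := by exact_mod_cast hn1
      have hnc : (n : ℂ) ≠ 0 := by exact_mod_cast hn0.ne'
      have hempty : E n ∩ closedBall t (δ * ‖α‖) = ∅ := by
        rw [eq_empty_iff_forall_notMem]
        rintro u ⟨hu1, hu2⟩
        rw [hE] at hu1
        apply hu1.2.2
        apply hm n ((le_max_left _ _).trans hn)
        rw [← hα, mem_closedBall, dist_eq_norm]
        have e1 : y + u / (n * α) - (y + t / (n * α)) = (u - t) / (n * α) := by ring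
        rw [e1, norm_div, norm_mul, Complex.norm_natCast, div_le_div_iff₀ (by positivity) hn0]
        rw [mem_closedBall, dist_eq_norm] at hu2
        calc ‖u - t‖ * n ≤ δ * ‖α‖ * n := by gcongr
          _ = δ * (n * ‖α‖) := by ring
      rw [hempty, measure_empty]
    · have hE' := hor.resolve_right hAtt
      obtain ⟨δ, K, hδ, hK, m, hm⟩ := hesc r g y a ρ₀ ε d B c hN hG t (ht hE')
      rw [← hα] at hm
      refine ⟨δ * ‖α‖, by positivity, ?_⟩
      have hlim : Tendsto (fun n : ℕ => ENNReal.ofReal (‖α‖ ^ 2 * K * (Real.log n / n))) atTop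
          (𝓝 0) := by
        rw [← ENNReal.ofReal_zero]
        apply ENNReal.tendsto_ofReal
        have h1 := Real.tendsto_pow_log_div_mul_add_atTop 1 0 1 one_ne_zero
        simp only [pow_one, one_mul, add_zero] at h1
        have h2 := (h1.comp tendsto_natCast_atTop_atTop).const_mul (‖α‖ ^ 2 * K)
        rw [mul_zero] at h2
        exact h2
      refine tendsto_of_tendsto_of_tendsto_of_le_of_le' tendsto_const_nhds hlim
        (Eventually.of_forall fun n => bot_le) ?_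
      filter_upwards [eventually_ge_atTop (max m 1)] with n hn
      have hn1 : 1 ≤ n := (le_max_right _ _).trans hn
      have hn0 : (0 : ℝ) < n := by exact_mod_cast hn1
      have hnc : (n : ℂ) ≠ 0 := by exact_mod_cast hn0.ne'
      have hsub : E n ∩ closedBall t (δ * ‖α‖) ⊆ (fun x : ℂ => -(n * α * y) + n * α * x) ''
          (Und r n ρ₀ ∩ closedBall (y + t / (n * α)) (δ / n)) := by
        rintro u ⟨hu1, hu2⟩
        rw [hE] at hu1
        refine ⟨y + u / (n * α), ⟨hu1.2.1, ?_⟩, by field_simp; ring⟩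
        rw [mem_closedBall, dist_eq_norm]
        have e1 : y + u / (n * α) - (y + t / (n * α)) = (u - t) / (n * α) := by ring
        rw [e1, norm_div, norm_mul, Complex.norm_natCast, div_le_div_iff₀ (by positivity) hn0]
        rw [mem_closedBall, dist_eq_norm] at hu2
        calc ‖u - t‖ * n ≤ δ * ‖α‖ * n := by gcongr
          _ = δ * (n * ‖α‖) := by ring
      refine (measure_mono hsub).trans ?_
      rw [vol_affine]
      refine (mul_le_mul' le_rfl (hm n ((le_max_left _ _).trans hn))).trans ?_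
      rw [← ENNReal.ofReal_mul (by positivity)]
      apply ENNReal.ofReal_le_ofReal
      apply le_of_eq
      rw [norm_mul, Complex.norm_natCast]
      field_simp
  obtain ⟨n₄, hmeas'⟩ := hmeas QN E (C₁ * ‖α‖) (fun n t ht => by
    rw [hE] at ht
    exact ht.1) hloc η₁ hη₁0
  -- the far part
  obtain ⟨n₅, hn₅⟩ := exists_nat_ge ((2 * (C₂ * C) / η + 1) ^ 8)
  refine ⟨max (max (max n₁ n₂) (max n₃ n₄)) (max n₅ 1), ?_⟩
  intro n hn
  have hnn₁ : n₁ ≤ n := by omega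
  have hnn₂ : n₂ ≤ n := by omega
  have hnn₃ : n₃ ≤ n := by omega
  have hnn₄ : n₄ ≤ n := by omega
  have hnn₅ : n₅ ≤ n := by omega
  have hn1 : 1 ≤ n := by omega
  have hn0 : (0 : ℝ) < n := by exact_mod_cast hn1
  have hnc : (n : ℂ) ≠ 0 := by exact_mod_cast hn0.ne'
  obtain ⟨q, hq1, hqn, hqlog⟩ := exists_q hn1
  have hq0 : 0 < q := by linarith
  have hqbig : 2 * (C₂ * C) / η + 1 ≤ q := by
    have h1 : (2 * (C₂ * C) / η + 1) ^ 8 ≤ q ^ 8 := by
      rw [hqn]; exact hn₅.trans (by exact_mod_cast hnn₅)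
    exact le_of_pow_le_pow_left₀ (by norm_num) hq0.le h1
  obtain ⟨S, hS⟩ : ∃ S : Set ℂ, S = {x | x ∈ Und r n ρ₀ ∧ ¬ Att r n x} := ⟨_, rfl⟩
  rw [← hS]
  have hcover : {s : ℂ | (s * v) ^ n ∈ S} ⊆
      {s : ℂ | (s * v) ^ n ∈ Und r n ρ₀ ∩ {x | C₁ / n ≤ ‖x - y‖}} ∪
      {s : ℂ | (s * v) ^ n ∈ S ∩ closedBall y (C₁ / n)} := by
    intro s hs
    have hs' : (s * v) ^ n ∈ S := hs
    by_cases h : C₁ / n ≤ ‖(s * v) ^ n - y‖
    · left
      refine ⟨?_, h⟩
      rw [hS] at hs'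
      exact hs'.1
    · right
      refine ⟨hs', ?_⟩
      rw [mem_closedBall, dist_eq_norm]
      exact (not_le.1 h).le
  have hpart1 : volume {s : ℂ | (s * v) ^ n ∈ Und r n ρ₀ ∩ {x | C₁ / n ≤ ‖x - y‖}} ≤
      ENNReal.ofReal (η / 2 / n ^ 3) := by
    refine (htr n hnn₂ _ (fun x hx => hx.1 0)).trans ?_
    refine (mul_le_mul' le_rfl (hfar n q hnn₁ hq1 hqn hqlog)).trans ?_
    rw [← ENNReal.ofReal_mul (by positivity)]
    apply ENNReal.ofReal_le_ofReal
    have h1 : C₂ * C / q ≤ η / 2 := by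
      rw [div_le_iff₀ hq0]
      have h2 : 2 * (C₂ * C) / η ≤ q := by linarith
      rw [div_le_iff₀ hη] at h2
      linarith
    calc C₂ / n * (C / (n ^ 2 * q)) = C₂ * C / q / n ^ 3 := by field_simp
      _ ≤ η / 2 / n ^ 3 := by gcongr
  have hpart2 : volume {s : ℂ | (s * v) ^ n ∈ S ∩ closedBall y (C₁ / n)} ≤
      ENNReal.ofReal ((κ * A + η / 2) / n ^ 3) := by
    refine (htr2 n hnn₃ _ inter_subset_right).trans ?_
    have hsub : S ∩ closedBall y (C₁ / n) ⊆ (fun t : ℂ => y + (1 / (n * α)) * t) '' (E n) := by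
      rintro x ⟨hx1, hx2⟩
      rw [hS] at hx1
      have e1 : y + n * α * (x - y) / (n * α) = x := by field_simp; ring
      refine ⟨n * α * (x - y), ?_, by simp only; rw [one_div_mul_eq_div]; exact e1⟩
      rw [hE]
      refine ⟨?_, by rw [e1]; exact hx1.1, by rw [e1]; exact hx1.2⟩
      rw [mem_closedBall_zero_iff, norm_mul, norm_mul, Complex.norm_natCast]
      rw [mem_closedBall, dist_eq_norm] at hx2
      calc n * ‖α‖ * ‖x - y‖ ≤ n * ‖α‖ * (C₁ / n) := by gcongr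
        _ = C₁ * ‖α‖ := by field_simp
    have hvolS : volume (S ∩ closedBall y (C₁ / n)) ≤
        ENNReal.ofReal (1 / (n * ‖α‖) ^ 2 * (A + η₁)) := by
      refine (measure_mono hsub).trans ?_
      rw [vol_affine, norm_div, norm_one, norm_mul, Complex.norm_natCast,
        ENNReal.ofReal_mul (by positivity), ENNReal.ofReal_add hA0 hη₁0.le, ← hAv, div_pow,
        one_pow]
      exact mul_le_mul' le_rfl (hmeas' n hnn₄)
    refine (mul_le_mul' le_rfl hvolS).trans ?_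
    rw [← ENNReal.ofReal_mul (by positivity)]
    apply ENNReal.ofReal_le_ofReal
    have e2 : (1 + η₁) / (n * ‖v‖ ^ 2 * ‖y‖ ^ 2) * (1 / (n * ‖α‖) ^ 2 * (A + η₁)) =
        κ * ((1 + η₁) * (A + η₁)) / n ^ 3 := by rw [hκ]; field_simp
    rw [e2]
    apply div_le_div_of_nonneg_right _ (by positivity)
    have h3 : (1 + η₁) * (A + η₁) ≤ A + (A + 2) * η₁ := by nlinarith
    calc κ * ((1 + η₁) * (A + η₁)) ≤ κ * (A + (A + 2) * η₁) := by gcongr
      _ = κ * A + κ * (A + 2) * η₁ := by ring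
      _ ≤ _ := by linarith
  refine (measure_mono hcover).trans ((measure_union_le _ _).trans
    ((add_le_add hpart1 hpart2).trans ?_))
  rw [← ENNReal.ofReal_add (by positivity) (by positivity)]
  apply ENNReal.ofReal_le_ofReal
  apply le_of_eq
  rw [← hA]
  ring

end Pool.Agent.K3h20.CR
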