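import Pool.Agent.K3h20.CR.Fin3
import Pool.Agent.K3h20.CR.StmD2

/-!
# Project CR2: the limit of the area
-/

set_option autoImplicit false

open Set Filter Topology MeasureTheory Metric

namespace Pool.Agent.K3h20.CR

open Pool.Agent.H762R2.Rt

/-- The coefficient `a` is determined by the data. -/
theorem near_a {P Q : Polynomial ℂ} {y a : ℂ} {d B : ℝ} (hP : P.eval y ≠ 0) (hQ : Q.eval y ≠ 0)
    (hw : (wro P Q).eval y = 0) (hN : Near (rr P Q y) (gg P Q) y a d B) :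
    a = (Polynomial.derivative (wro P Q)).eval y / (2 * (P.eval y * Q.eval y)) := by
  have hPQ : P.eval y * Q.eval y ≠ 0 := mul_ne_zero hP hQ
  have h1 : HasDerivAt (gg P Q) (((Polynomial.derivative (wro P Q)).eval y *
      (P.eval y * Q.eval y) - (wro P Q).eval y * ((Polynomial.derivative P).eval y * Q.eval y +
        P.eval y * (Polynomial.derivative Q).eval y)) / (P.eval y * Q.eval y) ^ 2) y :=
    ((wro P Q).hasDerivAt y).fun_div ((P.hasDerivAt y).mul (Q.hasDerivAt y)) hPQ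
  have h2 : HasDerivAt (gg P Q) (2 * a) y := by
    rw [hasDerivAt_iff_isLittleO_nhds_zero]
    have hg0 : gg P Q y = 0 := by unfold gg; rw [hw, zero_div]
    rw [Asymptotics.isLittleO_iff]
    intro ε hε
    have hev : ∀ᶠ h : ℂ in 𝓝 0, ‖h‖ < min d (ε / B) := by
      have : ball (0 : ℂ) (min d (ε / B)) ∈ 𝓝 (0 : ℂ) :=
        ball_mem_nhds _ (lt_min hN.hd (div_pos hε (by linarith [hN.hB])))
      filter_upwards [this] with h hh
      rwa [mem_ball_zero_iff] at hh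
    filter_upwards [hev] with h hh
    have h3 := hN.g_eq h (hh.le.trans (min_le_left _ _))
    have hB0 : 0 < B := lt_of_lt_of_le one_pos hN.hB
    have h4 : B * ‖h‖ ≤ ε := by
      have := hh.le.trans (min_le_right d (ε / B))
      rw [le_div_iff₀ hB0] at this
      linarith
    rw [hg0, sub_zero, smul_eq_mul]
    calc ‖gg P Q (y + h) - h * (2 * a)‖ = ‖gg P Q (y + h) - 2 * a * h‖ := by ring_nf
      _ ≤ B * ‖h‖ ^ 2 := h3
      _ = B * ‖h‖ * ‖h‖ := by ring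
      _ ≤ ε * ‖h‖ := by gcongr
  have h5 := h1.unique h2
  rw [hw, zero_mul, sub_zero] at h5
  rw [eq_div_iff (mul_ne_zero two_ne_zero hPQ)]
  have h6 : (Polynomial.derivative (wro P Q)).eval y / (P.eval y * Q.eval y) = 2 * a := by
    rw [← h5]; field_simp
  rw [div_eq_iff hPQ] at h6
  rw [h6]; ring

theorem main2 (hatt : St_att) (hquad : St_quad) (hesc : St_esc) (htr2 : St_tr2)
    (hmeas : St_meas) (hdyn2 : St_dyn2)
    {P Q : Polynomial ℂ} (hc : IsCoprime P Q) {D : ℕ}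
    (hD : D = max P.natDegree Q.natDegree) (hD1 : 1 ≤ D) {a b : ℝ} (ha : 0 < a) (hab : a ≤ b)
    (h0 : ∀ t : ℝ, a ≤ t → t ≤ b → t * ‖P.coeff 0‖ ≠ ‖Q.coeff 0‖ ∧ t * ‖P.coeff D‖ ≠ ‖Q.coeff D‖)
    (hsimple : ∀ y ∈ live P Q a b, (Polynomial.derivative (wro P Q)).eval y ≠ 0)
    (hdist : ∀ y ∈ live P Q a b, ∀ y' : ℂ, (wro P Q).eval y' = 0 →
      ‖P.eval y'‖ * ‖Q.eval y‖ = ‖P.eval y‖ * ‖Q.eval y'‖ → y' = y)
    (L : Finset ℂ) (hL : ∀ y, y ∈ L ↔ y ∈ live P Q a b) {η : ℝ} (hη : 0 < η) :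
    ∃ n₀ : ℕ, ∀ n : ℕ, n₀ ≤ n →
      volume {s : ℂ | a ≤ ‖s‖ ∧ ‖s‖ ≤ b ∧
        ¬ Hyp (Polynomial.C s * Polynomial.expand ℂ n P) (Polynomial.expand ℂ n Q)} ≤
        ENNReal.ofReal (((∑ y ∈ L, 4 * ‖Q.eval y‖ ^ 4 /
          (‖y‖ ^ 4 * ‖(Polynomial.derivative (wro P Q)).eval y‖ ^ 2)) * (volume QN).toReal + η) /
          n ^ 3) := by
  have hb : 0 < b := lt_of_lt_of_le ha hab
  have hwro : wro P Q ≠ 0 := wro_ne_zero hc (by rw [← hD]; exact hD1)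
  obtain ⟨Z, hZ⟩ : ∃ Z : Set ℂ, Z = {y | (wro P Q).eval y = 0} := ⟨_, rfl⟩
  have hZfin : Z.Finite := by
    rw [hZ]
    refine (wro P Q).roots.toFinset.finite_toSet.subset fun y hy => ?_
    simpa [Polynomial.mem_roots hwro] using hy
  obtain ⟨ρ₀, hρ, hρ1, n₁, hdyn⟩ := hdyn2 P Q hc D hD hD1 a b ha hab h0
  have hinv : 1 < ρ₀⁻¹ := (one_lt_inv₀ hρ).2 hρ1
  have hdead : ∀ y ∈ Z, y ∉ live P Q a b → P.eval y ≠ 0 → Q.eval y ≠ 0 → ∃ n₀ : ℕ, ∀ n : ℕ,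
      n₀ ≤ n → ∀ s : ℂ, a ≤ ‖s‖ → ‖s‖ ≤ b →
      (s * (P.eval y / Q.eval y)) ^ n ∉ Und (rr P Q y) n ρ₀ := by
    intro y hy hyl hP hQ
    have hP' : 0 < ‖P.eval y‖ := norm_pos_iff.2 hP
    have hQ' : 0 < ‖Q.eval y‖ := norm_pos_iff.2 hQ
    have hv : 0 < ‖P.eval y / Q.eval y‖ := by rw [norm_div]; positivity
    have hdich : b * ‖P.eval y / Q.eval y‖ < 1 ∨ 1 < a * ‖P.eval y / Q.eval y‖ := by
      by_contra hcon
      push Not at hcon
      obtain ⟨h1, h2⟩ := hcon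
      rw [norm_div] at h1 h2
      apply hyl
      rw [hZ] at hy
      refine ⟨hy, ?_, ?_⟩
      · rw [mul_div_assoc', div_le_iff₀ hQ'] at h2
        linarith
      · rw [mul_div_assoc', le_div_iff₀ hQ'] at h1
        linarith
    obtain ⟨n₀, hn₀⟩ := not_live ha hv hdich hρ
    refine ⟨n₀, fun n hn s hs1 hs2 hU => ?_⟩
    obtain ⟨h1, h2⟩ := hU 0
    have e0 : orb (rr P Q y) n ((s * (P.eval y / Q.eval y)) ^ n) 0 =
      (s * (P.eval y / Q.eval y)) ^ n := rfl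
    rw [e0, norm_pow, norm_mul] at h1 h2
    rcases hn₀ n hn ‖s‖ hs1 hs2 with h3 | h3 <;> linarith
  obtain ⟨n₂, hdead'⟩ := eventually_finite hZfin
    (p := fun y n => y ∉ live P Q a b → P.eval y ≠ 0 → Q.eval y ≠ 0 → ∀ s : ℂ, a ≤ ‖s‖ →
      ‖s‖ ≤ b → (s * (P.eval y / Q.eval y)) ^ n ∉ Und (rr P Q y) n ρ₀) (by
      intro y hy
      by_cases h : y ∉ live P Q a b ∧ P.eval y ≠ 0 ∧ Q.eval y ≠ 0
      · obtain ⟨n₀, hn₀⟩ := hdead y hy h.1 h.2.1 h.2.2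
        exact ⟨n₀, fun n hn _ _ _ => hn₀ n hn⟩
      · exact ⟨0, fun n _ h1 h2 h3 => absurd ⟨h1, h2, h3⟩ h⟩)
  have hlive0 : ∀ y ∈ live P Q a b, y ≠ 0 := by
    rintro y hy rfl
    obtain ⟨hP, hQ⟩ := live_ne hc ha hy
    obtain ⟨-, h1, h2⟩ := hy
    have hP' : 0 < ‖P.eval 0‖ := norm_pos_iff.2 hP
    have h3 := (h0 (‖Q.eval 0‖ / ‖P.eval 0‖) (by rw [le_div_iff₀ hP']; exact h1)
      (by rw [div_le_iff₀ hP']; exact h2)).1
    rw [Polynomial.coeff_zero_eq_eval_zero, Polynomial.coeff_zero_eq_eval_zero] at h3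
    exact h3 (by field_simp)
  obtain ⟨η', hη'⟩ : ∃ η' : ℝ, η' = η / (L.card + 1) := ⟨_, rfl⟩
  have hη'0 : 0 < η' := by rw [hη']; positivity
  obtain ⟨A, hA⟩ : ∃ A : ℝ, A = (volume QN).toReal := ⟨_, rfl⟩
  have hA0 : 0 ≤ A := by rw [hA]; exact ENNReal.toReal_nonneg
  rw [← hA]
  obtain ⟨κ, hκ⟩ : ∃ κ : ℂ → ℝ, κ = fun y => 4 * ‖Q.eval y‖ ^ 4 /
          (‖y‖ ^ 4 * ‖(Polynomial.derivative (wro P Q)).eval y‖ ^ 2) := ⟨_, rfl⟩
  have hκ0 : ∀ y, 0 ≤ κ y := by intro y; rw [hκ]; positivity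
  have harea : ∀ y ∈ (L : Set ℂ), ∃ n₀ : ℕ, ∀ n : ℕ, n₀ ≤ n →
      volume {s : ℂ | (s * (P.eval y / Q.eval y)) ^ n ∈
        {x | x ∈ Und (rr P Q y) n ρ₀ ∧ ¬ Att (rr P Q y) n x}} ≤
        ENNReal.ofReal ((κ y * A + η') / n ^ 3) := by
    intro y hy
    have hy' : y ∈ live P Q a b := (hL y).1 hy
    obtain ⟨hP, hQ⟩ := live_ne hc ha hy'
    have hy0 := hlive0 y hy'
    obtain ⟨α, ε, d, B, c, hN, hG⟩ := Pool.Agent.K3h74.CR.t_dat P Q hc y hy0 hP hQ hy'.1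
      (hsimple y hy') (hdist y hy') ρ₀ hρ hρ1
    obtain ⟨m, hm⟩ := one_point hatt hquad hesc Pool.Agent.K3h34.CR.t_tr htr2 hmeas
      Pool.Agent.K3h37.CR.t_vit Pool.Agent.K3h21.CR.t_ld Pool.Agent.K3h21.CR.t_aff
      Pool.Agent.K3h21.CR.t_lev Pool.Agent.K3h76.CR.t_nz hN hG (div_ne_zero hP hQ) hη'0
    refine ⟨m, fun n hn => (hm n hn).trans (le_of_eq ?_)⟩
    congr 3
    rw [← hA, near_a hP hQ hy'.1 hN, hκ]
    congr 1
    have hPn := norm_pos_iff.2 hP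
    have hQn := norm_pos_iff.2 hQ
    have hyn := norm_pos_iff.2 hy0
    have hwn := norm_pos_iff.2 (hsimple y hy')
    simp only [norm_div, norm_mul, Complex.norm_ofNat]
    field_simp
    norm_num
  obtain ⟨n₃, harea'⟩ := eventually_finite (Finset.finite_toSet L) harea
  refine ⟨max (max n₁ n₂) (max n₃ 1), ?_⟩
  intro n hn
  have hnn₁ : n₁ ≤ n := by omega
  have hnn₂ : n₂ ≤ n := by omega
  have hnn₃ : n₃ ≤ n := by omega
  have hn1 : 1 ≤ n := by omega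
  have hn0 : (0 : ℝ) < n := by exact_mod_cast hn1
  have hsub : {s : ℂ | a ≤ ‖s‖ ∧ ‖s‖ ≤ b ∧
      ¬ Hyp (Polynomial.C s * Polynomial.expand ℂ n P) (Polynomial.expand ℂ n Q)} ⊆
      ⋃ y ∈ L, {s : ℂ | (s * (P.eval y / Q.eval y)) ^ n ∈
        {x | x ∈ Und (rr P Q y) n ρ₀ ∧ ¬ Att (rr P Q y) n x}} := by
    rintro s ⟨hs1, hs2, hs3⟩
    by_contra hcon
    apply hs3
    refine hdyn n hnn₁ s hs1 hs2 fun y hy hP hQ => ?_
    by_cases hyl : y ∈ live P Q a b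
    · by_contra hor
      push Not at hor
      apply hcon
      rw [mem_iUnion₂]
      exact ⟨y, (hL y).2 hyl, hor⟩
    · exact Or.inl (hdead' n hnn₂ y (by rw [hZ]; exact hy) hyl hP hQ s hs1 hs2)
  refine (measure_mono hsub).trans ((measure_biUnion_finset_le _ _).trans ?_)
  have hsum : ∑ y ∈ L, volume {s : ℂ | (s * (P.eval y / Q.eval y)) ^ n ∈
        {x | x ∈ Und (rr P Q y) n ρ₀ ∧ ¬ Att (rr P Q y) n x}} ≤
      ∑ y ∈ L, ENNReal.ofReal ((κ y * A + η') / n ^ 3) :=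
    Finset.sum_le_sum fun y hy => harea' n hnn₃ y hy
  refine hsum.trans ?_
  rw [← ENNReal.ofReal_sum_of_nonneg (fun y _ => by
    have := hκ0 y
    positivity)]
  apply ENNReal.ofReal_le_ofReal
  rw [← Finset.sum_div]
  apply div_le_div_of_nonneg_right _ (by positivity)
  rw [Finset.sum_add_distrib, ← Finset.sum_mul, Finset.sum_const, nsmul_eq_mul, hκ]
  have h7 : (L.card : ℝ) * η' ≤ η := by
    rw [hη', mul_div_assoc', div_le_iff₀ (by positivity)]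
    nlinarith [(Nat.cast_nonneg L.card : (0 : ℝ) ≤ L.card)]
  linarith

end Pool.Agent.K3h20.CR
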