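import Pool.Agent.K3h20.CR.Fin4
import Pool.Agent.K3h64.CR.Step
import Pool.Agent.K3h64.CR.Conv
import Pool.Agent.K3h12.CR.Att
import Pool.Agent.K3h77.CR.Quad
import Pool.Agent.K3h64.CR.Nz2
import Pool.Agent.K3h8.CR.TR2
import Pool.Agent.K3h64.CR.Meas
import Pool.Agent.K3h22.CR.Dyn2

/-!
# Project CR2: distance to the hyperbolic parameters
-/

set_option autoImplicit false

open Set Filter Topology MeasureTheory Metric

namespace Pool.Agent.K3h20.CR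

theorem att_holds : St_att := Pool.Agent.K3h12.CR.t_att Pool.Agent.K3h64.CR.t_step

theorem esc_holds : St_esc :=
  t_esc Pool.Agent.K3h37.CR.t_vit Pool.Agent.K3h21.CR.t_ld Pool.Agent.K3h21.CR.t_aff
    Pool.Agent.K3h21.CR.t_lev Pool.Agent.K3h64.CR.t_conv Pool.Agent.K3h64.CR.t_nz2

/-- A ball of larger volume contains a point outside the set. -/
theorem exists_outside {U : Set ℂ} {p : ℂ} {s V : ℝ} (hs : 0 < s) (hV : V < Real.pi * s ^ 2)
    (h : volume (U ∩ closedBall p s) ≤ ENNReal.ofReal V) : ∃ x ∈ closedBall p s, x ∉ U := by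
  by_contra hcon
  push Not at hcon
  have hsub : closedBall p s ⊆ U ∩ closedBall p s := fun x hx => ⟨hcon x hx, hx⟩
  have h1 := (measure_mono hsub).trans h
  have h3 : 0 < Real.pi * s ^ 2 := by positivity
  rw [vol_ball p hs.le, ENNReal.ofReal_le_ofReal_iff'] at h1
  rcases h1 with h1 | h1 <;> linarith

/-- Distance from a parameter to the decided or attracted ones. -/
theorem one_point_dist {r g : ℂ → ℂ} {y a : ℂ} {ρ₀ ε d B c : ℝ} (hN : Near r g y a d B)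
    (hG : Good r g y ρ₀ ε d B c) {δ : ℝ} (hδ : 0 ≤ δ)
    (hdense : ∀ c : ℂ, ∃ c' : ℂ, (QEsc c' ∨ QAtt c') ∧ ‖c' - c‖ ≤ δ) {η : ℝ} (hη : 0 < η)
    (hη1 : η ≤ 1) :
    ∃ R : ℝ, 0 < R ∧ ∃ n₀ : ℕ, ∀ n : ℕ, n₀ ≤ n → ∀ x : ℂ, ∃ x' : ℂ,
      (x' ∉ Und r n ρ₀ ∨ Att r n x') ∧
      ((R / n ≤ ‖x - y‖ ∧ ‖x' - x‖ ≤ η / n) ∨
        (‖x - y‖ ≤ R / n ∧ ‖x' - x‖ ≤ (δ / ‖a * y‖ + η) / n)) := by
  obtain ⟨α, hα⟩ : ∃ α : ℂ, α = a * y := ⟨_, rfl⟩
  have hα0 : α ≠ 0 := by rw [hα]; exact mul_ne_zero hN.ha hN.hy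
  have hαn : 0 < ‖α‖ := norm_pos_iff.2 hα0
  obtain ⟨C₁, C, hC₁, hC, n₁, hfar⟩ := an_far Pool.Agent.K3h37.CR.t_vit Pool.Agent.K3h21.CR.t_ld
    Pool.Agent.K3h21.CR.t_aff Pool.Agent.K3h21.CR.t_lev Pool.Agent.K3h76.CR.t_nz hN hG
  rw [← hα]
  have hpi := Real.pi_gt_three
  -- near part: a finite net
  have hnet : ∀ t : ℂ, ∃ m : ℕ, ∀ n : ℕ, m ≤ n → ∀ u ∈ ball t (η / 2 * ‖α‖), ∃ x' : ℂ,
      (x' ∉ Und r n ρ₀ ∨ Att r n x') ∧ ‖x' - (y + u / (n * α))‖ ≤ (δ / ‖α‖ + η) / n := by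
    intro t
    obtain ⟨t', ht', htt'⟩ := hdense t
    have hgood : ∃ m : ℕ, ∀ n : ℕ, m ≤ n → ∃ x' : ℂ,
        (x' ∉ Und r n ρ₀ ∨ Att r n x') ∧ ‖x' - (y + t' / (n * α))‖ ≤ η / 2 / n := by
      by_cases hAtt : QAtt t'
      · obtain ⟨δ₁, hδ₁, m, hm⟩ := att_holds r g y a d B hN t' hAtt
        refine ⟨m, fun n hn => ⟨y + t' / (n * α), Or.inr ?_, ?_⟩⟩
        · apply hm n hn
          rw [← hα]
          exact mem_closedBall_self (by positivity)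
        · rw [sub_self, norm_zero]; positivity
      · have hE := ht'.resolve_right hAtt
        obtain ⟨δ₁, K, hδ₁, hK, m, hm⟩ := esc_holds r g y a ρ₀ ε d B c hN hG t'
          (Pool.Agent.K3h77.CR.quad hE)
        rw [← hα] at hm
        obtain ⟨σ, hσ0, hσa, hσb⟩ : ∃ σ : ℝ, 0 < σ ∧ σ ≤ δ₁ ∧ σ ≤ η / 2 :=
          ⟨min δ₁ (η / 2), by positivity, min_le_left _ _, min_le_right _ _⟩
        have hlim : Tendsto (fun n : ℕ => K * (Real.log n / n)) atTop (𝓝 0) := by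
          have h1 := Real.tendsto_pow_log_div_mul_add_atTop 1 0 1 one_ne_zero
          simp only [pow_one, one_mul, add_zero] at h1
          have h2 := (h1.comp tendsto_natCast_atTop_atTop).const_mul K
          rw [mul_zero] at h2
          exact h2
        obtain ⟨m', hm'⟩ := eventually_atTop.1
          (hlim.eventually_lt_const (show (0 : ℝ) < Real.pi * σ ^ 2 by positivity))
        refine ⟨max (max m m') 1, fun n hn => ?_⟩
        have hn1 : 1 ≤ n := by omega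
        have hn0 : (0 : ℝ) < n := by exact_mod_cast hn1
        have h1 := hm n (by omega)
        have h2 := hm' n (by omega)
        have h3 : volume (Und r n ρ₀ ∩ closedBall (y + t' / (n * α)) (σ / n)) ≤
            ENNReal.ofReal (K * (Real.log n / n) / n ^ 2) := by
          refine (measure_mono (inter_subset_inter_right _ (closedBall_subset_closedBall ?_))).trans
            h1
          gcongr
        have hn2 : (0 : ℝ) < (n : ℝ) ^ 2 := by positivity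
        have hV : K * (Real.log n / n) / (n : ℝ) ^ 2 < Real.pi * (σ / n) ^ 2 := by
          have e2 : Real.pi * (σ / n) ^ 2 = Real.pi * σ ^ 2 / (n : ℝ) ^ 2 := by
            rw [div_pow, mul_div_assoc']
          rw [e2]
          exact div_lt_div_of_pos_right h2 hn2
        obtain ⟨x', hx'1, hx'2⟩ := exists_outside (show 0 < σ / n by positivity) hV h3
        refine ⟨x', Or.inl hx'2, ?_⟩
        rw [mem_closedBall, dist_eq_norm] at hx'1
        refine hx'1.trans ?_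
        gcongr
    obtain ⟨m, hm⟩ := hgood
    refine ⟨max m 1, fun n hn u hu => ?_⟩
    have hn1 : 1 ≤ n := by omega
    have hn0 : (0 : ℝ) < n := by exact_mod_cast hn1
    obtain ⟨x', hx'1, hx'2⟩ := hm n (by omega)
    refine ⟨x', hx'1, ?_⟩
    rw [mem_ball, dist_eq_norm] at hu
    have e1 : x' - (y + u / (n * α)) = (x' - (y + t' / (n * α))) +
        ((t' - t) - (u - t)) / (n * α) := by ring
    rw [e1]
    calc ‖(x' - (y + t' / (n * α))) + ((t' - t) - (u - t)) / (n * α)‖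
        ≤ ‖x' - (y + t' / (n * α))‖ + ‖((t' - t) - (u - t)) / (n * α)‖ := norm_add_le _ _
      _ ≤ η / 2 / n + (δ + η / 2 * ‖α‖) / (n * ‖α‖) := by
          apply add_le_add hx'2
          rw [norm_div, norm_mul, Complex.norm_natCast]
          gcongr
          exact (norm_sub_le _ _).trans (add_le_add htt' hu.le)
      _ = _ := by field_simp; ring
  obtain ⟨R, hR⟩ : ∃ R : ℝ, R = C₁ + 1 := ⟨_, rfl⟩
  have hR0 : 0 < R := by rw [hR]; positivity
  obtain ⟨m₁, hm₁⟩ : ∃ m₁ : ℕ, ∀ n : ℕ, m₁ ≤ n → ∀ u ∈ closedBall (0 : ℂ) (R * ‖α‖), ∃ x' : ℂ,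
      (x' ∉ Und r n ρ₀ ∨ Att r n x') ∧ ‖x' - (y + u / (n * α))‖ ≤ (δ / ‖α‖ + η) / n := by
    choose m hm using hnet
    obtain ⟨F, -, hF⟩ := (isCompact_closedBall (0 : ℂ) (R * ‖α‖)).elim_nhds_subcover
      (fun t => ball t (η / 2 * ‖α‖)) (fun t _ => ball_mem_nhds t (by positivity))
    refine ⟨F.sup m, fun n hn u hu => ?_⟩
    have hu' := hF hu
    rw [mem_iUnion₂] at hu'
    obtain ⟨t, ht, hut⟩ := hu'
    exact hm t n ((Finset.le_sup ht).trans hn) u hut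
  -- far part
  obtain ⟨n₂, hn₂⟩ := exists_nat_ge ((C / η ^ 2 + 1) ^ 8)
  refine ⟨R, hR0, max (max n₁ m₁) (max n₂ 1), fun n hn x => ?_⟩
  have hn1 : 1 ≤ n := by omega
  have hn0 : (0 : ℝ) < n := by exact_mod_cast hn1
  have hnc : (n : ℂ) ≠ 0 := by exact_mod_cast hn0.ne'
  by_cases hx : R / n ≤ ‖x - y‖
  · obtain ⟨q, hq1, hqn, hqlog⟩ := exists_q hn1
    have hq0 : 0 < q := by linarith
    have hqbig : C / η ^ 2 + 1 ≤ q := by
      have h1 : (C / η ^ 2 + 1) ^ 8 ≤ q ^ 8 := by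
        rw [hqn]; exact hn₂.trans (by exact_mod_cast (by omega : n₂ ≤ n))
      exact le_of_pow_le_pow_left₀ (by norm_num) hq0.le h1
    have h1 := hfar n q (by omega) hq1 hqn hqlog
    have h2 : Und r n ρ₀ ∩ closedBall x (η / n) ⊆ Und r n ρ₀ ∩ {x | C₁ / n ≤ ‖x - y‖} := by
      rintro z ⟨hz1, hz2⟩
      refine ⟨hz1, ?_⟩
      rw [mem_closedBall, dist_eq_norm] at hz2
      have h3 : ‖x - y‖ ≤ ‖z - y‖ + ‖z - x‖ := by
        calc ‖x - y‖ = ‖(z - y) - (z - x)‖ := by ring_nf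
          _ ≤ _ := norm_sub_le _ _
      have h4 : R / n = C₁ / n + 1 / n := by rw [hR]; ring
      have h5 : η / n ≤ 1 / n := by gcongr
      change C₁ / n ≤ ‖z - y‖
      linarith
    obtain ⟨x', hx'1, hx'2⟩ := exists_outside (show 0 < η / n by positivity)
      (V := C / (n ^ 2 * q)) (by
        rw [div_lt_iff₀ (by positivity)]
        have h6 : C < q * η ^ 2 := by
          have h7 : C / η ^ 2 < q := by linarith
          rwa [div_lt_iff₀ (by positivity)] at h7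
        have e1 : Real.pi * (η / n) ^ 2 * (n ^ 2 * q) = Real.pi * (q * η ^ 2) := by field_simp
        rw [e1]
        nlinarith [mul_pos hq0 (show (0 : ℝ) < η ^ 2 by positivity)])
      ((measure_mono h2).trans h1)
    refine ⟨x', Or.inl hx'2, Or.inl ⟨hx, ?_⟩⟩
    rwa [mem_closedBall, dist_eq_norm] at hx'1
  · have hx' := (not_le.1 hx).le
    obtain ⟨x', h1, h2⟩ := hm₁ n (by omega) (n * α * (x - y)) (by
      rw [mem_closedBall_zero_iff, norm_mul, norm_mul, Complex.norm_natCast]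
      calc n * ‖α‖ * ‖x - y‖ ≤ n * ‖α‖ * (R / n) := by gcongr
        _ = R * ‖α‖ := by field_simp)
    have e1 : y + n * α * (x - y) / (n * α) = x := by field_simp; ring
    rw [e1] at h2
    exact ⟨x', h1, Or.inr ⟨hx', h2⟩⟩

/-- Moving `s` so that `(s v) ^ n` takes a given value, with the sharp constant. -/
theorem move2 {ρ₀ C ε : ℝ} (hρ : 0 < ρ₀) (hC : 0 < C) (hε : 0 < ε) (hε1 : ε ≤ 1) :
    ∃ n₀ : ℕ, ∀ n : ℕ, n₀ ≤ n → ∀ s v x' : ℂ,
    ρ₀ ≤ ‖(s * v) ^ n‖ → ‖x' - (s * v) ^ n‖ ≤ C / n →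
    ∃ s' : ℂ, (s' * v) ^ n = x' ∧
      ‖s' - s‖ ≤ (1 + ε) * ‖s‖ * (‖x' - (s * v) ^ n‖ / ‖(s * v) ^ n‖) / n := by
  obtain ⟨n₁, hn₁⟩ := exists_nat_ge (8 * C / (ρ₀ * ε))
  refine ⟨max n₁ 1, ?_⟩
  intro n hn s v x' h1 h2
  have hn1 : 1 ≤ n := (le_max_right _ _).trans hn
  have hn0 : (0 : ℝ) < n := by exact_mod_cast hn1
  have hn1' : (1 : ℝ) ≤ n := by exact_mod_cast hn1
  have hnn₁ : 8 * C / (ρ₀ * ε) ≤ n := hn₁.trans (by exact_mod_cast (le_max_left _ _).trans hn)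
  obtain ⟨x, hx⟩ : ∃ x, x = (s * v) ^ n := ⟨_, rfl⟩
  rw [← hx] at h1 h2 ⊢
  have hxn : 0 < ‖x‖ := by linarith
  have hx0 : x ≠ 0 := norm_pos_iff.1 hxn
  obtain ⟨η, hη⟩ : ∃ η : ℂ, η = x' / x - 1 := ⟨_, rfl⟩
  have hηeq : ‖η‖ = ‖x' - x‖ / ‖x‖ := by
    have e1 : η = (x' - x) / x := by rw [hη]; field_simp
    rw [e1, norm_div]
  have hηn : ‖η‖ ≤ C / (ρ₀ * n) := by
    rw [hηeq, div_le_iff₀ hxn]
    refine h2.trans ?_
    calc C / n = C / (ρ₀ * n) * ρ₀ := by field_simp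
      _ ≤ _ := by gcongr
  have hη4 : C / (ρ₀ * n) ≤ ε / 8 := by
    rw [div_le_iff₀ (by positivity)]
    rw [div_le_iff₀ (by positivity)] at hnn₁
    linarith
  have hηε : ‖η‖ ≤ ε / 8 := hηn.trans hη4
  have hη1 : ‖η‖ < 1 := by linarith
  have hη1' : 1 + η ≠ 0 := by
    intro h
    have : ‖η‖ = 1 := by
      rw [show η = -1 by linear_combination h, norm_neg, norm_one]
    linarith
  obtain ⟨ζ, hζ⟩ : ∃ ζ : ℂ, ζ = Complex.log (1 + η) / n := ⟨_, rfl⟩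
  have hlog : ‖Complex.log (1 + η)‖ ≤ (1 + ε / 8) * ‖η‖ := by
    have h3 := Complex.norm_log_one_add_le hη1
    refine h3.trans ?_
    have h4 : (1 - ‖η‖)⁻¹ ≤ 2 := by
      rw [inv_le_comm₀ (by linarith) (by norm_num)]
      linarith
    have h5 : ‖η‖ ^ 2 * (1 - ‖η‖)⁻¹ / 2 ≤ ‖η‖ ^ 2 * 2 / 2 := by gcongr
    nlinarith [norm_nonneg η]
  have hζn : ‖ζ‖ ≤ (1 + ε / 8) * ‖η‖ / n := by
    rw [hζ, norm_div, Complex.norm_natCast]
    gcongr
  have hζε : ‖ζ‖ ≤ ε / 4 := by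
    refine hζn.trans ?_
    rw [div_le_iff₀ hn0]
    nlinarith [norm_nonneg η]
  refine ⟨s * Complex.exp ζ, ?_, ?_⟩
  · have e1 : (s * Complex.exp ζ * v) ^ n = (s * v) ^ n * Complex.exp ζ ^ n := by
      rw [← mul_pow]; ring
    have hnc : (n : ℂ) ≠ 0 := by exact_mod_cast hn0.ne'
    rw [e1, ← Complex.exp_nat_mul, hζ, mul_div_cancel₀ _ hnc, Complex.exp_log hη1', ← hx, hη]
    field_simp
    ring
  · have e1 : s * Complex.exp ζ - s = s * (Complex.exp ζ - 1) := by ring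
    rw [e1, norm_mul]
    have h5 : ‖Complex.exp ζ - 1‖ ≤ (1 + ε / 4) * ‖ζ‖ := by
      have h6 := Complex.norm_exp_sub_one_sub_id_le (x := ζ) (by linarith)
      calc ‖Complex.exp ζ - 1‖ = ‖(Complex.exp ζ - 1 - ζ) + ζ‖ := by ring_nf
        _ ≤ ‖Complex.exp ζ - 1 - ζ‖ + ‖ζ‖ := norm_add_le _ _
        _ ≤ ‖ζ‖ ^ 2 + ‖ζ‖ := by gcongr
        _ ≤ _ := by nlinarith [norm_nonneg ζ]
    rw [← hηeq]
    calc ‖s‖ * ‖Complex.exp ζ - 1‖ ≤ ‖s‖ * ((1 + ε / 4) * ((1 + ε / 8) * ‖η‖ / n)) := by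
          gcongr
          exact h5.trans (by gcongr)
      _ = (1 + ε / 4) * (1 + ε / 8) * ‖s‖ * ‖η‖ / n := by ring
      _ ≤ (1 + ε) * ‖s‖ * ‖η‖ / n := by
          gcongr
          nlinarith

end Pool.Agent.K3h20.CR
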