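import Pool.Agent.K3h20.CR.Fin5

/-!
# Project CR2: distance to the hyperbolic parameters, assembly
-/

set_option autoImplicit false

open Set Filter Topology MeasureTheory Metric

namespace Pool.Agent.K3h20.CR

open Pool.Agent.H762R2.Rt

theorem one_s_dist {r g : ℂ → ℂ} {y a : ℂ} {ρ₀ ε d B c : ℝ} (hN : Near r g y a d B)
    (hG : Good r g y ρ₀ ε d B c) {v : ℂ} (hv : v ≠ 0) {b : ℝ} (hb : 0 < b) {δ : ℝ} (hδ : 0 ≤ δ)
    (hdense : ∀ c : ℂ, ∃ c' : ℂ, (QEsc c' ∨ QAtt c') ∧ ‖c' - c‖ ≤ δ) {η : ℝ} (hη : 0 < η) :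
    ∃ n₀ : ℕ, ∀ n : ℕ, n₀ ≤ n → ∀ s : ℂ, ‖s‖ ≤ b → (s * v) ^ n ∈ Und r n ρ₀ →
      ∃ s' : ℂ, ((s' * v) ^ n ∉ Und r n ρ₀ ∨ Att r n ((s' * v) ^ n)) ∧
        ‖s' - s‖ ≤ (1 / (‖v‖ * ‖y‖ * ‖a * y‖) * δ + η) / n ^ 2 ∧
        ρ₀ / 2 ≤ ‖(s' * v) ^ n‖ ∧ ‖(s' * v) ^ n‖ ≤ 2 * ρ₀⁻¹ := by
  have hρ := hG.hρ
  have hρ1 := hG.hρ1
  have hinv : 1 < ρ₀⁻¹ := (one_lt_inv₀ hρ).2 hρ1
  have hα0 : a * y ≠ 0 := mul_ne_zero hN.ha hN.hy
  have hαn : 0 < ‖a * y‖ := norm_pos_iff.2 hα0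
  have hvn : 0 < ‖v‖ := norm_pos_iff.2 hv
  have hyn : 0 < ‖y‖ := norm_pos_iff.2 hN.hy
  obtain ⟨κ, hκ⟩ : ∃ κ : ℝ, κ = 1 / (‖v‖ * ‖y‖ * ‖a * y‖) := ⟨_, rfl⟩
  have hκ0 : 0 < κ := by rw [hκ]; positivity
  rw [← hκ]
  -- small parameters
  obtain ⟨e, he0, he1, heb⟩ : ∃ e : ℝ, 0 < e ∧ e ≤ 1 ∧ 7 * e * (κ * δ) ≤ η / 2 := by
    refine ⟨min 1 (η / (14 * (κ * δ + 1))), by positivity, min_le_left _ _, ?_⟩
    calc 7 * min 1 (η / (14 * (κ * δ + 1))) * (κ * δ) ≤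
          7 * (η / (14 * (κ * δ + 1))) * (κ * δ) := by gcongr; exact min_le_right _ _
      _ = η / 2 * ((κ * δ) / (κ * δ + 1)) := by field_simp; ring
      _ ≤ η / 2 * 1 := by
          gcongr
          rw [div_le_one (by positivity)]
          linarith
      _ = η / 2 := by ring
  obtain ⟨η₀, hη₀0, hη₀1, hη₀a, hη₀b⟩ : ∃ η₀ : ℝ, 0 < η₀ ∧ η₀ ≤ 1 ∧ 2 * b * η₀ / ρ₀ ≤ η ∧
      8 * η₀ / (‖v‖ * ‖y‖) ≤ η / 2 := by
    refine ⟨min 1 (min (η * ρ₀ / (2 * b)) (η * (‖v‖ * ‖y‖) / 16)), by positivity,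
      min_le_left _ _, ?_, ?_⟩
    · calc 2 * b * min 1 (min (η * ρ₀ / (2 * b)) (η * (‖v‖ * ‖y‖) / 16)) / ρ₀ ≤
            2 * b * (η * ρ₀ / (2 * b)) / ρ₀ := by
              gcongr
              exact (min_le_right _ _).trans (min_le_left _ _)
        _ = η := by field_simp
    · calc 8 * min 1 (min (η * ρ₀ / (2 * b)) (η * (‖v‖ * ‖y‖) / 16)) / (‖v‖ * ‖y‖) ≤
            8 * (η * (‖v‖ * ‖y‖) / 16) / (‖v‖ * ‖y‖) := by
              gcongr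
              exact (min_le_right _ _).trans (min_le_right _ _)
        _ = η / 2 := by field_simp; norm_num
  obtain ⟨R, hR, n₁, hpt⟩ := one_point_dist hN hG hδ hdense hη₀0 hη₀1
  obtain ⟨C, hC⟩ : ∃ C : ℝ, C = δ / ‖a * y‖ + η₀ := ⟨_, rfl⟩
  have hC0 : 0 < C := by rw [hC]; positivity
  have hη₀C : η₀ ≤ C := by
    rw [hC]
    have : 0 ≤ δ / ‖a * y‖ := by positivity
    linarith
  obtain ⟨n₂, hmv⟩ := move2 hρ hC0 he0 he1
  obtain ⟨n₃, hn₃⟩ := exists_nat_ge (2 * C / ρ₀)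
  obtain ⟨n₄, hn₄⟩ := exists_nat_ge (ρ₀⁻¹ / e)
  obtain ⟨n₅, hn₅⟩ := exists_nat_ge (R * (1 + e) / (‖y‖ * e))
  refine ⟨max (max (max n₁ n₂) (max n₃ n₄)) (max n₅ 1), ?_⟩
  intro n hn s hsb hU
  have hnn₁ : n₁ ≤ n := by omega
  have hnn₂ : n₂ ≤ n := by omega
  have hnn₃ : n₃ ≤ n := by omega
  have hnn₄ : n₄ ≤ n := by omega
  have hnn₅ : n₅ ≤ n := by omega
  have hn1 : 1 ≤ n := by omega
  have hn0 : (0 : ℝ) < n := by exact_mod_cast hn1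
  obtain ⟨x, hx⟩ : ∃ x : ℂ, x = (s * v) ^ n := ⟨_, rfl⟩
  obtain ⟨g1, g2⟩ := hU 0
  have e0 : orb r n ((s * v) ^ n) 0 = (s * v) ^ n := rfl
  rw [e0, ← hx] at g1 g2
  have hx0 : 0 < ‖x‖ := by linarith
  obtain ⟨x', hx'1, hx'2⟩ := hpt n hnn₁ x
  have hx'3 : ‖x' - x‖ ≤ C / n := by
    rcases hx'2 with ⟨-, h⟩ | ⟨-, h⟩
    · exact h.trans (by gcongr)
    · rw [hC]; exact h
  obtain ⟨s', hs'1, hs'2⟩ := hmv n hnn₂ s v x' (by rw [← hx]; exact g1)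
    (by rw [← hx]; exact hx'3)
  rw [← hx] at hs'2
  have hCn : C / n ≤ ρ₀ / 2 := by
    have k1 : 2 * C / ρ₀ ≤ n := hn₃.trans (by exact_mod_cast hnn₃)
    rw [div_le_iff₀ hρ] at k1
    rw [div_le_iff₀ hn0]
    linarith
  refine ⟨s', by rw [hs'1]; exact hx'1, ?_, ?_, ?_⟩
  · rcases hx'2 with ⟨-, h⟩ | ⟨hnear, h⟩
    · -- far
      refine hs'2.trans ?_
      have k1 : (1 + e) * ‖s‖ * (‖x' - x‖ / ‖x‖) / n ≤ 2 * b * (η₀ / n / ρ₀) / n := by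
        gcongr
        linarith
      refine k1.trans ?_
      have k2 : 2 * b * (η₀ / n / ρ₀) / n = (2 * b * η₀ / ρ₀) / n ^ 2 := by field_simp
      rw [k2]
      gcongr
      have : 0 ≤ κ * δ := by positivity
      linarith
    · -- near
      have hsv : ‖s‖ ≤ (1 + e) / ‖v‖ := by
        rw [le_div_iff₀ hvn]
        by_contra hcon
        push Not at hcon
        have k1 : (1 + e) ^ n ≤ ‖x‖ := by
          rw [hx, norm_pow, norm_mul]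
          exact pow_le_pow_left₀ (by positivity) hcon.le n
        have k2 : 1 + (n : ℝ) * e ≤ (1 + e) ^ n :=
          one_add_mul_le_pow (by linarith) n
        have k3 : ρ₀⁻¹ / e ≤ n := hn₄.trans (by exact_mod_cast hnn₄)
        rw [div_le_iff₀ he0] at k3
        linarith
      have hxy : ‖y‖ / (1 + e) ≤ ‖x‖ := by
        have k1 : ‖y‖ ≤ ‖x‖ + ‖x - y‖ := by
          calc ‖y‖ = ‖x - (x - y)‖ := by ring_nf
            _ ≤ _ := norm_sub_le _ _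
        have k2 : R * (1 + e) / (‖y‖ * e) ≤ n := hn₅.trans (by exact_mod_cast hnn₅)
        rw [div_le_iff₀ (by positivity)] at k2
        have k3 : R / n ≤ ‖y‖ * e / (1 + e) := by
          rw [div_le_div_iff₀ hn0 (by positivity)]
          linarith
        have k4 : ‖y‖ / (1 + e) + ‖y‖ * e / (1 + e) = ‖y‖ := by field_simp
        linarith
      have hxinv : 1 / ‖x‖ ≤ (1 + e) / ‖y‖ := by
        rw [div_le_div_iff₀ hx0 hyn]
        rw [div_le_iff₀ (by positivity)] at hxy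
        linarith
      refine hs'2.trans ?_
      have k1 : (1 + e) * ‖s‖ * (‖x' - x‖ / ‖x‖) / n ≤
          (1 + e) * ((1 + e) / ‖v‖) * ((δ / ‖a * y‖ + η₀) / n * ((1 + e) / ‖y‖)) / n := by
        have e1 : ‖x' - x‖ / ‖x‖ = ‖x' - x‖ * (1 / ‖x‖) := by ring
        rw [e1]
        gcongr
      refine k1.trans ?_
      have k2 : (1 + e) * ((1 + e) / ‖v‖) * ((δ / ‖a * y‖ + η₀) / n * ((1 + e) / ‖y‖)) / n =
          ((1 + e) ^ 3 * (κ * δ) + (1 + e) ^ 3 * η₀ / (‖v‖ * ‖y‖)) / n ^ 2 := by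
        rw [hκ]; field_simp
      rw [k2]
      apply div_le_div_of_nonneg_right _ (by positivity)
      have k3 : (1 + e) ^ 3 ≤ 1 + 7 * e := by nlinarith [mul_pos he0 he0]
      have k4 : (1 + e) ^ 3 ≤ 8 := by linarith
      have k5 : (1 + e) ^ 3 * (κ * δ) ≤ (1 + 7 * e) * (κ * δ) := by gcongr
      have k6 : (1 + e) ^ 3 * η₀ / (‖v‖ * ‖y‖) ≤ 8 * η₀ / (‖v‖ * ‖y‖) := by gcongr
      linarith
  · rw [hs'1]
    have : ‖x‖ ≤ ‖x'‖ + ‖x' - x‖ := by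
      calc ‖x‖ = ‖x' - (x' - x)‖ := by ring_nf
        _ ≤ _ := norm_sub_le _ _
    linarith
  · rw [hs'1]
    have : ‖x'‖ ≤ ‖x‖ + ‖x' - x‖ := by
      calc ‖x'‖ = ‖x + (x' - x)‖ := by ring_nf
        _ ≤ _ := norm_add_le _ _
    linarith

theorem main3 {P Q : Polynomial ℂ} (hc : IsCoprime P Q) {D : ℕ}
    (hD : D = max P.natDegree Q.natDegree) (hD1 : 1 ≤ D) {a b : ℝ} (ha : 0 < a) (hab : a ≤ b)
    (h0 : ∀ t : ℝ, a ≤ t → t ≤ b → t * ‖P.coeff 0‖ ≠ ‖Q.coeff 0‖ ∧ t * ‖P.coeff D‖ ≠ ‖Q.coeff D‖)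
    (hsimple : ∀ y ∈ live P Q a b, (Polynomial.derivative (wro P Q)).eval y ≠ 0)
    (hdist : ∀ y ∈ live P Q a b, ∀ y' : ℂ, (wro P Q).eval y' = 0 →
      ‖P.eval y'‖ * ‖Q.eval y‖ = ‖P.eval y‖ * ‖Q.eval y'‖ → y' = y)
    {K : ℝ} (hK0 : 0 ≤ K) (hK : ∀ y ∈ live P Q a b, 2 * ‖Q.eval y‖ ^ 2 ≤
      K * (‖y‖ ^ 2 * ‖(Polynomial.derivative (wro P Q)).eval y‖))
    {τ : ℝ} (hτ : 0 ≤ τ)
    (hdense : ∀ c : ℂ, ∃ c' : ℂ, (QEsc c' ∨ QAtt c') ∧ ‖c' - c‖ ≤ τ)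
    {η : ℝ} (hη : 0 < η) :
    ∃ n₀ : ℕ, ∀ n : ℕ, n₀ ≤ n → ∀ s : ℂ, a ≤ ‖s‖ → ‖s‖ ≤ b → ∃ s' : ℂ,
      ‖s' - s‖ ≤ (K * τ + η) / n ^ 2 ∧
        Hyp (Polynomial.C s' * Polynomial.expand ℂ n P) (Polynomial.expand ℂ n Q) := by
  have hb : 0 < b := lt_of_lt_of_le ha hab
  have hwro : wro P Q ≠ 0 := wro_ne_zero hc (by rw [← hD]; exact hD1)
  -- the critical points
  obtain ⟨Z, hZ⟩ : ∃ Z : Set ℂ, Z = {y | (wro P Q).eval y = 0} := ⟨_, rfl⟩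
  have hZfin : Z.Finite := by
    rw [hZ]
    refine (wro P Q).roots.toFinset.finite_toSet.subset fun y hy => ?_
    simpa [Polynomial.mem_roots hwro] using hy
  obtain ⟨F, hF⟩ : ∃ F : Set ℝ, F = insert (‖Q.coeff 0‖ / ‖P.coeff 0‖)
      (insert (‖Q.coeff D‖ / ‖P.coeff D‖) ((fun y => ‖Q.eval y‖ / ‖P.eval y‖) '' Z)) := ⟨_, rfl⟩
  have hFfin : F.Finite := by
    rw [hF]
    exact ((hZfin.image _).insert _).insert _
  obtain ⟨δ, hδ, hgap⟩ := gap_of_finite hFfin a b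
  obtain ⟨a', ha'⟩ : ∃ a' : ℝ, a' = a - min δ (a / 2) := ⟨_, rfl⟩
  have ham : 0 < min δ (a / 2) := lt_min hδ (by linarith)
  have ha'0 : 0 < a' := by rw [ha']; linarith [min_le_right δ (a / 2)]
  have ha'a : a' < a := by rw [ha']; linarith
  have ha'δ : a - δ ≤ a' := by rw [ha']; linarith [min_le_left δ (a / 2)]
  obtain ⟨b', hb'⟩ : ∃ b' : ℝ, b' = b + δ := ⟨_, rfl⟩
  have hbb' : b < b' := by rw [hb']; linarith
  have hcc : ∀ p q : ℂ, (p ≠ 0 ∨ q ≠ 0) → ‖q‖ / ‖p‖ ∈ F →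
      (∀ t, a ≤ t → t ≤ b → t * ‖p‖ ≠ ‖q‖) → ∀ t, a' ≤ t → t ≤ b' → t * ‖p‖ ≠ ‖q‖ := by
    intro p q hpq hmem h t ht1 ht2 heq
    by_cases hp : p = 0
    · rw [hp, norm_zero, mul_zero] at heq
      exact hpq.elim (fun h' => h' hp) (fun h' => h' (norm_eq_zero.1 heq.symm))
    · have hp' : 0 < ‖p‖ := norm_pos_iff.2 hp
      have e1 : ‖q‖ / ‖p‖ = t := by rw [← heq]; field_simp
      rw [e1] at hmem
      obtain ⟨h1, h2⟩ := hgap t hmem (by linarith) (by linarith)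
      exact h t h1 h2 heq
  have hcoef0 : P.coeff 0 ≠ 0 ∨ Q.coeff 0 ≠ 0 := by
    rw [Polynomial.coeff_zero_eq_eval_zero, Polynomial.coeff_zero_eq_eval_zero]
    exact both_ne hc 0
  have hcoefD : P.coeff D ≠ 0 ∨ Q.coeff D ≠ 0 := by
    rcases max_choice P.natDegree Q.natDegree with h | h
    · left
      rw [hD, h]
      have hP0 : P ≠ 0 := by
        rintro rfl
        rw [Polynomial.natDegree_zero] at h
        rw [hD, Polynomial.natDegree_zero, h] at hD1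
        omega
      exact Polynomial.leadingCoeff_ne_zero.2 hP0
    · right
      rw [hD, h]
      have hQ0 : Q ≠ 0 := by
        rintro rfl
        rw [Polynomial.natDegree_zero] at h
        rw [hD, Polynomial.natDegree_zero, h] at hD1
        omega
      exact Polynomial.leadingCoeff_ne_zero.2 hQ0
  have h0' : ∀ t : ℝ, a' ≤ t → t ≤ b' →
      t * ‖P.coeff 0‖ ≠ ‖Q.coeff 0‖ ∧ t * ‖P.coeff D‖ ≠ ‖Q.coeff D‖ := by
    intro t ht1 ht2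
    exact ⟨hcc _ _ hcoef0 (by rw [hF]; exact mem_insert _ _) (fun t h1 h2 => (h0 t h1 h2).1) t
      ht1 ht2, hcc _ _ hcoefD (by rw [hF]; exact mem_insert_of_mem _ (mem_insert _ _))
      (fun t h1 h2 => (h0 t h1 h2).2) t ht1 ht2⟩
  obtain ⟨ρ₀, hρ, hρ1, n₁, hdyn⟩ :=
    Pool.Agent.K3h22.CR.t_dyn2 P Q hc D hD hD1 a' b' ha'0 (by linarith) h0'
  have hinv : 1 < ρ₀⁻¹ := (one_lt_inv₀ hρ).2 hρ1
  -- the critical values off the annulus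
  have hdead : ∀ y ∈ Z, y ∉ live P Q a b → P.eval y ≠ 0 → Q.eval y ≠ 0 → ∃ n₀ : ℕ, ∀ n : ℕ,
      n₀ ≤ n → ∀ s : ℂ, a' ≤ ‖s‖ → ‖s‖ ≤ b' →
      (s * (P.eval y / Q.eval y)) ^ n ∉ Und (rr P Q y) n ρ₀ := by
    intro y hy hyl hP hQ
    have hP' : 0 < ‖P.eval y‖ := norm_pos_iff.2 hP
    have hQ' : 0 < ‖Q.eval y‖ := norm_pos_iff.2 hQ
    have hv : 0 < ‖P.eval y / Q.eval y‖ := by rw [norm_div]; positivity
    have hdich : b' * ‖P.eval y / Q.eval y‖ < 1 ∨ 1 < a' * ‖P.eval y / Q.eval y‖ := by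
      by_contra hcon
      push Not at hcon
      obtain ⟨h1, h2⟩ := hcon
      rw [norm_div] at h1 h2
      have h3 : ‖Q.eval y‖ / ‖P.eval y‖ ≤ b + δ := by
        rw [div_le_iff₀ hP', ← hb']
        rw [mul_div_assoc', le_div_iff₀ hQ'] at h1
        linarith
      have h4 : a - δ ≤ ‖Q.eval y‖ / ‖P.eval y‖ := by
        rw [le_div_iff₀ hP']
        rw [mul_div_assoc', div_le_iff₀ hQ'] at h2
        nlinarith
      obtain ⟨h5, h6⟩ := hgap _ (by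
        rw [hF]
        exact mem_insert_of_mem _ (mem_insert_of_mem _ (mem_image_of_mem _ hy))) h4 h3
      apply hyl
      rw [le_div_iff₀ hP'] at h5
      rw [div_le_iff₀ hP'] at h6
      rw [hZ] at hy
      exact ⟨hy, h5, h6⟩
    obtain ⟨n₀, hn₀⟩ := not_live ha'0 hv hdich hρ
    refine ⟨n₀, fun n hn s hs1 hs2 hU => ?_⟩
    obtain ⟨h1, h2⟩ := hU 0
    have e0 : orb (rr P Q y) n ((s * (P.eval y / Q.eval y)) ^ n) 0 =
      (s * (P.eval y / Q.eval y)) ^ n := rfl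
    rw [e0, norm_pow, norm_mul] at h1 h2
    rcases hn₀ n hn ‖s‖ hs1 hs2 with h3 | h3 <;> linarith
  -- uniformly
  obtain ⟨n₂, hdead'⟩ := eventually_finite hZfin
    (p := fun y n => y ∉ live P Q a b → P.eval y ≠ 0 → Q.eval y ≠ 0 → ∀ s : ℂ, a' ≤ ‖s‖ →
      ‖s‖ ≤ b' → (s * (P.eval y / Q.eval y)) ^ n ∉ Und (rr P Q y) n ρ₀) (by
      intro y hy
      by_cases h : y ∉ live P Q a b ∧ P.eval y ≠ 0 ∧ Q.eval y ≠ 0
      · obtain ⟨n₀, hn₀⟩ := hdead y hy h.1 h.2.1 h.2.2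
        exact ⟨n₀, fun n hn _ _ _ => hn₀ n hn⟩
      · exact ⟨0, fun n _ h1 h2 h3 => absurd ⟨h1, h2, h3⟩ h⟩)
  -- the live critical points
  have hliveZ : live P Q a b ⊆ Z := by
    intro y hy
    rw [hZ]
    exact hy.1
  have hLfin : (live P Q a b).Finite := hZfin.subset hliveZ
  have hlive0 : ∀ y ∈ live P Q a b, y ≠ 0 := by
    rintro y hy rfl
    obtain ⟨hP, hQ⟩ := live_ne hc ha hy
    obtain ⟨-, h1, h2⟩ := hy
    have hP' : 0 < ‖P.eval 0‖ := norm_pos_iff.2 hP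
    have h3 := (h0 (‖Q.eval 0‖ / ‖P.eval 0‖) (by rw [le_div_iff₀ hP']; exact h1)
      (by rw [div_le_iff₀ hP']; exact h2)).1
    rw [Polynomial.coeff_zero_eq_eval_zero, Polynomial.coeff_zero_eq_eval_zero] at h3
    exact h3 (by field_simp)
  have hpoint : ∀ y ∈ live P Q a b, ∃ n₀ : ℕ, ∀ n : ℕ, n₀ ≤ n → ∀ s : ℂ, ‖s‖ ≤ b →
      (s * (P.eval y / Q.eval y)) ^ n ∈ Und (rr P Q y) n ρ₀ →
      ∃ s' : ℂ, ((s' * (P.eval y / Q.eval y)) ^ n ∉ Und (rr P Q y) n ρ₀ ∨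
          Att (rr P Q y) n ((s' * (P.eval y / Q.eval y)) ^ n)) ∧
        ‖s' - s‖ ≤ (K * τ + η) / n ^ 2 ∧
        ρ₀ / 2 ≤ ‖(s' * (P.eval y / Q.eval y)) ^ n‖ ∧
        ‖(s' * (P.eval y / Q.eval y)) ^ n‖ ≤ 2 * ρ₀⁻¹ := by
    intro y hy
    obtain ⟨hP, hQ⟩ := live_ne hc ha hy
    have hy0 := hlive0 y hy
    obtain ⟨α, ε, d, B, c, hN, hG⟩ := Pool.Agent.K3h74.CR.t_dat P Q hc y hy0 hP hQ hy.1
      (hsimple y hy) (hdist y hy) ρ₀ hρ hρ1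
    obtain ⟨m, hm⟩ := one_s_dist hN hG (div_ne_zero hP hQ) hb hτ hdense hη
    refine ⟨m, fun n hn s hsb hU => ?_⟩
    obtain ⟨s', h1, h2, h3, h4⟩ := hm n hn s hsb hU
    refine ⟨s', h1, h2.trans ?_, h3, h4⟩
    apply div_le_div_of_nonneg_right _ (by positivity)
    gcongr
    have hPn := norm_pos_iff.2 hP
    have hQn := norm_pos_iff.2 hQ
    have hyn := norm_pos_iff.2 hy0
    have hwn := norm_pos_iff.2 (hsimple y hy)
    rw [near_a hP hQ hy.1 hN]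
    simp only [norm_div, norm_mul, Complex.norm_ofNat]
    have h5 := hK y hy
    rw [div_le_iff₀ (by positivity)]
    have e1 : K * (‖P.eval y‖ / ‖Q.eval y‖ * ‖y‖ *
        (‖(Polynomial.derivative (wro P Q)).eval y‖ / (2 * (‖P.eval y‖ * ‖Q.eval y‖)) * ‖y‖)) =
        K * (‖y‖ ^ 2 * ‖(Polynomial.derivative (wro P Q)).eval y‖) / (2 * ‖Q.eval y‖ ^ 2) := by
      field_simp
    rw [e1, le_div_iff₀ (by positivity)]
    linarith
  obtain ⟨n₃, hpoint'⟩ := eventually_finite hLfin hpoint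
  -- two critical points are not live together
  obtain ⟨n₆, hpair⟩ := eventually_finite (hLfin.prod hLfin)
    (p := fun yy n => yy.1 ≠ yy.2 →
      (‖P.eval yy.2 / Q.eval yy.2‖ / ‖P.eval yy.1 / Q.eval yy.1‖) ^ n < ρ₀ ^ 2 / 2 ∨
      (ρ₀ ^ 2 / 2)⁻¹ < (‖P.eval yy.2 / Q.eval yy.2‖ / ‖P.eval yy.1 / Q.eval yy.1‖) ^ n) (by
      rintro ⟨y, y'⟩ ⟨hy, hy'⟩
      simp only at hy hy' ⊢
      obtain ⟨hP, hQ⟩ := live_ne hc ha hy
      obtain ⟨hP', hQ'⟩ := live_ne hc ha hy'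
      by_cases hyy : y = y'
      · exact ⟨0, fun n _ h => absurd hyy h⟩
      · have p1 := norm_pos_iff.2 hP
        have p2 := norm_pos_iff.2 hQ
        have p3 := norm_pos_iff.2 hP'
        have p4 := norm_pos_iff.2 hQ'
        obtain ⟨n₀, hn₀⟩ := pow_leaves
          (q := ‖P.eval y' / Q.eval y'‖ / ‖P.eval y / Q.eval y‖) (by
            rw [norm_div, norm_div]; positivity) (by
            intro h
            apply hyy
            rw [norm_div, norm_div] at h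
            refine (hdist y hy y' hy'.1 ?_).symm
            field_simp at h
            linarith) (ρ := ρ₀ ^ 2 / 2) (by positivity)
        exact ⟨n₀, fun n hn _ => hn₀ n hn⟩)
  have hKτ : 0 < K * τ + η := by positivity
  obtain ⟨n₇, hn₇⟩ := exists_nat_ge ((K * τ + η) / min (a - a') (b' - b))
  refine ⟨max (max n₁ n₂) (max (max n₃ n₆) (max n₇ 1)), ?_⟩
  intro n hn
  have hnn₁ : n₁ ≤ n := by omega
  have hnn₂ : n₂ ≤ n := by omega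
  have hnn₃ : n₃ ≤ n := by omega
  have hnn₆ : n₆ ≤ n := by omega
  have hnn₇ : n₇ ≤ n := by omega
  have hn1 : 1 ≤ n := by omega
  have hn0 : (0 : ℝ) < n := by exact_mod_cast hn1
  have hn1' : (1 : ℝ) ≤ n := by exact_mod_cast hn1
  -- hyperbolicity from the live critical points
  have hhyp : ∀ s : ℂ, a' ≤ ‖s‖ → ‖s‖ ≤ b' →
      (∀ y ∈ live P Q a b, (s * (P.eval y / Q.eval y)) ^ n ∉ Und (rr P Q y) n ρ₀ ∨
        Att (rr P Q y) n ((s * (P.eval y / Q.eval y)) ^ n)) →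
      Hyp (Polynomial.C s * Polynomial.expand ℂ n P) (Polynomial.expand ℂ n Q) := by
    intro s hs1 hs2 hl
    refine hdyn n hnn₁ s hs1 hs2 fun y hy hP hQ => ?_
    by_cases hyl : y ∈ live P Q a b
    · exact hl y hyl
    · exact Or.inl (hdead' n hnn₂ y (by rw [hZ]; exact hy) hyl hP hQ s hs1 hs2)
  intro s hs1 hs2
  by_cases hl : ∀ y ∈ live P Q a b, (s * (P.eval y / Q.eval y)) ^ n ∉ Und (rr P Q y) n ρ₀
  · exact ⟨s, by rw [sub_self, norm_zero]; positivity, hhyp s (by linarith) (by linarith)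
      fun y hy => Or.inl (hl y hy)⟩
  push Not at hl
  obtain ⟨y, hy, hU⟩ := hl
  obtain ⟨hP, hQ⟩ := live_ne hc ha hy
  obtain ⟨s', hs'0, hs'3, g3, g4⟩ := hpoint' n hnn₃ y hy s hs2 hU
  have hmin : 0 < min (a - a') (b' - b) := lt_min (by linarith) (by linarith)
  have hs'4 : ‖s' - s‖ ≤ min (a - a') (b' - b) := by
    refine hs'3.trans ?_
    have k1 : (K * τ + η) / min (a - a') (b' - b) ≤ n :=
      hn₇.trans (by exact_mod_cast hnn₇)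
    rw [div_le_iff₀ hmin] at k1
    rw [div_le_iff₀ (by positivity)]
    have k2 : (n : ℝ) ≤ n ^ 2 := by nlinarith
    calc K * τ + η ≤ n * min (a - a') (b' - b) := k1
      _ ≤ n ^ 2 * min (a - a') (b' - b) := by gcongr
      _ = _ := by ring
  have hs'5 : a' ≤ ‖s'‖ := by
    have : ‖s‖ ≤ ‖s'‖ + ‖s' - s‖ := by
      calc ‖s‖ = ‖s' - (s' - s)‖ := by ring_nf
        _ ≤ _ := norm_sub_le _ _
    linarith [min_le_left (a - a') (b' - b)]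
  have hs'6 : ‖s'‖ ≤ b' := by
    have : ‖s'‖ ≤ ‖s‖ + ‖s' - s‖ := by
      calc ‖s'‖ = ‖s + (s' - s)‖ := by ring_nf
        _ ≤ _ := norm_add_le _ _
    linarith [min_le_right (a - a') (b' - b)]
  refine ⟨s', hs'3, hhyp s' hs'5 hs'6 ?_⟩
  intro y' hy'
  by_cases hyy : y = y'
  · rw [← hyy]
    exact hs'0
  · left
    intro hU'
    obtain ⟨hP', hQ'⟩ := live_ne hc ha hy'
    have hv : 0 < ‖P.eval y / Q.eval y‖ := norm_pos_iff.2 (div_ne_zero hP hQ)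
    obtain ⟨g5, g6⟩ := hU' 0
    have e1 : orb (rr P Q y') n ((s' * (P.eval y' / Q.eval y')) ^ n) 0 =
      (s' * (P.eval y' / Q.eval y')) ^ n := rfl
    rw [e1] at g5 g6
    obtain ⟨x', hx'⟩ : ∃ x' : ℂ, x' = (s' * (P.eval y / Q.eval y)) ^ n := ⟨_, rfl⟩
    rw [← hx'] at g3 g4
    have e2 : ‖(s' * (P.eval y' / Q.eval y')) ^ n‖ = ‖x'‖ *
        (‖P.eval y' / Q.eval y'‖ / ‖P.eval y / Q.eval y‖) ^ n := by
      rw [hx', norm_pow, norm_pow, norm_mul, norm_mul, ← mul_pow]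
      congr 1
      field_simp
    rw [e2] at g5 g6
    have hx'0 : 0 < ‖x'‖ := by linarith
    rcases hpair n hnn₆ (y, y') ⟨hy, hy'⟩ hyy with h | h
    · simp only at h
      have : ‖x'‖ * (‖P.eval y' / Q.eval y'‖ / ‖P.eval y / Q.eval y‖) ^ n < ρ₀ := by
        calc ‖x'‖ * (‖P.eval y' / Q.eval y'‖ / ‖P.eval y / Q.eval y‖) ^ n
            < ‖x'‖ * (ρ₀ ^ 2 / 2) := by gcongr
          _ ≤ 2 * ρ₀⁻¹ * (ρ₀ ^ 2 / 2) := by gcongr
          _ = ρ₀ := by field_simp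
      linarith
    · simp only at h
      have : ρ₀⁻¹ < ‖x'‖ * (‖P.eval y' / Q.eval y'‖ / ‖P.eval y / Q.eval y‖) ^ n := by
        calc ρ₀⁻¹ = ρ₀ / 2 * (ρ₀ ^ 2 / 2)⁻¹ := by field_simp
          _ ≤ ‖x'‖ * (ρ₀ ^ 2 / 2)⁻¹ := by gcongr
          _ < _ := by gcongr
      linarith

end Pool.Agent.K3h20.CR
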