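import Pool.Agent.K3h20.CR.Fin6

/-!
# Project CR2: the central disc of the main cardioid
-/

set_option autoImplicit false

open Set Filter Topology MeasureTheory Metric

namespace Pool.Agent.K3h20.CR

theorem att_of_small {c : ℂ} (hc : ‖c‖ < 1 / 4) : QAtt c := by
  obtain ⟨r, hr⟩ : ∃ r : ℝ, r = 1 / 4 + ‖c‖ := ⟨_, rfl⟩
  have hr0 : 0 < r := by rw [hr]; positivity
  have hr1 : r < 1 / 2 := by rw [hr]; linarith
  obtain ⟨f, hf⟩ : ∃ f : ℂ → ℂ, f = fun z => z ^ 2 + c := ⟨_, rfl⟩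
  have hmaps : MapsTo f (closedBall 0 r) (closedBall 0 r) := by
    intro z hz
    rw [mem_closedBall_zero_iff] at hz ⊢
    rw [hf]
    calc ‖z ^ 2 + c‖ ≤ ‖z‖ ^ 2 + ‖c‖ := by
          rw [← norm_pow]; exact norm_add_le _ _
      _ ≤ r ^ 2 + ‖c‖ := by gcongr
      _ ≤ r := by nlinarith
  have hK : (2 * r).toNNReal < 1 := by
    rw [← Real.toNNReal_one, Real.toNNReal_lt_toNNReal_iff one_pos]
    linarith
  have hcon : ContractingWith (2 * r).toNNReal (hmaps.restrict f _ _) := by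
    refine ⟨hK, ?_⟩
    rw [lipschitzWith_iff_dist_le_mul]
    rintro ⟨z, hz⟩ ⟨w, hw⟩
    rw [mem_closedBall_zero_iff] at hz hw
    rw [Subtype.dist_eq, Subtype.dist_eq, MapsTo.val_restrict_apply, MapsTo.val_restrict_apply,
      Real.coe_toNNReal _ (by positivity), dist_eq_norm, dist_eq_norm, hf]
    have e1 : z ^ 2 + c - (w ^ 2 + c) = (z + w) * (z - w) := by ring
    rw [e1, norm_mul]
    gcongr
    exact (norm_add_le _ _).trans (by linarith)
  obtain ⟨y, hy, hfy, hlim, -⟩ := hcon.exists_fixedPoint' isClosed_closedBall.isComplete hmaps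
    (x := 0) (mem_closedBall_self hr0.le) (edist_ne_top _ _)
  rw [mem_closedBall_zero_iff] at hy
  refine ⟨y, 1, one_pos, ?_, ?_, ?_⟩
  · rw [← hf]; exact hfy
  · rw [Function.iterate_one]
    have h1 : HasDerivAt (fun z : ℂ => z ^ 2 + c) (2 * y) y := by
      have := (hasDerivAt_pow 2 y).add_const c
      simpa using this
    rw [h1.deriv, norm_mul, Complex.norm_ofNat]
    linarith
  · rw [← hf]
    simpa using hlim

theorem near_one (c : ℂ) : ∃ c' : ℂ, ‖c' - c‖ ≤ 1 ∧ (QEsc c' ∨ QAtt c') := by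
  by_cases h0 : c = 0
  · exact ⟨0, by rw [h0]; simp, Or.inr (att_of_small (by simp))⟩
  have hn : 0 < ‖c‖ := norm_pos_iff.2 h0
  by_cases h1 : ‖c‖ ≤ 1
  · exact ⟨0, by rw [zero_sub, norm_neg]; exact h1, Or.inr (att_of_small (by simp))⟩
  · push Not at h1
    refine ⟨c + c / ‖c‖, ?_, Or.inl (esc_of_large ?_)⟩
    · rw [add_sub_cancel_left, norm_div, Complex.norm_real, norm_norm, div_self hn.ne']
    · have e1 : c + c / ‖c‖ = c * ((1 + 1 / ‖c‖ : ℝ) : ℂ) := by
        push_cast; ring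
      rw [e1, norm_mul, Complex.norm_real, Real.norm_of_nonneg (by positivity), mul_add, mul_one,
        mul_one_div_cancel hn.ne']
      linarith

theorem QN_vol : volume QN ≤ ENNReal.ofReal (4 * Real.pi) := by
  refine (measure_mono QN_sub).trans (le_of_eq ?_)
  rw [vol_ball 0 (by norm_num)]
  congr 1
  ring

end Pool.Agent.K3h20.CR
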