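import Pool.Agent.K3h20.CR.Stm

/-!
# Project CR: the key lemma, part 1
-/

set_option autoImplicit false

open Set Filter Topology MeasureTheory Metric

namespace Pool.Agent.K3h20.CR

/-- Points of an undecided orbit are close to the level curve. -/
theorem und_lev {r : ℂ → ℂ} {n : ℕ} {ρ₀ : ℝ} (hρ : 0 < ρ₀) (hn : 1 ≤ n) {x : ℂ}
    (hx : x ∈ Und r n ρ₀) (j : ℕ) : orb r n x j ∈ lev r ρ₀ (2 * Real.log ρ₀⁻¹ / n) := by
  have hn0 : (0 : ℝ) < n := by exact_mod_cast hn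
  obtain ⟨h1, h2⟩ := hx j
  obtain ⟨h3, h4⟩ := hx 0
  obtain ⟨h5, h6⟩ := hx (j + 1)
  have e0 : orb r n x 0 = x := rfl
  have e1 : orb r n x (j + 1) = x * r (orb r n x j) ^ n := rfl
  rw [e0] at h3 h4
  rw [e1, norm_mul, norm_pow] at h5 h6
  have hx0 : 0 < ‖x‖ := lt_of_lt_of_le hρ h3
  have hlow : ρ₀ ^ 2 ≤ ‖r (orb r n x j)‖ ^ n := by
    have h7 : ρ₀ ≤ ρ₀⁻¹ * ‖r (orb r n x j)‖ ^ n :=
      h5.trans (mul_le_mul_of_nonneg_right h4 (by positivity))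
    have h8 := mul_le_mul_of_nonneg_left h7 hρ.le
    rwa [← mul_assoc, mul_inv_cancel₀ hρ.ne', one_mul, ← sq] at h8
  have hup : ‖r (orb r n x j)‖ ^ n ≤ (ρ₀⁻¹) ^ 2 := by
    have h7 : ρ₀ * ‖r (orb r n x j)‖ ^ n ≤ ρ₀⁻¹ :=
      (mul_le_mul_of_nonneg_right h3 (by positivity)).trans h6
    have h8 := mul_le_mul_of_nonneg_left h7 (inv_pos.2 hρ).le
    rwa [← mul_assoc, inv_mul_cancel₀ hρ.ne', one_mul, ← sq] at h8
  refine ⟨h1, h2, ?_, ?_⟩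
  · rw [← pow_le_pow_iff_left₀ (Real.exp_pos _).le (norm_nonneg _) (by omega : n ≠ 0),
      ← Real.exp_nat_mul]
    refine le_trans (le_of_eq ?_) hlow
    have : (n : ℝ) * -(2 * Real.log ρ₀⁻¹ / n) = ((2 : ℕ) : ℝ) * Real.log ρ₀ := by
      rw [Real.log_inv]; push_cast; field_simp
    rw [this, Real.exp_nat_mul, Real.exp_log hρ]
  · rw [← pow_le_pow_iff_left₀ (norm_nonneg _) (Real.exp_pos _).le (by omega : n ≠ 0),
      ← Real.exp_nat_mul]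
    refine hup.trans (le_of_eq ?_)
    have : (n : ℝ) * (2 * Real.log ρ₀⁻¹ / n) = ((2 : ℕ) : ℝ) * Real.log ρ₀⁻¹ := by
      push_cast; field_simp
    rw [this, Real.exp_nat_mul, Real.exp_log (inv_pos.2 hρ)]

theorem exp_neg_le {t : ℝ} (h0 : 0 ≤ t) (h1 : t ≤ 1) : Real.exp (-t) ≤ 1 - t / 2 := by
  rw [Real.exp_neg, inv_eq_one_div, div_le_iff₀ (Real.exp_pos t)]
  have h2 := Real.add_one_le_exp t
  nlinarith

/-- The level neighbourhood around a point of the orbit. -/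
theorem lev_ball (hld : St_ld) {r g : ℂ → ℂ} {y : ℂ} {ρ₀ ε d B c : ℝ} (hG : Good r g y ρ₀ ε d B c)
    {L : ℝ} {n : ℕ} (hn : 1 ≤ n) (hL : L / n ≤ ε) {w : ℂ} (hw : w ∈ lev r ρ₀ (L / n))
    {ρ : ℝ} (hρ0 : 0 ≤ ρ) (hρd : ρ ≤ d) (hρρ : ρ ≤ ρ₀ / 2) (hρw : ρ ≤ ‖w - y‖)
    (hBρ : 2 * B * ‖w - y‖ * ρ ≤ 1 / (4 * n)) :
    closedBall w ρ ⊆ lev r (ρ₀ / 2) ((L + 1) / n) := by
  have hn0 : (0 : ℝ) < n := by exact_mod_cast hn
  have hn1 : (1 : ℝ) ≤ n := by exact_mod_cast hn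
  obtain ⟨h1, h2, h3, h4⟩ := hw
  have hρ₀ := hG.hρ
  have hρ1 := hG.hρ1
  have hinv : 1 < ρ₀⁻¹ := (one_lt_inv₀ hρ₀).2 hρ1
  have hB0 : 0 < B := lt_of_lt_of_le one_pos hG.hB
  obtain ⟨-, hlow⟩ := hG.low w (by linarith) (by rw [div_eq_mul_inv]; linarith)
    ((Real.exp_le_exp.2 (by linarith)).trans h3) (h4.trans (Real.exp_le_exp.2 hL))
  intro x hx
  have hxd : ‖x - w‖ ≤ ρ := by rwa [mem_closedBall, dist_eq_norm] at hx
  have hM : 2 * B * ‖w - y‖ * ρ ≤ 1 / 2 := by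
    refine hBρ.trans ?_
    rw [div_le_div_iff₀ (by positivity) (by norm_num)]
    linarith
  have hder : ∀ z ∈ closedBall w ρ, HasDerivAt r (g z * r z) z ∧
      ‖g z * r z‖ ≤ 2 * B * ‖w - y‖ * ‖r z‖ := by
    intro z hz
    have hzd : ‖z - w‖ ≤ ρ := by rwa [mem_closedBall, dist_eq_norm] at hz
    obtain ⟨-, k2, k3, -⟩ := hlow z (closedBall_subset_closedBall hρd hz)
    refine ⟨k2, ?_⟩
    rw [norm_mul]
    apply mul_le_mul_of_nonneg_right _ (norm_nonneg _)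
    have : ‖z - y‖ ≤ 2 * ‖w - y‖ := by
      calc ‖z - y‖ = ‖(z - w) + (w - y)‖ := by ring_nf
        _ ≤ ‖z - w‖ + ‖w - y‖ := norm_add_le _ _
        _ ≤ _ := by linarith
    nlinarith
  have hmain := hld r (fun z => g z * r z) w ρ (2 * B * ‖w - y‖) hρ0 (by positivity) hM hder x hx
  have hsmall : 2 * (2 * B * ‖w - y‖) * ‖x - w‖ ≤ 1 / (2 * n) := by
    calc 2 * (2 * B * ‖w - y‖) * ‖x - w‖ ≤ 2 * (2 * B * ‖w - y‖) * ρ := by gcongr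
      _ = 2 * (2 * B * ‖w - y‖ * ρ) := by ring
      _ ≤ 2 * (1 / (4 * n)) := by gcongr
      _ = 1 / (2 * n) := by field_simp; norm_num
  have hdiff : ‖r x - r w‖ ≤ 1 / (2 * n) * ‖r w‖ :=
    hmain.trans (mul_le_mul_of_nonneg_right hsmall (norm_nonneg _))
  have hup : ‖r x‖ ≤ (1 + 1 / (2 * n)) * ‖r w‖ := by
    calc ‖r x‖ = ‖(r x - r w) + r w‖ := by ring_nf
      _ ≤ ‖r x - r w‖ + ‖r w‖ := norm_add_le _ _
      _ ≤ _ := by linarith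
  have hdn : (1 - 1 / (2 * n)) * ‖r w‖ ≤ ‖r x‖ := by
    have : ‖r w‖ ≤ ‖r x‖ + ‖r x - r w‖ := by
      calc ‖r w‖ = ‖r x - (r x - r w)‖ := by ring_nf
        _ ≤ _ := norm_sub_le _ _
    linarith
  have hn' : 1 / (n : ℝ) ≤ 1 := by rw [div_le_one hn0]; exact hn1
  have e2 : 1 / (2 * (n : ℝ)) = 1 / n / 2 := by field_simp
  refine ⟨?_, ?_, ?_, ?_⟩
  · have : ‖w‖ ≤ ‖x‖ + ‖x - w‖ := by
      calc ‖w‖ = ‖x - (x - w)‖ := by ring_nf
        _ ≤ _ := norm_sub_le _ _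
    linarith
  · have h5 : ‖x‖ ≤ ‖w‖ + ‖x - w‖ := by
      calc ‖x‖ = ‖w + (x - w)‖ := by ring_nf
        _ ≤ _ := norm_add_le _ _
    have : (ρ₀ / 2)⁻¹ = 2 * ρ₀⁻¹ := by rw [inv_div]; ring
    rw [this]
    linarith
  · calc Real.exp (-((L + 1) / n)) = Real.exp (-(1 / n)) * Real.exp (-(L / n)) := by
          rw [← Real.exp_add]; congr 1; ring
      _ ≤ (1 - 1 / (2 * n)) * ‖r w‖ := by
          apply mul_le_mul _ h3 (Real.exp_pos _).le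
          · rw [e2]; linarith
          · rw [e2]; exact exp_neg_le (by positivity) hn'
      _ ≤ ‖r x‖ := hdn
  · calc ‖r x‖ ≤ (1 + 1 / (2 * n)) * ‖r w‖ := hup
      _ ≤ Real.exp (1 / n) * Real.exp (L / n) := by
          apply mul_le_mul _ h4 (norm_nonneg _) (Real.exp_pos _).le
          rw [e2]
          have := Real.add_one_le_exp (1 / (n : ℝ))
          have h6 : 0 ≤ 1 / (n : ℝ) := by positivity
          linarith
      _ = Real.exp ((L + 1) / n) := by rw [← Real.exp_add]; congr 1; ring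

end Pool.Agent.K3h20.CR
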