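import Pool.Agent.K3h20.CR.KL1

/-!
# Project CR: the key lemma, part 2: distortion on a ball
-/

set_option autoImplicit false

open Set Filter Topology MeasureTheory Metric

namespace Pool.Agent.K3h20.CR

/-- Distortion of the orbit points on the ball of radius `c₃ |x₀ - y| / 2 ^ k`. -/
theorem ball_orb (hld : St_ld) {r : ℂ → ℂ} {y : ℂ} {n : ℕ} {c₁' C₁' μ c₃ : ℝ}
    (hμ1 : μ ≤ 1) (hc₃ : 0 < c₃) (hc₃8 : c₃ ≤ 1 / 8)
    (hnz : ∀ x : ℂ, C₁' ≤ ‖x - y‖ → ∀ k : ℕ, (∀ j < k, ‖orb r n x j - y‖ ≤ c₁') →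
      ∃ D : ℂ, HasDerivAt (fun t => orb r n t k) D x ∧
        ‖(x - y) * D - 2 ^ k * (orb r n x k - y)‖ ≤ μ * 2 ^ k * ‖orb r n x k - y‖)
    {x₀ : ℂ} (hx₀ : 2 * C₁' ≤ ‖x₀ - y‖) (hx₀y : 0 < ‖x₀ - y‖) {k : ℕ}
    (hk : ∀ j < k, ‖orb r n x₀ j - y‖ ≤ c₁' / 2) :
    ∀ i ≤ k, ∀ x ∈ closedBall x₀ (c₃ * ‖x₀ - y‖ / 2 ^ k),
      ‖orb r n x i - orb r n x₀ i‖ ≤ 8 * c₃ * ‖orb r n x₀ i - y‖ ∧
      ∃ D : ℂ, HasDerivAt (fun t => orb r n t i) D x ∧
        ‖(x - y) * D - 2 ^ i * (orb r n x i - y)‖ ≤ μ * 2 ^ i * ‖orb r n x i - y‖ := by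
  set R : ℝ := c₃ * ‖x₀ - y‖ / 2 ^ k with hR
  have h2k : (1 : ℝ) ≤ 2 ^ k := one_le_pow₀ (by norm_num)
  have hR0 : 0 < R := by positivity
  have hRle : R ≤ ‖x₀ - y‖ / 8 := by
    rw [hR]
    calc c₃ * ‖x₀ - y‖ / 2 ^ k ≤ c₃ * ‖x₀ - y‖ / 1 := by gcongr
      _ ≤ ‖x₀ - y‖ / 8 := by nlinarith
  have hxy : ∀ x ∈ closedBall x₀ R, ‖x₀ - y‖ / 2 ≤ ‖x - y‖ := by
    intro x hx
    have hxd : ‖x - x₀‖ ≤ R := by rwa [mem_closedBall, dist_eq_norm] at hx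
    have : ‖x₀ - y‖ ≤ ‖x - y‖ + ‖x - x₀‖ := by
      calc ‖x₀ - y‖ = ‖(x - y) - (x - x₀)‖ := by ring_nf
        _ ≤ _ := norm_sub_le _ _
    linarith
  intro i
  induction i using Nat.strong_induction_on with
  | _ i ih =>
    intro hik
    -- the derivative exists on the whole ball
    have hD : ∀ x ∈ closedBall x₀ R, ∃ D : ℂ, HasDerivAt (fun t => orb r n t i) D x ∧
        ‖(x - y) * D - 2 ^ i * (orb r n x i - y)‖ ≤ μ * 2 ^ i * ‖orb r n x i - y‖ := by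
      intro x hx
      refine hnz x (by linarith [hxy x hx]) i ?_
      intro j hj
      have h1 := (ih j hj (by omega) x hx).1
      have h2 := hk j (by omega)
      have h3 : ‖orb r n x j - y‖ ≤ ‖orb r n x j - orb r n x₀ j‖ + ‖orb r n x₀ j - y‖ := by
        calc ‖orb r n x j - y‖ = ‖(orb r n x j - orb r n x₀ j) + (orb r n x₀ j - y)‖ := by
              ring_nf
          _ ≤ _ := norm_add_le _ _
      have h4 : 8 * c₃ * ‖orb r n x₀ j - y‖ ≤ 1 * ‖orb r n x₀ j - y‖ :=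
        mul_le_mul_of_nonneg_right (by linarith) (norm_nonneg _)
      linarith
    choose! D hD1 hD2 using hD
    have hM : 4 * 2 ^ i / ‖x₀ - y‖ * R ≤ 1 / 2 := by
      have h1 : (2 : ℝ) ^ i ≤ 2 ^ k := pow_le_pow_right₀ (by norm_num) hik
      rw [hR]
      have h2k' : (0 : ℝ) < 2 ^ k := by positivity
      have e1 : 4 * 2 ^ i / ‖x₀ - y‖ * (c₃ * ‖x₀ - y‖ / 2 ^ k) = 4 * c₃ * (2 ^ i / 2 ^ k) := by
        field_simp
      rw [e1]
      have : (2 : ℝ) ^ i / 2 ^ k ≤ 1 := by rw [div_le_one h2k']; exact h1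
      nlinarith
    intro x hx
    refine ⟨?_, D x, hD1 x hx, hD2 x hx⟩
    have hder : ∀ z ∈ closedBall x₀ R, HasDerivAt (fun t => orb r n t i - y) (D z) z ∧
        ‖D z‖ ≤ 4 * 2 ^ i / ‖x₀ - y‖ * ‖orb r n z i - y‖ := by
      intro z hz
      refine ⟨(hD1 z hz).sub_const y, ?_⟩
      have h1 := hD2 z hz
      have h2 := hxy z hz
      have h2i : (0 : ℝ) < 2 ^ i := by positivity
      have h3 : ‖(z - y) * D z‖ ≤ 2 * 2 ^ i * ‖orb r n z i - y‖ := by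
        calc ‖(z - y) * D z‖ = ‖((z - y) * D z - 2 ^ i * (orb r n z i - y)) +
              2 ^ i * (orb r n z i - y)‖ := by ring_nf
          _ ≤ ‖(z - y) * D z - 2 ^ i * (orb r n z i - y)‖ + ‖2 ^ i * (orb r n z i - y)‖ :=
              norm_add_le _ _
          _ ≤ μ * 2 ^ i * ‖orb r n z i - y‖ + 2 ^ i * ‖orb r n z i - y‖ := by
              apply add_le_add h1
              rw [norm_mul, norm_pow, Complex.norm_ofNat]
          _ = (μ + 1) * (2 ^ i * ‖orb r n z i - y‖) := by ring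
          _ ≤ 2 * (2 ^ i * ‖orb r n z i - y‖) := by
              apply mul_le_mul_of_nonneg_right _ (by positivity)
              linarith
          _ = _ := by ring
      rw [norm_mul] at h3
      rw [div_mul_eq_mul_div, le_div_iff₀ hx₀y]
      have h4 : ‖x₀ - y‖ / 2 * ‖D z‖ ≤ ‖z - y‖ * ‖D z‖ :=
        mul_le_mul_of_nonneg_right h2 (norm_nonneg _)
      nlinarith
    have hmain := hld (fun t => orb r n t i - y) D x₀ R (4 * 2 ^ i / ‖x₀ - y‖) hR0.le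
      (by positivity) hM hder x hx
    have hxd : ‖x - x₀‖ ≤ R := by rwa [mem_closedBall, dist_eq_norm] at hx
    simp only [sub_sub_sub_cancel_right] at hmain
    refine hmain.trans ?_
    apply mul_le_mul_of_nonneg_right _ (norm_nonneg _)
    have h1 : (2 : ℝ) ^ i ≤ 2 ^ k := pow_le_pow_right₀ (by norm_num) hik
    have h2k' : (0 : ℝ) < 2 ^ k := by positivity
    calc 2 * (4 * 2 ^ i / ‖x₀ - y‖) * ‖x - x₀‖ ≤ 2 * (4 * 2 ^ i / ‖x₀ - y‖) * R := by gcongr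
      _ = 8 * c₃ * (2 ^ i / 2 ^ k) := by rw [hR]; field_simp; ring
      _ ≤ 8 * c₃ * 1 := by
          apply mul_le_mul_of_nonneg_left _ (by positivity)
          rw [div_le_one h2k']; exact h1
      _ = 8 * c₃ := by ring

end Pool.Agent.K3h20.CR
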