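import Pool.Agent.K3h20.CR.KL2

/-!
# Project CR: the key lemma, part 3: the derivative of the next point
-/

set_option autoImplicit false

open Set Filter Topology MeasureTheory Metric

namespace Pool.Agent.K3h20.CR

theorem exit_deriv {r g : ℂ → ℂ} {n : ℕ} (hn : 1 ≤ n) {k : ℕ} {x D : ℂ} (hx : x ≠ 0)
    (hD : HasDerivAt (fun t => orb r n t k) D x)
    (hr : HasDerivAt r (g (orb r n x k) * r (orb r n x k)) (orb r n x k)) :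
    HasDerivAt (fun t => orb r n t (k + 1))
      (orb r n x (k + 1) * (1 / x + n * g (orb r n x k) * D)) x := by
  have h1 : HasDerivAt (fun t => r (orb r n t k)) (g (orb r n x k) * r (orb r n x k) * D) x :=
    HasDerivAt.comp x hr hD
  have h2 := (hasDerivAt_id x).mul (h1.pow n)
  have e1 : (fun t => orb r n t (k + 1)) = (id * (fun t => r (orb r n t k)) ^ n) := by
    funext t; rfl
  rw [e1]
  refine h2.congr_deriv ?_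
  have e2 : orb r n x (k + 1) = x * r (orb r n x k) ^ n := rfl
  have e3 : ((fun t => r (orb r n t k)) ^ n) x = r (orb r n x k) ^ n := rfl
  rw [e2, e3]
  obtain ⟨m, rfl⟩ : ∃ m, n = m + 1 := ⟨n - 1, by omega⟩
  simp only [Nat.add_sub_cancel, id]
  field_simp
  ring

theorem D_T {x y x₀ D u u₀ T : ℂ} {p : ℝ} (hp : 0 < p) (hx0 : 0 < ‖x₀ - y‖)
    (hT : (x₀ - y) * T = p * u₀)
    (h1 : ‖(x - y) * D - p * u‖ ≤ 1 / 1000 * p * ‖u‖)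
    (h2 : ‖u - u₀‖ ≤ 1 / 1000 * ‖u₀‖) (h3 : ‖x - x₀‖ ≤ 1 / 8000 * ‖x₀ - y‖) :
    ‖D - T‖ ≤ ‖T‖ / 100 := by
  have e1 : (x - y) * (D - T) = ((x - y) * D - p * u) + p * (u - u₀) + (x₀ - x) * T := by
    have : (x₀ - x) * T = (x₀ - y) * T - (x - y) * T := by ring
    rw [this, hT]; ring
  have hTn : ‖x₀ - y‖ * ‖T‖ = p * ‖u₀‖ := by
    rw [← norm_mul, hT, norm_mul, Complex.norm_real, Real.norm_eq_abs, abs_of_pos hp]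
  have hu : ‖u‖ ≤ (1 + 1 / 1000) * ‖u₀‖ := by
    calc ‖u‖ = ‖(u - u₀) + u₀‖ := by ring_nf
      _ ≤ ‖u - u₀‖ + ‖u₀‖ := norm_add_le _ _
      _ ≤ _ := by linarith
  have h4 : ‖x - y‖ * ‖D - T‖ ≤ 22 / 10000 * (‖x₀ - y‖ * ‖T‖) := by
    rw [← norm_mul, e1]
    calc ‖((x - y) * D - p * u) + p * (u - u₀) + (x₀ - x) * T‖
        ≤ ‖(x - y) * D - p * u‖ + ‖(p : ℂ) * (u - u₀)‖ + ‖(x₀ - x) * T‖ := by
          refine (norm_add_le _ _).trans ?_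
          gcongr
          exact norm_add_le _ _
      _ ≤ 1 / 1000 * p * ‖u‖ + p * (1 / 1000 * ‖u₀‖) + 1 / 8000 * ‖x₀ - y‖ * ‖T‖ := by
          apply add_le_add (add_le_add h1 _) _
          · rw [norm_mul, Complex.norm_real, Real.norm_eq_abs, abs_of_pos hp]
            exact mul_le_mul_of_nonneg_left h2 hp.le
          · rw [norm_mul, norm_sub_rev]
            exact mul_le_mul_of_nonneg_right h3 (norm_nonneg _)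
      _ ≤ 1 / 1000 * p * ((1 + 1 / 1000) * ‖u₀‖) + p * (1 / 1000 * ‖u₀‖) +
          1 / 8000 * ‖x₀ - y‖ * ‖T‖ := by gcongr
      _ = (1 / 1000 * (1 + 1 / 1000) + 1 / 1000) * (p * ‖u₀‖) +
          1 / 8000 * (‖x₀ - y‖ * ‖T‖) := by ring
      _ ≤ 22 / 10000 * (‖x₀ - y‖ * ‖T‖) := by
          rw [← hTn]
          have : 0 ≤ ‖x₀ - y‖ * ‖T‖ := by positivity
          nlinarith
  have h5 : ‖x₀ - y‖ / 2 ≤ ‖x - y‖ := by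
    have : ‖x₀ - y‖ ≤ ‖x - y‖ + ‖x - x₀‖ := by
      calc ‖x₀ - y‖ = ‖(x - y) - (x - x₀)‖ := by ring_nf
        _ ≤ _ := norm_sub_le _ _
    linarith
  have h6 : ‖x₀ - y‖ / 2 * ‖D - T‖ ≤ 22 / 10000 * (‖x₀ - y‖ * ‖T‖) :=
    (mul_le_mul_of_nonneg_right h5 (norm_nonneg _)).trans h4
  have h7 : ‖x₀ - y‖ * (‖D - T‖) ≤ ‖x₀ - y‖ * (‖T‖ / 100) := by
    have : 0 ≤ ‖x₀ - y‖ * ‖T‖ := by positivity
    nlinarith
  exact le_of_mul_le_mul_left h7 hx0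

theorem lam_est {n : ℝ} (hn : 0 ≤ n) {X γ γ₀ D T : ℂ} (h1 : ‖D - T‖ ≤ ‖T‖ / 100)
    (h2 : ‖γ - γ₀‖ ≤ ‖γ₀‖ / 1000) (h3 : ‖X‖ ≤ n * ‖γ₀‖ * ‖T‖ / 400) :
    ‖(X + n * γ * D) - n * γ₀ * T‖ ≤ n * ‖γ₀‖ * ‖T‖ / 64 := by
  have hD : ‖D‖ ≤ 101 / 100 * ‖T‖ := by
    calc ‖D‖ = ‖(D - T) + T‖ := by ring_nf
      _ ≤ ‖D - T‖ + ‖T‖ := norm_add_le _ _
      _ ≤ _ := by linarith
  have e1 : (X + n * γ * D) - n * γ₀ * T = X + (n * ((γ - γ₀) * D) + n * (γ₀ * (D - T))) := by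
    ring
  rw [e1]
  calc ‖X + (n * ((γ - γ₀) * D) + n * (γ₀ * (D - T)))‖
      ≤ ‖X‖ + (‖(n : ℂ) * ((γ - γ₀) * D)‖ + ‖(n : ℂ) * (γ₀ * (D - T))‖) :=
        (norm_add_le _ _).trans (by gcongr; exact norm_add_le _ _)
    _ = ‖X‖ + (n * (‖γ - γ₀‖ * ‖D‖) + n * (‖γ₀‖ * ‖D - T‖)) := by
        simp only [norm_mul, Complex.norm_real, Real.norm_eq_abs, abs_of_nonneg hn]
    _ ≤ n * ‖γ₀‖ * ‖T‖ / 400 + (n * (‖γ₀‖ / 1000 * (101 / 100 * ‖T‖)) +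
        n * (‖γ₀‖ * (‖T‖ / 100))) := by gcongr
    _ = n * ‖γ₀‖ * ‖T‖ * (1 / 400 + 101 / 100000 + 1 / 100) := by ring
    _ ≤ n * ‖γ₀‖ * ‖T‖ * (1 / 64) := by
        apply mul_le_mul_of_nonneg_left _ (by positivity)
        norm_num
    _ = _ := by ring

/-- From the logarithmic derivative to the derivative. -/
theorem G_est (hld : St_ld) {G Λ : ℂ → ℂ} {x₀ N₀ : ℂ} {R : ℝ} (hR : 0 ≤ R)
    (hN : 0 < ‖N₀‖) (hRN : ‖N₀‖ * R ≤ 1 / 256)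
    (h : ∀ x ∈ closedBall x₀ R, HasDerivAt G (G x * Λ x) x ∧ ‖Λ x - N₀‖ ≤ ‖N₀‖ / 64) :
    (∀ x ∈ closedBall x₀ R, ‖G x * Λ x - G x₀ * Λ x₀‖ ≤ ‖G x₀ * Λ x₀‖ / 10) ∧
    ‖G x₀‖ * (63 / 64 * ‖N₀‖) ≤ ‖G x₀ * Λ x₀‖ := by
  have hx₀ : x₀ ∈ closedBall x₀ R := mem_closedBall_self hR
  have hΛ : ∀ x ∈ closedBall x₀ R, ‖Λ x‖ ≤ 65 / 64 * ‖N₀‖ := by
    intro x hx
    calc ‖Λ x‖ = ‖(Λ x - N₀) + N₀‖ := by ring_nf
      _ ≤ ‖Λ x - N₀‖ + ‖N₀‖ := norm_add_le _ _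
      _ ≤ _ := by linarith [(h x hx).2]
  have hΛ0 : 63 / 64 * ‖N₀‖ ≤ ‖Λ x₀‖ := by
    have : ‖N₀‖ ≤ ‖Λ x₀‖ + ‖Λ x₀ - N₀‖ := by
      calc ‖N₀‖ = ‖Λ x₀ - (Λ x₀ - N₀)‖ := by ring_nf
        _ ≤ _ := norm_sub_le _ _
    linarith [(h x₀ hx₀).2]
  refine ⟨?_, ?_⟩
  · intro x hx
    have hxd : ‖x - x₀‖ ≤ R := by rwa [mem_closedBall, dist_eq_norm] at hx
    have h1 := hld G (fun z => G z * Λ z) x₀ R (2 * ‖N₀‖) hR (by positivity) (by linarith)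
      (fun z hz => ⟨(h z hz).1, by
        rw [norm_mul, mul_comm]
        exact mul_le_mul_of_nonneg_right ((hΛ z hz).trans (by linarith)) (norm_nonneg _)⟩) x hx
    have h2 : ‖G x - G x₀‖ ≤ 1 / 64 * ‖G x₀‖ := by
      refine h1.trans ?_
      apply mul_le_mul_of_nonneg_right _ (norm_nonneg _)
      calc 2 * (2 * ‖N₀‖) * ‖x - x₀‖ ≤ 2 * (2 * ‖N₀‖) * R := by gcongr
        _ = 4 * (‖N₀‖ * R) := by ring
        _ ≤ _ := by linarith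
    have h3 : ‖Λ x - Λ x₀‖ ≤ ‖N₀‖ / 32 := by
      calc ‖Λ x - Λ x₀‖ = ‖(Λ x - N₀) - (Λ x₀ - N₀)‖ := by ring_nf
        _ ≤ ‖Λ x - N₀‖ + ‖Λ x₀ - N₀‖ := norm_sub_le _ _
        _ ≤ _ := by linarith [(h x hx).2, (h x₀ hx₀).2]
    have e1 : G x * Λ x - G x₀ * Λ x₀ = (G x - G x₀) * Λ x + G x₀ * (Λ x - Λ x₀) := by ring
    calc ‖G x * Λ x - G x₀ * Λ x₀‖ ≤ ‖G x - G x₀‖ * ‖Λ x‖ + ‖G x₀‖ * ‖Λ x - Λ x₀‖ := by
          rw [e1, ← norm_mul, ← norm_mul]; exact norm_add_le _ _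
      _ ≤ 1 / 64 * ‖G x₀‖ * (65 / 64 * ‖N₀‖) + ‖G x₀‖ * (‖N₀‖ / 32) := by
          gcongr
          exact hΛ x hx
      _ = ‖G x₀‖ * ‖N₀‖ * (65 / 4096 + 1 / 32) := by ring
      _ ≤ ‖G x₀‖ * ‖N₀‖ * (63 / 640) := by
          apply mul_le_mul_of_nonneg_left _ (by positivity)
          norm_num
      _ = ‖G x₀‖ * (63 / 64 * ‖N₀‖) / 10 := by ring
      _ ≤ ‖G x₀‖ * ‖Λ x₀‖ / 10 := by gcongr
      _ = _ := by rw [norm_mul]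
  · rw [norm_mul]
    exact mul_le_mul_of_nonneg_left hΛ0 (norm_nonneg _)

end Pool.Agent.K3h20.CR
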