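import Pool.Agent.K3h20.CR.KL3

/-!
# Project CR: the key lemma, part 4: assembly
-/

set_option autoImplicit false

open Set Filter Topology MeasureTheory Metric

namespace Pool.Agent.K3h20.CR

/-- The orbit leaves the neighbourhood of `y`. -/
theorem exists_exit {u : ℕ → ℝ} {t : ℝ} (hu : 0 < u 0)
    (h : ∀ k : ℕ, (∀ j < k, u j ≤ t) → ∀ j < k, 2 * u j ≤ u (j + 1)) :
    ∃ k : ℕ, t / 2 ≤ u k ∧ ∀ j < k, u j < t / 2 := by
  classical
  have hex : ∃ k : ℕ, t / 2 ≤ u k := by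
    by_contra hcon
    push Not at hcon
    have ht : 0 < t := by linarith [hcon 0]
    have h2 : ∀ j, 2 * u j ≤ u (j + 1) := fun j =>
      h (j + 1) (fun i _ => by linarith [hcon i]) j (Nat.lt_succ_self j)
    have h3 : ∀ j, 2 ^ j * u 0 ≤ u j := by
      intro j
      induction j with
      | zero => simp
      | succ j ih =>
        have := h2 j
        rw [pow_succ]
        linarith
    obtain ⟨j, hj⟩ := pow_unbounded_of_one_lt (t / u 0) (by norm_num : (1 : ℝ) < 2)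
    have h4 := h3 j
    rw [div_lt_iff₀ hu] at hj
    linarith [hcon j]
  refine ⟨Nat.find hex, Nat.find_spec hex, fun j hj => ?_⟩
  have := Nat.find_min hex hj
  linarith [not_le.1 this]

theorem growth {u : ℕ → ℝ} {k : ℕ} (hu : ∀ j, 0 ≤ u j) (h : ∀ j < k, 2 * u j ≤ u (j + 1)) :
    u 0 ≤ u k := by
  induction k with
  | zero => exact le_rfl
  | succ k ih =>
    have h1 := ih fun j hj => h j (by omega)
    have h2 := h k (by omega)
    linarith [hu k]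

theorem t_kl (hld : St_ld) (hnz : St_nz) : St_kl := by
  intro r g y a ρ₀ ε d B c hN hG
  have hρ := hG.hρ
  have hρ1 := hG.hρ1
  have hd := hG.hd
  have hB := hG.hB
  have hc := hG.hc
  have hε := hG.hε
  have hB0 : 0 < B := lt_of_lt_of_le one_pos hB
  have hinv : 1 < ρ₀⁻¹ := (one_lt_inv₀ hρ).2 hρ1
  obtain ⟨C₁', c₁, hC₁', hc₁, n₁, hnz⟩ := hnz r g y a d B hN (1 / 1000) (by norm_num)
  obtain ⟨K, hK⟩ : ∃ K : ℝ, K = ρ₀⁻¹ + ‖y‖ := ⟨_, rfl⟩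
  have hK1 : 1 < K := by rw [hK]; linarith [norm_nonneg y]
  have hK0 : 0 < K := by linarith
  obtain ⟨c₃, hc₃0, hc₃a, hc₃b, hc₃c, hc₃d⟩ : ∃ c₃ : ℝ, 0 < c₃ ∧ c₃ ≤ 1 / 8000 ∧
      c₃ ≤ d / (8 * K) ∧ c₃ ≤ ρ₀ / (2 * K) ∧ c₃ ≤ c / (8000 * B) :=
    ⟨min (1 / 8000) (min (d / (8 * K)) (min (ρ₀ / (2 * K)) (c / (8000 * B)))),
      by positivity, min_le_left _ _, (min_le_right _ _).trans (min_le_left _ _),
      (min_le_right _ _).trans ((min_le_right _ _).trans (min_le_left _ _)),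
      (min_le_right _ _).trans ((min_le_right _ _).trans (min_le_right _ _))⟩
  obtain ⟨c₅, hc₅0, hc₅a, hc₅b, hc₅c⟩ : ∃ c₅ : ℝ, 0 < c₅ ∧ c₅ ≤ 1 / 256 ∧
      c₅ ≤ c₃ * c * c₁ ^ 2 / 4 ∧ c₅ ≤ c / B :=
    ⟨min (1 / 256) (min (c₃ * c * c₁ ^ 2 / 4) (c / B)), by positivity, min_le_left _ _,
      (min_le_right _ _).trans (min_le_left _ _), (min_le_right _ _).trans (min_le_right _ _)⟩
  obtain ⟨L, hL⟩ : ∃ L : ℝ, L = 2 * Real.log ρ₀⁻¹ := ⟨_, rfl⟩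
  obtain ⟨c₂, hc₂0, hc₂a, hc₂b⟩ : ∃ c₂ : ℝ, 0 < c₂ ∧ c₂ ≤ ρ₀ * (63 / 64) * c₅ / 10 ∧
      c₂ ≤ ρ₀ * (63 / 64) * (c * c₁ / 2) :=
    ⟨min (ρ₀ * (63 / 64) * c₅ / 10) (ρ₀ * (63 / 64) * (c * c₁ / 2)), by positivity,
      min_le_left _ _, min_le_right _ _⟩
  obtain ⟨n₂, hn₂⟩ := exists_nat_ge (L / ε)
  obtain ⟨n₃, hn₃⟩ := exists_nat_ge ((1600 / (ρ₀ * c * c₁)) ^ 2)
  refine ⟨2 * C₁', c₂, by positivity, hc₂0, max (max n₁ 1) (max n₂ n₃), ?_⟩
  intro n hn x₀ hx₀ hx₀y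
  have hnn₁ : n₁ ≤ n := (le_max_left _ _).trans ((le_max_left _ _).trans hn)
  have hn1 : 1 ≤ n := (le_max_right _ _).trans ((le_max_left _ _).trans hn)
  have hnn₂ : n₂ ≤ n := (le_max_left _ _).trans ((le_max_right _ _).trans hn)
  have hnn₃ : n₃ ≤ n := (le_max_right _ _).trans ((le_max_right _ _).trans hn)
  have hn0 : (0 : ℝ) < n := by exact_mod_cast hn1
  have hLε : L / n ≤ ε := by
    rw [div_le_iff₀ hn0]
    have h1 : L / ε ≤ n := hn₂.trans (by exact_mod_cast hnn₂)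
    rw [div_le_iff₀ hε] at h1
    linarith
  have hsq : 0 < Real.sqrt n := Real.sqrt_pos.2 hn0
  have hsq2 : Real.sqrt n * Real.sqrt n = n := Real.mul_self_sqrt hn0.le
  have hsqn : 1600 / (ρ₀ * c * c₁) ≤ Real.sqrt n := by
    apply Real.le_sqrt_of_sq_le
    exact hn₃.trans (by exact_mod_cast hnn₃)
  -- the starting point
  have hu0 : 0 < ‖x₀ - y‖ := lt_of_lt_of_le (by positivity) hx₀y
  have hx₀y' : C₁' / n ≤ ‖x₀ - y‖ := by
    refine le_trans ?_ hx₀y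
    apply div_le_div_of_nonneg_right _ hn0.le
    linarith
  have horbK : ∀ j, ‖orb r n x₀ j - y‖ ≤ K := by
    intro j
    rw [hK]
    exact (norm_sub_le _ _).trans (by linarith [(hx₀ j).2])
  -- the exit index
  obtain ⟨k, hk1, hk2⟩ := exists_exit (u := fun j => ‖orb r n x₀ j - y‖)
    (t := c₁ / Real.sqrt n) hu0 (fun k hk j hj => ((hnz n hnn₁ x₀ hx₀y' k hk).1 j hj).1)
  have hgr : ‖x₀ - y‖ ≤ ‖orb r n x₀ k - y‖ := by
    refine growth (u := fun j => ‖orb r n x₀ j - y‖) (fun j => norm_nonneg _) ?_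
    intro j hj
    exact ((hnz n hnn₁ x₀ hx₀y' k (fun i hi => by
      have := hk2 i hi
      have h3 : 0 < c₁ / Real.sqrt n := by positivity
      linarith)).1 j hj).1
  obtain ⟨uk, huk⟩ : ∃ uk : ℝ, uk = ‖orb r n x₀ k - y‖ := ⟨_, rfl⟩
  rw [← huk] at hk1 hgr
  have huk0 : 0 < uk := lt_of_lt_of_le hu0 hgr
  have hukK : uk ≤ K := by rw [huk]; exact horbK k
  -- distortion on the ball
  obtain ⟨R₁, hR₁⟩ : ∃ R₁ : ℝ, R₁ = c₃ * ‖x₀ - y‖ / 2 ^ k := ⟨_, rfl⟩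
  have h2k : (0 : ℝ) < 2 ^ k := by positivity
  have h2k1 : (1 : ℝ) ≤ 2 ^ k := one_le_pow₀ (by norm_num)
  have hR₁0 : 0 < R₁ := by rw [hR₁]; positivity
  have hR₁le : R₁ ≤ c₃ * ‖x₀ - y‖ := by
    rw [hR₁]
    exact div_le_self (by positivity) h2k1
  have hu0K : ‖x₀ - y‖ ≤ K := horbK 0
  have hR₁d : R₁ ≤ d := by
    refine hR₁le.trans ?_
    calc c₃ * ‖x₀ - y‖ ≤ d / (8 * K) * K := by gcongr
      _ = d / 8 := by field_simp
      _ ≤ d := by linarith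
  have hR₁ρ : R₁ ≤ ρ₀ / 2 := by
    refine hR₁le.trans ?_
    calc c₃ * ‖x₀ - y‖ ≤ ρ₀ / (2 * K) * K := by gcongr
      _ = ρ₀ / 2 := by field_simp
  have hball := ball_orb hld (r := r) (y := y) (n := n) (c₁' := c₁ / Real.sqrt n)
    (C₁' := C₁' / n) (μ := 1 / 1000) (c₃ := c₃) (by norm_num) hc₃0 (by linarith)
    (fun x hx j hj => (hnz n hnn₁ x hx j hj).2) (x₀ := x₀)
    (by rw [← mul_div_assoc]; exact hx₀y) hu0 (k := k) (fun j hj => (hk2 j hj).le) k le_rfl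
  rw [← hR₁] at hball
  have hball1 := fun x hx => (hball x hx).1
  choose! D hD1 hD2 using fun x hx => (hball x hx).2
  -- `T`
  have hxy0 : x₀ - y ≠ 0 := norm_pos_iff.1 hu0
  obtain ⟨T, hT⟩ : ∃ T : ℂ, T = 2 ^ k * (orb r n x₀ k - y) / (x₀ - y) := ⟨_, rfl⟩
  have hTeq : (x₀ - y) * T = ((2 ^ k : ℝ) : ℂ) * (orb r n x₀ k - y) := by
    rw [hT]; push_cast; field_simp
  have hTn : ‖T‖ = 2 ^ k * uk / ‖x₀ - y‖ := by
    rw [hT, norm_div, norm_mul, norm_pow, Complex.norm_ofNat, huk]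
  have hDT : ∀ x ∈ closedBall x₀ R₁, ‖D x - T‖ ≤ ‖T‖ / 100 := by
    intro x hx
    have hxd : ‖x - x₀‖ ≤ R₁ := by rwa [mem_closedBall, dist_eq_norm] at hx
    refine D_T (x := x) (p := 2 ^ k) (u := orb r n x k - y) h2k hu0 hTeq ?_ ?_ ?_
    · have := hD2 x hx
      push_cast
      exact this
    · rw [sub_sub_sub_cancel_right]
      refine (hball1 x hx).trans ?_
      apply mul_le_mul_of_nonneg_right _ (norm_nonneg _)
      linarith
    · refine hxd.trans (hR₁le.trans ?_)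
      apply mul_le_mul_of_nonneg_right hc₃a (norm_nonneg _)
  -- the level curve
  have hw0 := und_lev hρ hn1 hx₀ k
  rw [← hL] at hw0
  obtain ⟨hw1, hw2, hw3, hw4⟩ := hw0
  obtain ⟨hgw, hlow⟩ := hG.low (orb r n x₀ k) (by linarith) (by rw [div_eq_mul_inv]; linarith)
    ((Real.exp_le_exp.2 (by linarith)).trans hw3) (hw4.trans (Real.exp_le_exp.2 hLε))
  rw [← huk] at hgw
  have hmem : ∀ x ∈ closedBall x₀ R₁, orb r n x k ∈ closedBall (orb r n x₀ k) d := by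
    intro x hx
    rw [mem_closedBall, dist_eq_norm]
    refine (hball1 x hx).trans ?_
    rw [← huk]
    calc 8 * c₃ * uk ≤ 8 * (d / (8 * K)) * K := by gcongr
      _ = d := by field_simp
  have hgd : ∀ x ∈ closedBall x₀ R₁, ‖g (orb r n x k) - g (orb r n x₀ k)‖ ≤
      ‖g (orb r n x₀ k)‖ / 1000 := by
    intro x hx
    have h1 := (hlow _ (hmem x hx)).2.2.2 (orb r n x₀ k) (mem_closedBall_self hd.le)
    have h2 := hball1 x hx
    rw [← huk] at h2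
    calc ‖g (orb r n x k) - g (orb r n x₀ k)‖ ≤ B * (8 * c₃ * uk) :=
          h1.trans (mul_le_mul_of_nonneg_left h2 hB0.le)
      _ ≤ B * (8 * (c / (8000 * B)) * uk) := by gcongr
      _ = c * uk / 1000 := by field_simp; norm_num
      _ ≤ _ := by apply div_le_div_of_nonneg_right hgw (by norm_num)
  obtain ⟨M, hM⟩ : ∃ M : ℝ, M = n * ‖g (orb r n x₀ k)‖ * ‖T‖ := ⟨_, rfl⟩
  have hMlow : n * c * uk ^ 2 * 2 ^ k / ‖x₀ - y‖ ≤ M := by
    rw [hM, hTn]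
    calc n * c * uk ^ 2 * 2 ^ k / ‖x₀ - y‖ = n * (c * uk) * (2 ^ k * uk / ‖x₀ - y‖) := by ring
      _ ≤ _ := by gcongr
  have hM1 : n * c * uk ≤ M := by
    refine le_trans ?_ hMlow
    rw [le_div_iff₀ hu0]
    calc n * c * uk * ‖x₀ - y‖ ≤ n * c * uk * uk * 1 := by
          rw [mul_one]; gcongr
      _ ≤ n * c * uk * uk * 2 ^ k := by gcongr
      _ = n * c * uk ^ 2 * 2 ^ k := by ring
  have hM2 : c * c₁ / 2 * Real.sqrt n ≤ M := by
    refine le_trans ?_ hM1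
    calc c * c₁ / 2 * Real.sqrt n = n * c * (c₁ / Real.sqrt n / 2) := by
          field_simp
          rw [sq, hsq2]
      _ ≤ _ := by gcongr
  have hM3 : c * c₁ ^ 2 / 4 * 2 ^ k / ‖x₀ - y‖ ≤ M := by
    refine le_trans ?_ hMlow
    apply div_le_div_of_nonneg_right _ hu0.le
    apply mul_le_mul_of_nonneg_right _ h2k.le
    have h1 : (c₁ / Real.sqrt n / 2) ^ 2 ≤ uk ^ 2 := by gcongr
    have h2 : (c₁ / Real.sqrt n / 2) ^ 2 = c₁ ^ 2 / 4 / n := by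
      rw [div_pow, div_pow, sq (Real.sqrt n), hsq2]; ring
    rw [h2] at h1
    calc c * c₁ ^ 2 / 4 = n * c * (c₁ ^ 2 / 4 / n) := by field_simp
      _ ≤ _ := by gcongr
  have hM4 : 800 / ρ₀ ≤ M := by
    refine le_trans ?_ hM2
    calc 800 / ρ₀ = c * c₁ / 2 * (1600 / (ρ₀ * c * c₁)) := by field_simp; norm_num
      _ ≤ _ := by gcongr
  have hM0 : 0 < M := lt_of_lt_of_le (by positivity) hM4
  -- `N₀`
  obtain ⟨N₀, hN₀⟩ : ∃ N₀ : ℂ, N₀ = (n : ℂ) * g (orb r n x₀ k) * T := ⟨_, rfl⟩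
  have hN₀n : ‖N₀‖ = M := by
    rw [hN₀, hM, norm_mul, norm_mul, Complex.norm_natCast]
  have hΛ : ∀ x ∈ closedBall x₀ R₁,
      HasDerivAt (fun t => orb r n t (k + 1))
        (orb r n x (k + 1) * (1 / x + n * g (orb r n x k) * D x)) x ∧
      ‖(1 / x + n * g (orb r n x k) * D x) - N₀‖ ≤ ‖N₀‖ / 64 := by
    intro x hx
    have hxd : ‖x - x₀‖ ≤ R₁ := by rwa [mem_closedBall, dist_eq_norm] at hx
    have hx0n : ρ₀ ≤ ‖x₀‖ := (hx₀ 0).1
    have hxn : ρ₀ / 2 ≤ ‖x‖ := by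
      have : ‖x₀‖ ≤ ‖x‖ + ‖x - x₀‖ := by
        calc ‖x₀‖ = ‖x - (x - x₀)‖ := by ring_nf
          _ ≤ _ := norm_sub_le _ _
      linarith
    have hx0 : x ≠ 0 := norm_pos_iff.1 (by linarith)
    refine ⟨exit_deriv hn1 hx0 (hD1 x hx) (hlow _ (hmem x hx)).2.1, ?_⟩
    have h5 := lam_est (n := (n : ℝ)) hn0.le (X := 1 / x) (hDT x hx) (hgd x hx) (by
      rw [← hM, norm_div, norm_one, div_le_iff₀ (by linarith)]
      calc (1 : ℝ) = 800 / ρ₀ / 400 * (ρ₀ / 2) := by field_simp; norm_num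
        _ ≤ M / 400 * ‖x‖ := by gcongr)
    rw [← hM] at h5
    rw [hN₀n, hN₀]
    exact h5
  -- the radius
  obtain ⟨ρ, hρdef⟩ : ∃ ρ : ℝ, ρ = c₅ / M / 10 := ⟨_, rfl⟩
  have hρ0 : 0 < ρ := by rw [hρdef]; positivity
  have h10 : 10 * ρ = c₅ / M := by rw [hρdef]; ring
  have hRR : 10 * ρ ≤ R₁ := by
    rw [h10, hR₁, div_le_iff₀ hM0]
    calc c₅ ≤ c₃ * c * c₁ ^ 2 / 4 := hc₅b
      _ = c₃ * ‖x₀ - y‖ / 2 ^ k * (c * c₁ ^ 2 / 4 * 2 ^ k / ‖x₀ - y‖) := by field_simp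
      _ ≤ _ := by gcongr
  have hρR : ρ ≤ R₁ := by linarith
  have hsub : closedBall x₀ (10 * ρ) ⊆ closedBall x₀ R₁ := closedBall_subset_closedBall hRR
  have hfin := G_est hld (G := fun t => orb r n t (k + 1))
    (Λ := fun x => 1 / x + n * g (orb r n x k) * D x) (x₀ := x₀) (N₀ := N₀) (R := 10 * ρ)
    (by positivity) (by rw [hN₀n]; exact hM0)
    (by rw [hN₀n, h10, mul_div_cancel₀ _ hM0.ne']; exact hc₅a)
    (fun x hx => hΛ x (hsub hx))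
  obtain ⟨hfin1, hfin2⟩ := hfin
  have hκ : ρ₀ * (63 / 64) * M ≤
      ‖orb r n x₀ (k + 1) * (1 / x₀ + n * g (orb r n x₀ k) * D x₀)‖ := by
    refine le_trans ?_ hfin2
    rw [hN₀n]
    have := (hx₀ (k + 1)).1
    calc ρ₀ * (63 / 64) * M = ρ₀ * (63 / 64 * M) := by ring
      _ ≤ _ := by gcongr
  refine ⟨k + 1, fun x => orb r n x (k + 1) * (1 / x + n * g (orb r n x k) * D x), ρ, hρ0,
    by linarith, ?_, ?_, ?_, ?_⟩
  · rw [← hL]
    refine lev_ball hld hG hn1 hLε (w := x₀) ?_ hρ0.le (hρR.trans hR₁d) (hρR.trans hR₁ρ) ?_ ?_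
    · have := und_lev hρ hn1 hx₀ 0
      rwa [← hL] at this
    · refine hρR.trans (hR₁le.trans ?_)
      have : c₃ * ‖x₀ - y‖ ≤ 1 * ‖x₀ - y‖ := by gcongr; linarith
      linarith
    · have h6 : n * c * ‖x₀ - y‖ ≤ M := le_trans (by gcongr) hM1
      rw [hρdef]
      have h7 : c₅ / M ≤ (c / B) / (n * c * ‖x₀ - y‖) := by gcongr
      calc 2 * B * ‖x₀ - y‖ * (c₅ / M / 10) ≤
            2 * B * ‖x₀ - y‖ * ((c / B) / (n * c * ‖x₀ - y‖) / 10) := by gcongr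
        _ = 1 / (5 * n) := by field_simp; norm_num
        _ ≤ 1 / (4 * n) := by gcongr; norm_num
  · intro x hx
    exact ⟨(hΛ x (hsub hx)).1, hfin1 x hx⟩
  · refine hc₂a.trans ?_
    calc ρ₀ * (63 / 64) * c₅ / 10 = ρ₀ * (63 / 64) * M * ρ := by
          rw [hρdef]; field_simp
      _ ≤ _ := by gcongr
  · refine le_trans ?_ hκ
    calc c₂ * Real.sqrt n ≤ ρ₀ * (63 / 64) * (c * c₁ / 2) * Real.sqrt n := by gcongr
      _ = ρ₀ * (63 / 64) * (c * c₁ / 2 * Real.sqrt n) := by ring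
      _ ≤ _ := by gcongr

end Pool.Agent.K3h20.CR
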