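import Mathlib

/-!
# Project CR (MP_8f2e1c_an, owner helper20): rational maps `s R(z ^ n)` are hyperbolic up to area
`O (1 / n ^ 3)`.

Statements of the bricks that only need Mathlib.

In the coordinate `w = z ^ n` the critical point `y` of `R` has the orbit
`x = (s R(y)) ^ n`, `w ↦ x * r(w) ^ n`, `r = R / R(y)`.
-/

set_option autoImplicit false

open Set Filter Topology MeasureTheory Metric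

namespace Pool.Agent.K3h20.CR

/-- the orbit of `x` under `w ↦ x * r w ^ n` -/
noncomputable def orb (r : ℂ → ℂ) (n : ℕ) (x : ℂ) : ℕ → ℂ
  | 0 => x
  | j + 1 => x * r (orb r n x j) ^ n

/-- the parameters with undecided orbit -/
def Und (r : ℂ → ℂ) (n : ℕ) (ρ₀ : ℝ) : Set ℂ :=
  {x | ∀ j : ℕ, ρ₀ ≤ ‖orb r n x j‖ ∧ ‖orb r n x j‖ ≤ ρ₀⁻¹}

/-- neighbourhood of the level curve `|r| = 1` in an annulus -/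
def lev (r : ℂ → ℂ) (ρ₀ h : ℝ) : Set ℂ :=
  {w | ρ₀ ≤ ‖w‖ ∧ ‖w‖ ≤ ρ₀⁻¹ ∧ Real.exp (-h) ≤ ‖r w‖ ∧ ‖r w‖ ≤ Real.exp h}

/-- behaviour near the simple critical point `y`; `g` is the logarithmic derivative of `r` -/
structure Near (r g : ℂ → ℂ) (y a : ℂ) (d B : ℝ) : Prop where
  hd : 0 < d
  hB : 1 ≤ B
  hy : y ≠ 0
  ha : a ≠ 0
  r_eq : ∀ u : ℂ, ‖u‖ ≤ d → ‖r (y + u) - 1 - a * u ^ 2‖ ≤ B * ‖u‖ ^ 3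
  r_der : ∀ u : ℂ, ‖u‖ ≤ d → HasDerivAt r (g (y + u) * r (y + u)) (y + u)
  g_eq : ∀ u : ℂ, ‖u‖ ≤ d → ‖g (y + u) - 2 * a * u‖ ≤ B * ‖u‖ ^ 2

/-- behaviour near the level curve `|r| = 1` -/
structure Good (r g : ℂ → ℂ) (y : ℂ) (ρ₀ ε d B c : ℝ) : Prop where
  hρ : 0 < ρ₀
  hρ1 : ρ₀ < 1
  hε : 0 < ε
  hd : 0 < d
  hB : 1 ≤ B
  hc : 0 < c
  low : ∀ w : ℂ, ρ₀ / 2 ≤ ‖w‖ → ‖w‖ ≤ 2 / ρ₀ → Real.exp (-ε) ≤ ‖r w‖ → ‖r w‖ ≤ Real.exp ε →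
    c * ‖w - y‖ ≤ ‖g w‖ ∧ ∀ w' ∈ closedBall w d, r w' ≠ 0 ∧ HasDerivAt r (g w' * r w') w' ∧
      ‖g w'‖ ≤ B * ‖w' - y‖ ∧ ∀ w'' ∈ closedBall w d, ‖g w' - g w''‖ ≤ B * ‖w' - w''‖

/-- VIT: Vitali covering with a measure. -/
def St_vit : Prop := ∀ (μ : Measure ℂ) (X S : Set ℂ) (ρ : ℂ → ℝ) (M : ℝ),
  (∀ x ∈ X, 0 < ρ x ∧ ρ x ≤ M) →
  (∀ x ∈ X, volume (S ∩ closedBall x (5 * ρ x)) ≤ μ (closedBall x (ρ x))) →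
  volume (S ∩ X) ≤ μ (⋃ x ∈ X, closedBall x (ρ x))

/-- LD: functions with bounded logarithmic derivative. -/
def St_ld : Prop := ∀ (f f' : ℂ → ℂ) (x₀ : ℂ) (R M : ℝ), 0 ≤ R → 0 ≤ M → M * R ≤ 1 / 2 →
  (∀ x ∈ closedBall x₀ R, HasDerivAt f (f' x) x ∧ ‖f' x‖ ≤ M * ‖f x‖) →
  ∀ x ∈ closedBall x₀ R, ‖f x - f x₀‖ ≤ 2 * M * ‖x - x₀‖ * ‖f x₀‖

/-- AFF: almost affine maps. -/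
def St_aff : Prop := ∀ (G G' : ℂ → ℂ) (x₀ : ℂ) (R : ℝ), 0 < R → G' x₀ ≠ 0 →
  (∀ x ∈ closedBall x₀ R, HasDerivAt G (G' x) x ∧ ‖G' x - G' x₀‖ ≤ ‖G' x₀‖ / 2) →
  (∀ S : Set ℂ, volume (closedBall x₀ R ∩ G ⁻¹' S) ≤
    ENNReal.ofReal (4 / ‖G' x₀‖ ^ 2) * volume S) ∧
  (∀ x ∈ closedBall x₀ R, ‖G x - G x₀ - G' x₀ * (x - x₀)‖ ≤ ‖G' x₀‖ / 2 * ‖x - x₀‖) ∧
  closedBall (G x₀) (‖G' x₀‖ * R / 2) ⊆ G '' closedBall x₀ R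

/-- LEV: area of the neighbourhood of the level curve. -/
def St_lev : Prop := ∀ (r g : ℂ → ℂ) (y : ℂ) (ρ₀ ε d B c : ℝ), Good r g y ρ₀ ε d B c →
  ∀ L : ℝ, 0 < L → ∃ C : ℝ, 0 < C ∧ ∃ n₀ : ℕ, ∀ n : ℕ, n₀ ≤ n →
    volume (lev r (ρ₀ / 2) (L / n)) ≤ ENNReal.ofReal (C * (Real.log n / n))

/-- OUT: every point is close to a point outside the neighbourhood of the level curve. -/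
def St_out : Prop := ∀ (r g : ℂ → ℂ) (y : ℂ) (ρ₀ ε d B c : ℝ), Good r g y ρ₀ ε d B c →
  ∀ L : ℝ, 0 < L → ∃ C : ℝ, 0 < C ∧ ∃ n₀ : ℕ, ∀ n : ℕ, n₀ ≤ n →
    ∀ w : ℂ, ∃ ζ : ℂ, ‖ζ - w‖ ≤ C / Real.sqrt n ∧ ζ ∉ lev r ρ₀ (L / n)

/-- NZ: the orbit near the critical point. -/
def St_nz : Prop := ∀ (r g : ℂ → ℂ) (y a : ℂ) (d B : ℝ), Near r g y a d B → ∀ μ : ℝ, 0 < μ →
  ∃ C₁ c₁ : ℝ, 0 < C₁ ∧ 0 < c₁ ∧ ∃ n₀ : ℕ, ∀ n : ℕ, n₀ ≤ n → ∀ x : ℂ, C₁ / n ≤ ‖x - y‖ →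
  ∀ k : ℕ, (∀ j < k, ‖orb r n x j - y‖ ≤ c₁ / Real.sqrt n) →
    (∀ j < k, 2 * ‖orb r n x j - y‖ ≤ ‖orb r n x (j + 1) - y‖ ∧
      ‖orb r n x (j + 1) - y‖ ≤ μ) ∧
    ∃ D : ℂ, HasDerivAt (fun t => orb r n t k) D x ∧
      ‖(x - y) * D - 2 ^ k * (orb r n x k - y)‖ ≤ μ * 2 ^ k * ‖orb r n x k - y‖

/-- KL: the key lemma. -/
def St_kl : Prop := ∀ (r g : ℂ → ℂ) (y a : ℂ) (ρ₀ ε d B c : ℝ), Near r g y a d B →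
  Good r g y ρ₀ ε d B c → ∃ C₁ c₂ : ℝ, 0 < C₁ ∧ 0 < c₂ ∧ ∃ n₀ : ℕ, ∀ n : ℕ, n₀ ≤ n →
  ∀ x₀ ∈ Und r n ρ₀, C₁ / n ≤ ‖x₀ - y‖ → ∃ (k : ℕ) (G' : ℂ → ℂ) (ρ : ℝ), 0 < ρ ∧ ρ ≤ 1 ∧
    closedBall x₀ ρ ⊆ lev r (ρ₀ / 2) ((2 * Real.log ρ₀⁻¹ + 1) / n) ∧
    (∀ x ∈ closedBall x₀ (10 * ρ), HasDerivAt (fun t => orb r n t k) (G' x) x ∧
      ‖G' x - G' x₀‖ ≤ ‖G' x₀‖ / 10) ∧
    c₂ ≤ ‖G' x₀‖ * ρ ∧ c₂ * Real.sqrt n ≤ ‖G' x₀‖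

/-- AN: the area of the undecided parameters. -/
def St_an : Prop := ∀ (r g : ℂ → ℂ) (y a : ℂ) (ρ₀ ε d B c : ℝ), Near r g y a d B →
  Good r g y ρ₀ ε d B c → ∃ C : ℝ, 0 < C ∧ ∃ n₀ : ℕ, ∀ n : ℕ, n₀ ≤ n →
  volume (Und r n ρ₀) ≤ ENNReal.ofReal (C / n ^ 2)

/-- DI: every parameter is close to a decided one. -/
def St_di : Prop := ∀ (r g : ℂ → ℂ) (y a : ℂ) (ρ₀ ε d B c : ℝ), Near r g y a d B →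
  Good r g y ρ₀ ε d B c → ∃ C : ℝ, 0 < C ∧ ∃ n₀ : ℕ, ∀ n : ℕ, n₀ ≤ n →
  ∀ x : ℂ, ∃ x' : ℂ, ‖x' - x‖ ≤ C / n ∧ x' ∉ Und r n ρ₀

/-- TR: transfer from the coordinate `x = (s v) ^ n` to `s`. -/
def St_tr : Prop := ∀ (v : ℂ) (ρ₀ : ℝ), v ≠ 0 → 0 < ρ₀ → ρ₀ < 1 → ∃ C : ℝ, 0 < C ∧
  ∃ n₀ : ℕ, ∀ n : ℕ, n₀ ≤ n → ∀ S : Set ℂ, (∀ x ∈ S, ρ₀ ≤ ‖x‖ ∧ ‖x‖ ≤ ρ₀⁻¹) →
  volume {s : ℂ | (s * v) ^ n ∈ S} ≤ ENNReal.ofReal (C / n) * volume S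

end Pool.Agent.K3h20.CR
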